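import Pool.Agent.Lib.TB.Blue
import Pool.Agent.Lib.HS32.EKit

/-! Project tb33: the calculus at the limit. -/

open scoped Classical Topology ContDiff ComplexOrder Matrix
open Set Complex Filter

noncomputable section

namespace Pool.Agent.Lib.TB

open Pool.Agent.Lib.SV (E)
open Pool.Agent.Lib.HS32

namespace T82

variable {n : ℕ} {h Q : E n → Mat n} {z : E n}

theorem sm_tm (hh : SmM h z) (h0 : (h z).det ≠ 0) (k : Fin n) : SmM (tm h k) z :=
  fun i j => (hh.gam h0 k i j).sub (hh.gam h0 j i k)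

theorem sm_gs (hh : SmM h z) (h0 : (h z).det ≠ 0) (k : Fin n) : SmM (gs h k) z :=
  (hh.gam h0 k).sub (SmM.rsmul (u := fun _ => (1 / 2 : ℝ)) contDiffAt_const (sm_tm hh h0 k))

theorem ths_eq (hh : SmM h z) (h0 : (h z).det ≠ 0) (k l : Fin n) :
    ths h k l z = th h k l z + (1 / 2 : ℝ) • dMb l (tm h k) z := by
  have e : dMb l (gs h k) z = dMb l (gam h k) z - (1 / 2 : ℝ) • dMb l (tm h k) z := by
    rw [← dMb_rsmul _ (sm_tm hh h0 k)]
    exact dMb_sub (hh.gam h0 k)
      (SmM.rsmul (u := fun _ => (1 / 2 : ℝ)) contDiffAt_const (sm_tm hh h0 k))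
  rw [ths, th, e]
  abel

theorem dMb_tm (hh : SmM h z) (h0 : (h z).det ≠ 0) (k l i j : Fin n) :
    dMb l (tm h k) z i j = th h j l z i k - th h k l z i j := by
  have e := dzb_sub (j := l) ((hh.gam h0 k).diff i j) ((hh.gam h0 j).diff i k)
  simp only [th, Matrix.neg_apply, dMb_apply]
  rw [neg_sub_neg]
  exact e

/-- The first order system for `Q h⁻¹`. -/
theorem sys (hh : SmM h z) (hQ : SmM Q z) (ev : ∀ᶠ w in 𝓝 z, (h w).PosDef ∧ Pde h Q w) :
    ∀ᶠ w in 𝓝 z, (∀ k, dM k (fun w => Q w * (h w)⁻¹) w = -(gs h k w * (Q w * (h w)⁻¹))) ∧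
      ∀ l, dMb l (fun w => Q w * (h w)⁻¹) w = -(Q w * (h w)⁻¹ * (gs h l w)ᴴ) := by
  have h0 : (h z).det ≠ 0 := ev.self_of_nhds.1.det_pos.ne'
  have hX : SmM (fun w => Q w * (h w)⁻¹) z := hQ.mul (hh.inv h0)
  filter_upwards [hX.ev_diff, hh.ev_diff, ev.eventually_nhds] with w dX dh ew
  obtain ⟨pw, p1, p2⟩ := ew.self_of_nhds
  have u : IsUnit (h w).det := pw.det_pos.ne'.isUnit
  have e : Q =ᶠ[𝓝 w] fun w => Q w * (h w)⁻¹ * h w := ew.mono fun y hy => by
    show Q y = Q y * (h y)⁻¹ * h y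
    rw [Matrix.nonsing_inv_mul_cancel_right _ _ hy.1.det_pos.ne'.isUnit]
  have g1 : ∀ k, dM k h w = h w * gam h k w := fun k => by
    rw [gam, Matrix.mul_nonsing_inv_cancel_left _ _ u]
  have g2 : ∀ l, dMb l h w = (gam h l w)ᴴ * h w := fun l => by
    have a : dMb l h w = dMb l (fun y => (h y)ᴴ) w :=
      dMb_congr (ew.mono fun y hy => hy.1.isHermitian.eq.symm)
    have b : dMb l (fun y => (h y)ᴴ) w = (dM l h w)ᴴ := by
      ext i j; exact dzb_star (dh j i)
    rw [a, b, g1, Matrix.conjTranspose_mul, pw.isHermitian.eq]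
  have can : ∀ A B : Mat n, A * h w = B * h w → A = B := fun A B hAB => by
    rw [← Matrix.mul_nonsing_inv_cancel_right _ A u, hAB, Matrix.mul_nonsing_inv_cancel_right _ _ u]
  have xh : Q w * (h w)⁻¹ * h w = Q w := Matrix.nonsing_inv_mul_cancel_right _ _ u
  refine ⟨fun k => can _ _ ?_, fun l => can _ _ ?_⟩
  · have a := dM_congr (k := k) e
    rw [dM_mul' dX dh, p1, g1, ← Matrix.mul_assoc, xh] at a
    rw [Matrix.neg_mul, Matrix.mul_assoc, xh, eq_sub_of_add_eq a.symm]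
    abel
  · have a := dMb_congr (k := l) e
    rw [dMb_mul' dX dh, p2, g2] at a
    rw [eq_sub_of_add_eq a.symm, gs, Matrix.conjTranspose_sub, Matrix.conjTranspose_smul,
      star_trivial]
    simp only [Matrix.mul_sub, Matrix.sub_mul, Matrix.mul_smul, Matrix.smul_mul,
      Matrix.mul_assoc, neg_sub]

end T82

open T82

theorem st_TCA : St_TCA := by
  intro n h Q z hh hQ ev k l
  obtain ⟨pz, pd, -⟩ := ev.self_of_nhds
  have h0 : (h z).det ≠ 0 := pz.det_pos.ne'
  have hX : SmM (fun w => Q w * (h w)⁻¹) z := hQ.mul (hh.inv h0)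
  have s := sys hh hQ (ev.mono fun w hw => ⟨hw.1, hw.2.1⟩)
  refine ⟨fun i j => ?_, ?_, ?_⟩
  · rw [ths_eq hh h0, Matrix.add_apply, Matrix.smul_apply, dMb_tm hh h0, real_smul]
    push_cast
    ring
  · have a := dM_dMb hX k l
    rw [dM_congr (s.mono fun w hw => hw.2 l), dMb_congr (s.mono fun w hw => hw.1 k), dM_neg,
      dMb_neg, dM_mul hX (sm_gs hh h0 l).ct, dMb_mul (sm_gs hh h0 k) hX, dM_ct (sm_gs hh h0 l),
      s.self_of_nhds.1, s.self_of_nhds.2, neg_inj] at a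
    rw [ths, ths, Matrix.conjTranspose_neg, Matrix.neg_mul, Matrix.mul_neg, neg_inj]
    simp only [Matrix.neg_mul, Matrix.mul_neg, Matrix.mul_assoc] at a ⊢
    rw [add_comm] at a
    exact (add_right_cancel a).symm
  · have a : dzb l (fun w => (tm h k w * Q w).trace) z = 0 := by
      rw [dzb_congr (g := fun _ => 0) (ev.mono fun w hw => hw.2.2 k), dzb_const]
    rw [dzb_trace ((sm_tm hh h0 k).mul hQ), dMb_mul (sm_tm hh h0 k) hQ, pd.2, Matrix.trace_add,
      Matrix.mul_smul, Matrix.trace_smul, Matrix.trace_mul_comm (tm h k z), real_smul] at a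
    rw [ths_eq hh h0, Matrix.add_mul, Matrix.trace_add, Matrix.smul_mul, Matrix.trace_smul,
      real_smul]
    simp only [Matrix.mul_assoc] at a ⊢
    push_cast at a ⊢
    linear_combination 2 * a

end Pool.Agent.Lib.TB
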