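import Pool.Agent.Lib.TB.Blue
import Pool.Agent.Lib.GH.B_GT2

/-! Project tb33: the closed conditions for the limit. -/

open scoped Classical Topology ContDiff ComplexOrder Matrix
open Set MeasureTheory Complex Metric Filter

noncomputable section

namespace Pool.Agent.Lib.TB

open Pool.Agent.Lib.SV (E)
open Pool.Agent.Lib.HS32 Pool.Agent.Lib.GH Pool.Agent.Lib.GH.G48 Pool.Agent.Lib.RB

namespace T38

variable {n : ℕ} {h : E n → Mat n} {z : E n} {A : Mat n}

theorem cfst {Y : Type} [TopologicalSpace Y] {u : E n → Y} (hu : ContinuousAt u z) :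
    ContinuousAt (fun p : E n × Mat n => u p.1) (z, A) :=
  ContinuousAt.comp (f := Prod.fst) (x := (z, A)) hu continuousAt_fst

theorem ctm (hs : SmM h z) (h0 : (h z).det ≠ 0) (k : Fin n) : ContinuousAt (tm h k) z :=
  SmM.continuousAt fun i j => (hs.gam h0 k i j).sub (hs.gam h0 j i k)

theorem cbx (hs : SmM h z) (h0 : (h z).det ≠ 0) {ξ η : E n × Mat n → Mat n}
    (hξ : ContinuousAt ξ (z, A)) (hη : ContinuousAt η (z, A)) :
    ContinuousAt (fun p : E n × Mat n => bx h (ξ p) (η p) p.1) (z, A) := by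
  have h1 : Continuous fun q : ((Fin n → Fin n → Mat n) × (Fin n → Mat n) × Mat n) ×
      Mat n × Mat n => (HS76.ip3 q.2.1 q.2.2 q.1.2.2 q.1.2.1 q.1.2.1).re / 4 -
        ((∑ k, ∑ l, q.2.1 k l * (q.2.2 * q.1.2.2 * q.1.1 k l).trace).re +
          (∑ k, ∑ l, q.2.2 k l * (q.2.1 * q.1.2.2 * q.1.1 k l).trace).re) / 2 := by
    unfold HS76.ip3
    fun_prop
  have h2 : ContinuousAt (fun w => ((fun k l => th h k l w), (fun k => tm h k w), h w)) z :=
    (continuousAt_pi.2 fun k => continuousAt_pi.2 fun l => (hs.th h0 k l).continuousAt).prodMk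
      ((continuousAt_pi.2 fun k => ctm hs h0 k).prodMk hs.continuousAt)
  exact h1.continuousAt.comp
    (f := fun p : E n × Mat n =>
      (((fun k l => th h k l p.1), (fun k => tm h k p.1), h p.1), ξ p, η p))
    ((cfst h2).prodMk (hξ.prodMk hη))

theorem ctr (hs : SmM h z) (h0 : (h z).det ≠ 0) (k : Fin n) :
    ContinuousAt (fun p : E n × Mat n => ‖(tm h k p.1 * p.2).trace‖ ^ 2) (z, A) := by
  have h1 : Continuous fun q : Mat n × Mat n => ‖(q.1 * q.2).trace‖ ^ 2 := by fun_prop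
  exact h1.continuousAt.comp (f := fun p : E n × Mat n => (tm h k p.1, p.2))
    ((cfst (ctm hs h0 k)).prodMk continuousAt_snd)

end T38

theorem st_TLQ (hLIM : St_GLIM) (hME : St_GME) (hDB : St_RDB) (hCL : St_TCL) (hNT : St_TNT)
    (hP1 : St_TP1) (hP2 : St_TP2) : St_TLQ := by
  intro n M _ H h Q k C g ε φ f l _ hH hh hr ht hl hQ hA hL e he z hz
  have hs := ht.toGs
  obtain ⟨y0, n1⟩ := hNT n M H h k C g ε φ f hH hh ((hCL n M h hh).2 hr).2 ht
  have hfin : IsFiniteMeasure (M.mu H) := (mMU n M H hH.toMet).2.1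
  have ME := hME M.X (M.mu H)
  have D := fun j => (hDB n M H h hH.toMet hh).1 _ _ (hs.kae j).toMet (hs.eps j).1
  have lim := fun b hb => hLIM n M H h Q (fun a => M.qE (g a) h (ε a)) l b hH.toMet hh hl
    (fun j => (D j).1) hQ hL hb e he
  have hp := hh.pos e he
  have hd := fun w hw => (hp w hw).det_pos.ne'
  have hc : ∀ w ∈ e.target, ∀ A : Mat n, ContinuousAt (fun p : E n × Mat n => h e p.1) (w, A) :=
    fun w hw A => T38.cfst (hh.sm e he w hw).continuousAt
  have hi : ∀ w ∈ e.target, ∀ A : Mat n,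
      ContinuousAt (fun p : E n × Mat n => (h e p.1)⁻¹) (w, A) :=
    fun w hw A => T38.cfst ((hh.sm e he w hw).inv (hd w hw)).continuousAt
  have t0 := fun j x => hh.tr_nonneg (hs.kae j).toMet.nonneg x
  have s0 : ∀ j x, 0 ≤ (1 + M.tr h (g j) x) * M.yS (g j) h (ε j) x := fun j x =>
    mul_nonneg (add_nonneg zero_le_one (t0 j x)) (y0 j x)
  have P2 := fun j => hP2 n M _ h (ε j) (hs.kae j) hh hr
    ⟨(hs.eps j).1, (hs.eps j).2.trans (by norm_num)⟩ e he
  refine ⟨.of_dotProduct_mulVec_nonneg (hA e he z hz) fun v => Complex.nonneg_iff.2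
    ⟨?_, ((hA e he z hz).im_star_dotProduct_mulVec_self v).symm⟩, fun a => ?_, ?_, ?_⟩
  · have := lim (fun _ _ => 0) ((ME (fun _ _ => 0) fun _ _ => 0).2.2.2.2.2.1 _ tendsto_const_nhds)
      (fun p => -nq (h e p.1 * p.2) v)
      (fun p hw => (cont_nq ((hc _ hw.1 _).mul continuousAt_snd)
        continuousAt_const).neg.continuousWithinAt)
      (fun j w hw => neg_nonpos.2 (nq_pos ((D j).2 e he w hw) v)) z hz
    exact neg_nonpos.1 this
  · have c0 : 0 ≤ 8 * (1 + C) := by linarith [hs.one]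
    have key := lim _ (((ME _ _).2.2.2.2.1 s0 fun _ _ => c0).1 n1
      ((ME (fun _ _ => 0) fun _ _ => 0).2.2.2.2.2.2.1 (8 * (1 + C))))
      (fun p => ‖(tm (h e) a p.1 * p.2).trace‖ ^ 2 / (1 + ‖h e p.1 a a‖)) ?_ ?_ z hz
    · rw [div_le_iff₀ (by positivity), zero_mul] at key
      exact norm_eq_zero.1 (pow_eq_zero_iff two_ne_zero |>.1 (le_antisymm key (sq_nonneg _)))
    · rintro ⟨w, A⟩ ⟨hw, -⟩
      exact ((T38.ctr (hh.sm e he w hw) (hd w hw) a).div
        (continuousAt_const.add (T38.cfst (hh.sm e he w hw a a).continuousAt).norm)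
        (add_pos_of_pos_of_nonneg one_pos (norm_nonneg _)).ne').continuousWithinAt
    · intro j w hw
      rw [div_le_iff₀ (by positivity)]
      refine (hP1 n M _ h _ C (hs.kae j) hh hr (hs.eps j).1 (hs.sb j) e he w hw a).trans ?_
      have a1 := t0 j (e.symm w)
      have a2 := y0 j (e.symm w)
      rw [mul_comm _ (8 * (1 + C))]
      refine mul_le_mul (mul_le_mul_of_nonneg_left (by nlinarith) c0)
        ((re_le_norm _).trans (by linarith)) ?_ (mul_nonneg c0 (s0 j _))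
      exact (Complex.nonneg_iff.1 (hp w hw).posSemidef.diag_nonneg).1
  · refine lim _ n1 (fun p => bx (h e) (p.2 * (h e p.1)⁻¹) (p.2 * (h e p.1)⁻¹) p.1)
      (fun p hw => (T38.cbx (hh.sm e he _ hw.1) (hd _ hw.1) (continuousAt_snd.mul (hi _ hw.1 _))
        (continuousAt_snd.mul (hi _ hw.1 _))).continuousWithinAt)
      (fun j w hw => (P2 j w hw).1.trans ?_) z hz
    nlinarith [t0 j (e.symm w), y0 j (e.symm w)]
  · have key := lim _ ((ME _ _).2.2.1 n1
      ((ME (fun _ _ => 0) fun _ _ => 0).2.2.2.2.2.1 _ hs.e0))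
      (fun p => 2 * bx (h e) (p.2 * (h e p.1)⁻¹) (h e p.1)⁻¹ p.1 /
        (1 + |bx (h e) (h e p.1)⁻¹ (h e p.1)⁻¹ p.1|)) ?_ ?_ z hz
    · rw [div_le_iff₀ (by positivity), zero_mul] at key
      linarith
    · rintro ⟨w, A⟩ ⟨hw, -⟩
      exact ((continuousAt_const.mul (T38.cbx (hh.sm e he w hw) (hd w hw)
        (continuousAt_snd.mul (hi w hw A)) (hi w hw A))).div
        (continuousAt_const.add (T38.cbx (hh.sm e he w hw) (hd w hw) (hi w hw A) (hi w hw A)).abs)
        (add_pos_of_pos_of_nonneg one_pos (abs_nonneg _)).ne').continuousWithinAt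
    · intro j w hw
      rw [div_le_iff₀ (by positivity)]
      refine (P2 j w hw).2.trans ?_
      have a1 := s0 j (e.symm w)
      have a2 := (hs.eps j).1
      have a3 := le_abs_self (bx (h e) (h e w)⁻¹ (h e w)⁻¹ w)
      have a4 := abs_nonneg (bx (h e) (h e w)⁻¹ (h e w)⁻¹ w)
      nlinarith [mul_nonneg a1 a4, mul_le_mul_of_nonneg_left a3 a2.le]

end Pool.Agent.Lib.TB
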