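import Pool.Agent.Lib.TB.Blue
import Pool.Agent.Lib.HS32.MAll
import Pool.Agent.Lib.HS76.Mom

/-! Project tb33: the pointwise inequalities for the field `ε G⁻¹ h`. -/

open scoped Classical Topology ContDiff ComplexOrder Matrix
open Set MeasureTheory Complex Metric Filter Matrix

noncomputable section

namespace Pool.Agent.Lib.TB

open Pool.Agent.Lib.SV (E)
open Pool.Agent.Lib.HS32 Pool.Agent.Lib.HS76

namespace T92

variable {n : ℕ}

theorem ip3_four (ξ η H : Mat n) (T : Fin n → Mat n) :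
    ip3 ξ η H T T = ∑ k, ∑ l, ∑ a, ∑ b, ξ k l * η a b * ((T l)ᴴ * H * T k) b a := by
  refine Finset.sum_congr rfl fun k _ => Finset.sum_congr rfl fun l _ => ?_
  rw [Matrix.mul_assoc, Matrix.mul_assoc, ← Matrix.mul_assoc (T l)ᴴ]
  simp only [trace, diag_apply, Matrix.mul_apply (M := η), Finset.mul_sum, mul_assoc]

theorem ip3_swap (ξ η H : Mat n) (T : Fin n → Mat n) (hT : ∀ k i j, T k i j = -T j i k) :
    ip3 ξ η H T T = ip3 η ξ H T T := by
  have e : ∀ k l a b, ((T l)ᴴ * H * T k) b a = ((T b)ᴴ * H * T a) l k := by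
    intro k l a b
    simp only [Matrix.mul_apply, conjTranspose_apply, Finset.sum_mul]
    refine Finset.sum_congr rfl fun d _ => Finset.sum_congr rfl fun c _ => ?_
    rw [hT l c b, hT k d a, star_neg]
    ring
  rw [ip3_four, ip3_four]
  calc ∑ k, ∑ l, ∑ a, ∑ b, ξ k l * η a b * ((T l)ᴴ * H * T k) b a
      = ∑ p : Fin n × Fin n, ∑ q : Fin n × Fin n,
          ξ p.1 p.2 * η q.1 q.2 * ((T p.2)ᴴ * H * T p.1) q.2 q.1 := by
        simp only [Fintype.sum_prod_type]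
    _ = ∑ q : Fin n × Fin n, ∑ p : Fin n × Fin n,
          η q.1 q.2 * ξ p.1 p.2 * ((T q.2)ᴴ * H * T q.1) p.2 p.1 := by
        rw [Finset.sum_comm]
        refine Finset.sum_congr rfl fun q _ => Finset.sum_congr rfl fun p _ => ?_
        rw [e, mul_comm (ξ _ _)]
    _ = _ := by simp only [Fintype.sum_prod_type]

variable (h : E n → Mat n) (z : E n)

theorem tq_symm (ξ η : Mat n) : tq h ξ η z = tq h η ξ z :=
  congrArg Complex.re (ip3_swap ξ η _ _ fun k i j => by simp [tm])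

theorem bx_symm (ξ η : Mat n) : bx h ξ η z = bx h η ξ z := by
  rw [bx, bx, tq_symm, add_comm]

theorem tq_lin (c : ℝ) (ξ ξ' η : Mat n) :
    tq h (c • ξ - ξ') η z = c * tq h ξ η z - tq h ξ' η z := by
  have := ip3_smul (C := ξ) (A := η) (H := h z) c 1 1 (fun k => tm h k z) fun k => tm h k z
  rw [one_smul, one_smul, mul_one, mul_one] at this
  rw [tq, tq, tq, ip3_sub1, rsm, this, sub_re, re_ofReal_mul]

theorem rx_lin1 (c : ℝ) (ξ ξ' η : Mat n) :
    rx h (c • ξ - ξ') η z = c * rx h ξ η z - rx h ξ' η z := by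
  rw [rx, rx, rx, ← re_ofReal_mul, ← sub_re]
  simp only [rsm, Matrix.sub_apply, Matrix.smul_apply, smul_eq_mul, sub_mul,
    Finset.sum_sub_distrib, Finset.mul_sum, mul_assoc]

theorem rx_lin2 (c : ℝ) (ξ η η' : Mat n) :
    rx h ξ (c • η - η') z = c * rx h ξ η z - rx h ξ η' z := by
  rw [rx, rx, rx, ← re_ofReal_mul, ← sub_re]
  simp only [rsm, Matrix.sub_mul, Matrix.smul_mul, trace_sub, trace_smul, smul_eq_mul, mul_sub,
    Finset.sum_sub_distrib, Finset.mul_sum, mul_left_comm (c : ℂ)]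

theorem bx_lin (c : ℝ) (ξ ξ' η : Mat n) :
    bx h (c • ξ - ξ') η z = c * bx h ξ η z - bx h ξ' η z := by
  rw [bx, bx, bx, tq_lin, rx_lin1, rx_lin2]
  ring

theorem bx_zero (η : Mat n) : bx h 0 η z = 0 := by
  have := bx_lin h z 1 η η η
  rw [one_smul, sub_self] at this
  linarith

theorem bx_smul (c : ℝ) (ξ η : Mat n) : bx h (c • ξ) η z = c * bx h ξ η z := by
  have := bx_lin h z c ξ 0 η
  rwa [sub_zero, bx_zero, sub_zero] at this

theorem bx_sq (c : ℝ) (ξ η : Mat n) : bx h (c • ξ - η) (c • ξ - η) z =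
    c * (c * bx h ξ ξ z - 2 * bx h ξ η z) + bx h η η z := by
  rw [bx_lin, bx_symm h z ξ, bx_symm h z η, bx_lin, bx_lin, bx_symm h z η ξ]
  ring

end T92

open T92

theorem st_TP2 (hCL : St_TCL) : St_TP2 := by
  intro n M G h ε hG hh hr ⟨hε, hε1⟩ e he z hz
  have hP := hh.pos e he z hz
  have hQ := hG.pos e he z hz
  have q : M.qE G h ε e z * (h e z)⁻¹ = ε • (G e z)⁻¹ := by
    rw [Mf.qE, Matrix.smul_mul, Matrix.mul_assoc,
      Matrix.mul_nonsing_inv _ hP.det_pos.ne'.isUnit, Matrix.mul_one]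
  have r : M.tr h G (e.symm z) = ((h e z)⁻¹ * G e z).trace.re :=
    ((mINV n M h hh).1 _ hG.toTen).1 e he z hz
  have t0 : 0 ≤ M.tr h G (e.symm z) := r ▸ tr_nonneg hP hQ.posSemidef
  have hS := ((mINV n M G hG.toMet).1 _ hh.toTen).2.1
  have g0 : 0 ≤ M.gr G (M.tr G h) (M.tr G h) (e.symm z) :=
    (((mLAP n M _ _ hS hS).2.2 G hG.toMet).2.2.1 (e.symm z) 0).2.2.2.2.2.2.1
  obtain ⟨y1, y2⟩ := (hCL n M h hh).1 G hG e he z hz
  have a0 := hr e he z hz _ hQ.inv.posSemidef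
  have b0 := hr e he z hz _ hP.inv.posSemidef
  have p := inv_le_of_le hP hQ (le_tr_smul hP hQ.posSemidef (c := 1 + M.tr h G (e.symm z))
    (by rw [← r]; linarith))
  rw [← rsm] at p
  have c0 := hr e he z hz _ p
  rw [bx_sq] at c0
  rw [q, bx_smul, bx_smul, bx_symm _ _ _ (ε • _), bx_smul, Mf.yS]
  set a := bx (h e) (G e z)⁻¹ (G e z)⁻¹ z
  set b := bx (h e) (h e z)⁻¹ (h e z)⁻¹ z
  set m := bx (h e) (G e z)⁻¹ (h e z)⁻¹ z
  set t := M.tr h G (e.symm z)
  set y := M.yT G h (e.symm z)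
  set g := M.gr G (M.tr G h) (M.tr G h) (e.symm z)
  have ay : a ≤ y := by linarith
  have g1 : 0 ≤ ε ^ 2 * g := by positivity
  have k : 2 * m ≤ (1 + t) * a + b := by
    refine le_of_mul_le_mul_left ?_ (show 0 < 1 + t by linarith)
    nlinarith [mul_nonneg t0 b0]
  constructor
  · have : ε * a ≤ y := by nlinarith
    nlinarith
  · have k1 : (1 + t) * a ≤ (1 + t) * y := mul_le_mul_of_nonneg_left ay (by linarith)
    have k2 : ε * (2 * m) ≤ ε * ((1 + t) * y + b) := mul_le_mul_of_nonneg_left (by linarith) hε.le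
    have k3 : 0 ≤ (1 + t) * (ε ^ 2 * g) := mul_nonneg (by linarith) g1
    nlinarith

end Pool.Agent.Lib.TB
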