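import Pool.Agent.Lib.TB.Blue
import Pool.Agent.Lib.RB.B_RDB

/-! Project tb33: local bounds for the field `ε G⁻¹ h` and for the defect in its equations. -/

open scoped Classical Topology ContDiff ComplexOrder Matrix
open Set MeasureTheory Complex Metric Filter Matrix

noncomputable section

namespace Pool.Agent.Lib.TB

open Pool.Agent.Lib.SV (E)
open Pool.Agent.Lib.HS32 Pool.Agent.Lib.HS76
open Pool.Agent.Lib.HS (dbp_grad dbp_entry dbp_der dbp_hinv)
open Pool.Agent.Lib.RB.R47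

namespace T5

variable {n : ℕ} {G H : Mat n} {C ε : ℝ}

theorem der2 (hn : 0 < n) (hε : 0 < ε) (hC : 1 ≤ C) (hG : G.PosDef) (hH : H.PosDef)
    (h1 : (C • H - 1).PosSemidef) (h2 : (C • (1 : Mat n) - H).PosSemidef)
    (h3 : (G - (ε / n) • H).PosSemidef) (D : Fin n → Mat n) (l i j : Fin n) :
    ‖(ε • -(D l * G⁻¹ * H)) i j‖ ^ 2 ≤
      n * C ^ 3 * ((H⁻¹ * G).trace.re * (ε * (ip3 G⁻¹ G⁻¹ H D D).re)) := by
  have hn' : (0 : ℝ) < n := Nat.cast_pos.2 hn
  set t := (H⁻¹ * G).trace.re with ht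
  have t0 : 0 ≤ t := tr_nonneg hH hG.posSemidef
  have a1 : (((t * C : ℝ) : ℂ) • G⁻¹ - 1).PosSemidef := by
    refine dbp_hinv hG ?_
    have b1 := le_tr_smul hH hG.posSemidef ht.ge
    rw [← rsm] at b1
    have := (h2.smul t0).add b1
    rwa [smul_sub, smul_smul, sub_add_sub_cancel] at this
  have a3 := conj_inv_le hH.inv (dbp_hinv hH h2)
  rw [nonsing_inv_nonsing_inv H ((isUnit_iff_isUnit_det _).1 hH.isUnit), ← rsm] at a3
  have p3 : (H * 1 * H).PosSemidef := by
    have := (PosSemidef.one (n := Fin n) (R := ℂ)).mul_mul_conjTranspose_same H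
    rwa [hH.1.eq] at this
  have a2 : (((n * C / ε : ℝ) : ℂ) • G - H * 1 * H).PosSemidef := by
    have := (h3.smul (a := n * C / ε) (by positivity)).add a3
    rwa [smul_sub, smul_smul, show n * C / ε * (ε / n) = C by field_simp, sub_add_sub_cancel,
      rsm] at this
  rw [rsm] at h1
  have a4 := ip3_le PosSemidef.one (conj_inv_psd hG p3) PosSemidef.one a1 (conj_inv_le hG a2) h1 D
  have a5 := entry_le_ip3 (fun k => D k * G⁻¹ * H) l i j
  have a6 : ip3 (1 : Mat n) 1 1 (fun k => D k * G⁻¹ * H) (fun k => D k * G⁻¹ * H) =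
      ip3 1 (G⁻¹ * (H * 1 * H) * G⁻¹) 1 D D := by
    rw [ip3_cyc, ip3_cyc]
    refine Finset.sum_congr rfl fun k _ => Finset.sum_congr rfl fun m _ => ?_
    simp only [conjTranspose_mul, hH.1.eq, hG.inv.1.eq, Matrix.mul_one, Matrix.one_mul,
      Matrix.mul_assoc]
  rw [Matrix.smul_apply, norm_smul, Matrix.neg_apply, norm_neg, Real.norm_of_nonneg hε.le, mul_pow]
  rw [a6] at a5
  refine (mul_le_mul_of_nonneg_left (a5.trans a4) (sq_nonneg ε)).trans (le_of_eq ?_)
  field_simp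

end T5

open T5

theorem st_TDB : St_TDB := by
  intro n M _ H h hH hh S₀ e he K hKc hKs
  obtain ⟨C₁, hC₁, hb₁⟩ := (mBD n M H hH).2.2.1 e he K hKc hKs
  obtain ⟨C, hC, hb⟩ := (mBD n M h hh).2.2.1 e he K hKc hKs
  obtain ⟨C₀, hC₀, hc, -⟩ := (mBD n M h hh).1 H hH.toForm
  set S := max S₀ 1 with hSd
  have hS : 0 < S := lt_max_of_lt_right one_pos
  have hI := mINV n M H hH
  have p1 : 0 ≤ S * n ^ 3 * C ^ 2 := by positivity
  have p2 : 0 ≤ S * C ^ 3 * C₀ := by positivity
  refine ⟨C₁ + S * n ^ 3 * C ^ 2 + S * C ^ 3 * C₀, by positivity, fun f hf z hz l => ?_,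
    fun G ε hG hε hs z hz i j => ?_⟩
  · have hz' := hKs hz
    have hF := (mHES n M).2.2.1 f hf
    have hB : (M.ds f f e z).PosSemidef := by simpa using hF.2 e he z hz'
    have hP := hH.pos e he z hz'
    have r : M.gr H f f (e.symm z) = ((H e z)⁻¹ * M.ds f f e z).trace.re :=
      (hI.1 _ hF.1.toTen).1 e he z hz'
    have d : DifferentiableAt ℝ (M.lc f e) z := cd_diff (cd_ofReal (hf e he z hz'))
    have s : star (dzb l (M.lc f e) z) = dz l (M.lc f e) z := star_dzb_ofReal d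
    have q : ‖M.ds f f e z l l‖ = ‖dzb l (M.lc f e) z‖ ^ 2 := by
      change ‖dzb l (M.lc f e) z * dz l (M.lc f e) z‖ = _
      rw [norm_mul, ← s, norm_star, sq]
    rw [← s, norm_star, and_self, ← q, r]
    exact (dbp_grad hP (hb₁ z hz).2.1 hB l).trans
      (mul_le_mul_of_nonneg_right (by linarith) (tr_nonneg hP hB))
  · have hn : 0 < n := i.pos
    have hn' : (0 : ℝ) < n := Nat.cast_pos.2 hn
    have hz' := hKs hz
    have hP := hh.pos e he z hz'
    have hQ := hG.pos e he z hz'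
    have hε' : 0 < ε * n / S := by positivity
    have r0 : M.tr G h (e.symm z) = ((G e z)⁻¹ * h e z).trace.re :=
      ((mINV n M G hG.toMet).1 _ hh.toTen).1 e he z hz'
    have h3 := low hn hε hS hQ hP (r0 ▸ (hs _).trans (le_max_left _ _))
    refine ⟨?_, fun l => ?_⟩
    · rw [Mf.qE, resc hn hS _ i j hε]
      refine (mul_le_mul_of_nonneg_left (dbp_entry hn hε' hC hQ hP (hb z hz).1 (hb z hz).2.1 h3 i j)
        (by positivity)).trans ?_
      rw [show S / n * (n ^ 4 * C ^ 2) = S * n ^ 3 * C ^ 2 by field_simp]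
      linarith
    have lG := HS68.met_loc hG.toMet he hz'
    have lH := HS68.met_loc hh he hz'
    have q1 : dM l (M.qE G h ε e) z -
        (M.qE G h ε e z * gam (h e) l z - gs (h e) l z * M.qE G h ε e z) =
        ε • -(dsy (G e) (h e) l z * (G e z)⁻¹ * h e z) := by
      have : dM l (M.qE G h ε e) z = ε • dM l (fun w => (G e w)⁻¹ * h e w) z :=
        dM_rsmul ε (lG.smM_inv.mul lH.sm)
      rw [this, lG.dM_quot lH l]
      simp only [Mf.qE, dsy, Matrix.mul_smul, Matrix.smul_mul, Matrix.sub_mul, Matrix.mul_assoc,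
        smul_sub, smul_neg]
      abel
    have q2 : dMb l (M.qE G h ε e) z -
        (1 / 2 : ℝ) • (M.qE G h ε e z * ((h e z)⁻¹ * (tm (h e) l z)ᴴ * h e z)) =
        ε • -((G e z)⁻¹ * (dsy (G e) (h e) l z)ᴴ * h e z) := by
      have : dMb l (M.qE G h ε e) z = ε • dMb l (fun w => (G e w)⁻¹ * h e w) z :=
        dMb_rsmul ε (lG.smM_inv.mul lH.sm)
      have u : dsy (G e) (h e) l z = df (G e) (h e) l z + (1 / 2 : ℝ) • tm (h e) l z := by
        simp only [dsy, gs, df]; abel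
      rw [this, lG.dMb_quot lH l, u]
      simp only [Mf.qE, Matrix.mul_smul, Matrix.smul_mul, Matrix.add_mul, Matrix.mul_add,
        Matrix.mul_assoc, conjTranspose_add, conjTranspose_smul, star_trivial, smul_neg, smul_add,
        mul_nonsing_inv_cancel_left _ _ ((isUnit_iff_isUnit_det _).1 hP.isUnit),
        smul_comm (1 / 2 : ℝ) ε]
      abel
    have r : M.tr H G (e.symm z) = ((H e z)⁻¹ * G e z).trace.re := (hI.1 _ hG.toTen).1 e he z hz'
    have y0 : 0 ≤ es (G e) (h e) z :=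
      ip3_nonneg hQ.inv.posSemidef hQ.inv.posSemidef hP.posSemidef _
    have t0 := tr_nonneg (hH.pos e he z hz') hQ.posSemidef
    have t1 := tr_cmp hQ.posSemidef (hH.pos e he z hz') hP (hc e he z hz')
    have fin : ∀ X : Mat n, ‖((ε * n / S) • X) i j‖ ^ 2 ≤ n * C ^ 3 *
        (((h e z)⁻¹ * G e z).trace.re * (ε * n / S * es (G e) (h e) z)) → ‖(ε • X) i j‖ ^ 2 ≤
        (C₁ + S * n ^ 3 * C ^ 2 + S * C ^ 3 * C₀) *
          (((H e z)⁻¹ * G e z).trace.re * (ε * es (G e) (h e) z)) := fun X k => by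
      rw [resc hn hS _ i j hε, mul_pow]
      refine (mul_le_mul_of_nonneg_left k (by positivity)).trans ?_
      calc _ = S * C ^ 3 * (((h e z)⁻¹ * G e z).trace.re * (ε * es (G e) (h e) z)) := by
            field_simp
        _ ≤ S * C ^ 3 * (C₀ * ((H e z)⁻¹ * G e z).trace.re * (ε * es (G e) (h e) z)) := by
            gcongr
        _ = S * C ^ 3 * C₀ * (((H e z)⁻¹ * G e z).trace.re * (ε * es (G e) (h e) z)) := by ring
        _ ≤ _ := mul_le_mul_of_nonneg_right (by linarith) (mul_nonneg t0 (mul_nonneg hε.le y0))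
    rw [q1, q2, r]
    exact ⟨fin _ (der2 hn hε' hC hQ hP (hb z hz).1 (hb z hz).2.1 h3
      (fun k => dsy (G e) (h e) k z) l i j), fin _ (dbp_der hn hε' hC hQ hP (hb z hz).1
      (hb z hz).2.1 h3 (fun k => dsy (G e) (h e) k z) l i j)⟩

end Pool.Agent.Lib.TB
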