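import Pool.Agent.Lib.TB.Blue
import Pool.Agent.Lib.TB53.Lim
import Pool.Agent.Lib.HS32.EKit

/-! Project tb33: the smooth limit for matrices. -/

open scoped Classical Topology ContDiff ComplexOrder Matrix ENNReal
open Set MeasureTheory Complex Metric Filter

noncomputable section

namespace Pool.Agent.Lib.TB

open Pool.Agent.Lib.SV (E)
open Pool.Agent.Lib.HS32

namespace T53

variable {n : ℕ}

/-- The right side of the system, as a bilinear map. -/
def ph0 (A B A' : Fin n → Mat n) : (Fin n → Fin n → ℂ) →ₗ[ℝ] E n →ₗ[ℝ] Fin n → Fin n → ℂ :=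
  LinearMap.mk₂ ℝ (fun w v p q => ∑ k, ((Matrix.of w * A k - B k * Matrix.of w) p q * v k +
      (Matrix.of w * A' k) p q * star (v k)))
    (fun w w' v => by
      funext p q
      simp only [← Matrix.of_add_of, Matrix.add_mul, Matrix.mul_add, Matrix.sub_apply,
        Matrix.add_apply, Pi.add_apply, ← Finset.sum_add_distrib]
      exact Finset.sum_congr rfl fun k _ => by ring)
    (fun c w v => by
      funext p q
      simp only [← Matrix.smul_of, Matrix.smul_mul, Matrix.mul_smul, Matrix.sub_apply,
        Matrix.smul_apply, Pi.smul_apply, Complex.real_smul, Finset.mul_sum]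
      exact Finset.sum_congr rfl fun k _ => by ring)
    (fun w v v' => by
      funext p q
      simp only [Pi.add_apply, star_add, ← Finset.sum_add_distrib]
      exact Finset.sum_congr rfl fun k _ => by ring)
    (fun c w v => by
      funext p q
      simp only [Pi.smul_apply, Complex.real_smul, Finset.mul_sum, star_mul', RCLike.star_def,
        conj_ofReal]
      exact Finset.sum_congr rfl fun k _ => by ring)

/-- The same as a continuous bilinear map. -/
def ph (A B A' : Fin n → Mat n) : (Fin n → Fin n → ℂ) →L[ℝ] E n →L[ℝ] Fin n → Fin n → ℂ :=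
  LinearMap.toContinuousLinearMap
    ((LinearMap.toContinuousLinearMap (𝕜 := ℝ) (E := E n)
      (F' := Fin n → Fin n → ℂ)).toLinearMap ∘ₗ ph0 A B A')

theorem ph_apply (A B A' : Fin n → Mat n) (w : Mat n) (v : E n) (p q : Fin n) :
    ph A B A' (fun p q => w p q) v p q =
      ∑ k, ((w * A k - B k * w) p q * v k + (w * A' k) p q * star (v k)) := rfl

theorem fd_ent {u : E n → Fin n → Fin n → ℂ} {z : E n} (h : DifferentiableAt ℝ u z) (v : E n)
    (p q : Fin n) : fderiv ℝ u z v p q = fderiv ℝ (fun w => u w p q) z v := by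
  rw [(hasFDerivAt_pi'.1 (hasFDerivAt_pi'.1 h.hasFDerivAt p) q).fderiv]
  rfl

theorem cd_of {u : E n → Mat n} {z : E n} (h : SmM u z) :
    ContDiffAt ℝ ∞ (fun w => (fun p q => u w p q : Fin n → Fin n → ℂ)) z :=
  contDiffAt_pi.2 fun p => contDiffAt_pi.2 fun q => h p q

theorem norm_def {u : E n → Mat n} {z : E n} (h : SmM u z) (A B A' : Fin n → Mat n) :
    ‖fderiv ℝ (fun w => (fun p q => u w p q : Fin n → Fin n → ℂ)) z -
        ph A B A' (fun p q => u z p q)‖ ≤
      ∑ p, ∑ q, ∑ k, (‖(dM k u z - (u z * A k - B k * u z)) p q‖ +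
        ‖(dMb k u z - u z * A' k) p q‖) := by
  refine ContinuousLinearMap.opNorm_le_bound _ (by positivity) fun v => ?_
  refine (pi_norm_le_iff_of_nonneg (by positivity)).2 fun p =>
    (pi_norm_le_iff_of_nonneg (by positivity)).2 fun q => ?_
  rw [sub_apply, Pi.sub_apply, Pi.sub_apply, fd_ent (cd_diff (cd_of h)), ph_apply, fderiv_eq_sum,
    ← Finset.sum_sub_distrib]
  refine (norm_sum_le _ _).trans (le_trans ?_ (mul_le_mul_of_nonneg_right
    ((Finset.single_le_sum (f := fun q => ∑ k, (‖(dM k u z - (u z * A k - B k * u z)) p q‖ +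
        ‖(dMb k u z - u z * A' k) p q‖)) (fun _ _ => by positivity) (Finset.mem_univ q)).trans
      (Finset.single_le_sum (f := fun p => ∑ q, ∑ k,
        (‖(dM k u z - (u z * A k - B k * u z)) p q‖ + ‖(dMb k u z - u z * A' k) p q‖))
        (fun _ _ => by positivity) (Finset.mem_univ p))) (norm_nonneg v)))
  rw [Finset.sum_mul]
  refine Finset.sum_le_sum fun k _ => ?_
  have e : dz k (fun w => u w p q) z * v k + dzb k (fun w => u w p q) z * star (v k) -
      ((u z * A k - B k * u z) p q * v k + (u z * A' k) p q * star (v k)) =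
      (dM k u z - (u z * A k - B k * u z)) p q * v k +
        (dMb k u z - u z * A' k) p q * star (v k) := by
    simp only [Matrix.sub_apply, dM, dMb, Matrix.of_apply]
    ring
  rw [e, add_mul]
  refine (norm_add_le _ _).trans (add_le_add ?_ ?_)
  · rw [norm_mul]
    exact mul_le_mul_of_nonneg_left (norm_le_pi_norm v k) (norm_nonneg _)
  · rw [norm_mul, norm_star]
    exact mul_le_mul_of_nonneg_left (norm_le_pi_norm v k) (norm_nonneg _)

theorem sum0 {μ : Measure (E n)} {l : Filter ℕ} {f : Fin n → ℕ → E n → ℝ≥0∞}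
    (h : ∀ j, (∀ i, AEMeasurable (f j i) μ) ∧ Tendsto (fun i => ∫⁻ z, f j i z ∂μ) l (𝓝 0)) :
    (∀ i, AEMeasurable (fun z => ∑ j, f j i z) μ) ∧
      Tendsto (fun i => ∫⁻ z, ∑ j, f j i z ∂μ) l (𝓝 0) := by
  refine ⟨fun i => Finset.aemeasurable_fun_sum _ fun j _ => (h j).1 i, ?_⟩
  have t := tendsto_finsetSum Finset.univ fun j _ => (h j).2
  rw [Finset.sum_const_zero] at t
  exact t.congr fun i => (lintegral_finsetSum' _ fun j _ => (h j).1 i).symm

end T53

open T53

theorem st_TLM : St_TLM := by
  intro n l u A B A' c ρ C hu hA h1 h2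
  have hA' := fun k z (hz : z ∈ ball c ρ) => hA k z (ball_subset_closedBall hz)
  have hm : ∀ {T : E n → Mat n}, (∀ z ∈ ball c ρ, SmM T z) → ∀ p q,
      AEMeasurable (fun z => ‖T z p q‖ₑ) (volume.restrict (ball c ρ)) := fun hT p q =>
    (ContinuousOn.aemeasurable (fun z hz => (hT z hz p q).continuousAt.continuousWithinAt)
      measurableSet_ball).enorm
  obtain ⟨U, a1, a2⟩ := TB53.lim volume l (fun i w => (fun p q => u i w p q : Fin n → Fin n → ℂ))
    (fun z => ph (fun k => A k z) (fun k => B k z) fun k => A' k z) c ρ |C|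
    (fun z hz => ContDiffOn.contDiffAt (contDiffOn_clm_apply.2 fun w =>
      contDiffOn_clm_apply.2 fun v y hy => ContDiffAt.contDiffWithinAt
        (contDiffAt_pi.2 fun p => contDiffAt_pi.2 fun q => by
          refine ContDiffAt.sum (s := Finset.univ) (f := fun k z =>
            (Matrix.of w * A k z - B k z * Matrix.of w) p q * v k +
              (Matrix.of w * A' k z) p q * star (v k)) fun k _ => ?_
          obtain ⟨b1, b2, b3⟩ := hA' k y hy
          exact (((((smM_const _).mul b1).sub (b2.mul (smM_const _))) p q).mul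
            contDiffAt_const).add ((((smM_const _).mul b3) p q).mul contDiffAt_const)))
      (isOpen_ball.mem_nhds hz))
    (Eventually.of_forall fun i z hz => ⟨(cd_of (hu i z hz).1).of_le (by simp),
      (pi_norm_le_iff_of_nonneg (abs_nonneg C)).2 fun p =>
        (pi_norm_le_iff_of_nonneg (abs_nonneg C)).2 fun q =>
          ((hu i z hz).2 p q).trans (le_abs_self C)⟩)
    (by
      have m1 := fun i k => hm (T := fun z => dM k (u i) z - (u i z * A k z - B k z * u i z))
        fun z hz => ((hu i z hz).1.dM k).sub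
          (((hu i z hz).1.mul (hA' k z hz).1).sub ((hA' k z hz).2.1.mul (hu i z hz).1))
      have m2 := fun i k => hm (T := fun z => dMb k (u i) z - u i z * A' k z)
        fun z hz => ((hu i z hz).1.dMb k).sub ((hu i z hz).1.mul (hA' k z hz).2.2)
      have t := (sum0 fun p => sum0 fun q => sum0 (μ := volume.restrict (ball c ρ)) (l := l)
        (f := fun k i z => ‖(dM k (u i) z - (u i z * A k z - B k z * u i z)) p q‖ₑ +
          ‖(dMb k (u i) z - u i z * A' k z) p q‖ₑ) fun k => ⟨fun i => (m1 i k p q).add (m2 i k p q),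
            by simpa only [add_zero, ← lintegral_add_left' (m1 _ _ _ _)] using
              (h1 k p q).add (h2 k p q)⟩).2
      refine tendsto_of_tendsto_of_tendsto_of_le_of_le tendsto_const_nhds t (fun _ => zero_le)
        fun i => ?_
      refine setLIntegral_mono' measurableSet_ball fun z hz => ?_
      rw [← ofReal_norm]
      refine (ENNReal.ofReal_le_ofReal (norm_def (hu i z hz).1 _ _ _)).trans (le_of_eq ?_)
      rw [ENNReal.ofReal_sum_of_nonneg fun _ _ => by positivity]
      refine Finset.sum_congr rfl fun p _ => ?_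
      rw [ENNReal.ofReal_sum_of_nonneg fun _ _ => by positivity]
      refine Finset.sum_congr rfl fun q _ => ?_
      rw [ENNReal.ofReal_sum_of_nonneg fun _ _ => by positivity]
      refine Finset.sum_congr rfl fun k _ => ?_
      rw [ENNReal.ofReal_add (norm_nonneg _) (norm_nonneg _), ofReal_norm, ofReal_norm])
  refine ⟨fun z => Matrix.of (U z), fun z hz => ⟨fun p q =>
    contDiffAt_pi.1 (contDiffAt_pi.1 (a1 z hz).1 p) q, fun k => ?_⟩, fun K k1 k2 p q => ?_⟩
  · have e : ∀ v p q, fderiv ℝ (fun w => U w p q) z v =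
        ∑ j, ((Matrix.of (U z) * A j z - B j z * Matrix.of (U z)) p q * v j +
          (Matrix.of (U z) * A' j z) p q * star (v j)) := fun v p q => by
      rw [← fd_ent (a1 z hz).2.differentiableAt, (a1 z hz).2.fderiv]
      rfl
    constructor
    · ext p q
      simp only [dM, dz, Matrix.of_apply, e, Pi.single_apply, apply_ite star, star_one, star_zero,
        mul_ite, mul_zero, Finset.sum_add_distrib, Finset.sum_ite_eq', Finset.mem_univ, if_true,
        RCLike.star_def, conj_I]
      linear_combination (-((Matrix.of (U z) * A k z - B k z * Matrix.of (U z)) p q) / 2 +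
        (Matrix.of (U z) * A' k z) p q / 2) * I_mul_I
    · ext p q
      simp only [dMb, dzb, Matrix.of_apply, e, Pi.single_apply, apply_ite star, star_one, star_zero,
        mul_ite, mul_zero, Finset.sum_add_distrib, Finset.sum_ite_eq', Finset.mem_univ, if_true,
        RCLike.star_def, conj_I]
      linear_combination (((Matrix.of (U z) * A k z - B k z * Matrix.of (U z)) p q) / 2 -
        (Matrix.of (U z) * A' k z) p q / 2) * I_mul_I
  · refine tendsto_of_tendsto_of_tendsto_of_le_of_le tendsto_const_nhds (a2 K k1 k2)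
      (fun _ => zero_le) fun i => lintegral_mono fun z => ?_
    rw [← ofReal_norm, ← ofReal_norm]
    exact ENNReal.ofReal_le_ofReal ((norm_le_pi_norm _ q).trans
      (norm_le_pi_norm ((fun p q => u i z p q : Fin n → Fin n → ℂ) - U z) p))

end Pool.Agent.Lib.TB
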