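import Pool.Agent.Lib.TB.Blue
import Pool.Agent.Lib.RB.B_RCL
import Pool.Agent.Lib.HS.B_LOCP
import Pool.Agent.Lib.HS32.MAll

/-! Project tb33: the local smooth limit of the fields of the good sequence. -/

open scoped Classical Topology ContDiff ComplexOrder Matrix ENNReal
open Set MeasureTheory Complex Metric Filter

noncomputable section

namespace Pool.Agent.Lib.TB

open Pool.Agent.Lib.SV (E)
open Pool.Agent.Lib.HS32 Pool.Agent.Lib.HS.Locp

namespace T18

theorem cut {d p w : ℂ} {s r C γ τ x y : ℝ} (s0 : 0 ≤ s) (s1 : s ≤ 1)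
    (hr : 0 < r) (hC : 0 ≤ C) (hτ : 0 ≤ τ) (hy : 0 ≤ y) (hx : x ≤ y) (h1 : ‖d‖ ^ 2 ≤ C * γ)
    (h2 : ‖p‖ ≤ C) (h3 : ‖w‖ ^ 2 ≤ C * (τ * x)) :
    ‖d * p + s * w‖ ≤ C * √C * √γ + (τ / r + r * (C * (s * y))) := by
  refine (norm_add_le _ _).trans (add_le_add ?_ ?_)
  · rw [norm_mul, mul_comm, mul_assoc, ← Real.sqrt_mul hC]
    exact mul_le_mul h2 (Real.le_sqrt_of_sq_le h1) (norm_nonneg _) hC
  · refine young hτ (by positivity) hr ?_
    rw [norm_mul, Complex.norm_real, Real.norm_of_nonneg s0, mul_pow]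
    have h4 : s ^ 2 ≤ s := by nlinarith
    have h5 : ‖w‖ ^ 2 ≤ C * (τ * y) := h3.trans (by gcongr)
    calc _ ≤ s * (C * (τ * y)) := mul_le_mul h4 h5 (sq_nonneg _) s0
      _ = _ := by ring

theorem sm_tm {n : ℕ} {h : E n → Mat n} {z : E n} (hs : SmM h z) (h0 : (h z).det ≠ 0)
    (k : Fin n) : SmM (tm h k) z := fun i j => (hs.gam h0 k i j).sub (hs.gam h0 j i k)

theorem sm_gs {n : ℕ} {h : E n → Mat n} {z : E n} (hs : SmM h z) (h0 : (h z).det ≠ 0)
    (k : Fin n) : SmM (gs h k) z :=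
  (hs.gam h0 k).sub (SmM.rsmul contDiffAt_const (sm_tm hs h0 k))

end T18

theorem st_TLO (hLM : St_TLM) (hDB : St_TDB) (hCL : St_TCL) : St_TLO := by
  intro n M _ H h k C g ε φ f l hK hh hr hs hl e he c ρ hcρ
  have hM : M.Met H := hK.toMet
  have hcont : ∀ f : M.X → ℝ, M.Sm f → Continuous f := fun f => ((mTR n M).2.2.2.1 ℝ f).1
  have hint : ∀ f : M.X → ℝ, Continuous f → Integrable f (M.mu H) :=
    (mMU n M H hM).2.2.2.2.1 ℝ
  obtain ⟨C1, hC1, hd1, hd2⟩ := hDB n M H h hM hh C e he _ (isCompact_closedBall c ρ) hcρ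
  obtain ⟨C4, hC4, hc⟩ := chart_le mMU mBD hM he (isCompact_closedBall c ρ) hcρ
  obtain ⟨hcl, hcl'⟩ := hCL n M h hh
  obtain ⟨-, hyp⟩ := hcl' hr
  have hε : ∀ a, 0 < ε a := fun a => (hs.eps a).1
  have hd := fun a => hd2 (g a) (ε a) (hs.kae a) (hε a) (hs.sb a)
  set η : ℕ → ℝ := fun a => ∫ x, f a x * (ε a * M.yT (g a) h x) ∂M.mu H with hη
  have hτ0 : Tendsto (fun a => |η a| + ε a) l (𝓝 0) := by
    simpa using (hs.fy.abs.add hs.e0).mono_left hl
  obtain ⟨r, hr1, hr2, hr3⟩ := slow (l := l)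
    (fun a => add_pos_of_nonneg_of_pos (abs_nonneg (η a)) (hε a)) hτ0 fun r => r
  have hr0 : ∀ a, 0 < r a := fun a => one_pos.trans_le (hr1 a)
  have hsf : ∀ a, ∀ z ∈ closedBall c ρ, ContDiffAt ℝ ∞ (M.lc (f a) e) z :=
    fun a z hz => cd_ofReal (hs.fs a e he z (hcρ hz))
  have hsh : ∀ z ∈ closedBall c ρ, SmM (h e) z := fun z hz => hh.sm e he z (hcρ hz)
  have hdh : ∀ z ∈ closedBall c ρ, (h e z).det ≠ 0 :=
    fun z hz => (hh.pos e he z (hcρ hz)).det_pos.ne'
  have hsp : ∀ a, ∀ z ∈ closedBall c ρ, SmM (M.qE (g a) h (ε a) e) z := fun a z hz =>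
    SmM.rsmul contDiffAt_const ((((hs.kae a).sm e he z (hcρ hz)).inv
      ((hs.kae a).pos e he z (hcρ hz)).det_pos.ne').mul (hsh z hz))
  have hcf : ∀ a, Continuous (f a) := fun a => hcont _ (hs.fs a)
  have hy0 : ∀ a x, 0 ≤ ε a * M.yT (g a) h x := fun a x =>
    mul_nonneg (hε a).le (hyp _ (hs.kae a) x)
  have hey : ∀ a, ∀ z ∈ closedBall c ρ,
      ε a * es (g a e) (h e) z ≤ ε a * M.yT (g a) h (e.symm z) := fun a z hz => by
    refine mul_le_mul_of_nonneg_left ?_ (hε a).le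
    rw [(hcl _ (hs.kae a) e he z (hcρ hz)).1]
    exact le_add_of_nonneg_right
      (hr e he z (hcρ hz) _ ((hs.kae a).pos e he z (hcρ hz)).inv.posSemidef)
  have ht0 : ∀ a x, 0 ≤ M.tr H (g a) x := fun a x => by
    obtain ⟨h1, h2⟩ := (mTR n M).1 x
    exact HS76.tr_nonneg (hM.pos _ h1 _ ((M.ch x).map_source h2))
      ((hs.kae a).pos _ h1 _ ((M.ch x).map_source h2)).posSemidef
  let Q : ℕ → E n → Mat n := fun a z => M.lc (f a) e z • M.qE (g a) h (ε a) e z
  have est1 : ∀ D : ℕ → E n → ℂ, (∀ a, ∀ z ∈ closedBall c ρ, ‖D a z‖ ≤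
      C1 * √C1 * √(M.gr H (f a) (f a) (e.symm z)) + (M.tr H (g a) (e.symm z) / r a +
        r a * (C1 * (f a (e.symm z) * (ε a * M.yT (g a) h (e.symm z)))))) →
      Tendsto (fun a => ∫⁻ z in ball c ρ, ‖D a z‖ₑ) l (𝓝 0) := by
    intro D hD
    have lim : Tendsto (fun a => ENNReal.ofReal (C4 * (C1 * √C1 *
        (∫ x, √(M.gr H (f a) (f a) x) ∂M.mu H) +
        (C * (r a)⁻¹ + C1 * (r a * (|η a| + ε a)))))) l (𝓝 0) := by
      have := ENNReal.tendsto_ofReal ((((hs.df.mono_left hl).const_mul (C1 * √C1)).add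
        ((hr2.const_mul C).add (hr3.const_mul C1))).const_mul C4)
      simpa using this
    refine tendsto_of_tendsto_of_tendsto_of_le_of_le tendsto_const_nhds lim (fun _ => zero_le)
      fun a => (lintegral_mono_set ball_subset_closedBall).trans ?_
    obtain ⟨-, hg1, -⟩ := (mLAP n M _ _ (hs.fs a) (hs.fs a)).2.2 H hM
    have hy1 : M.Sm (M.yT (g a) h) := (RB.st_RCL n M (g a) h (hs.kae a) hh).2.1
    have c1 : Continuous fun x => √(M.gr H (f a) (f a) x) := (hcont _ hg1).sqrt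
    have c2 : Continuous fun x => f a x * (ε a * M.yT (g a) h x) :=
      (hcf a).mul (continuous_const.mul (hcont _ hy1))
    have c3 : Continuous (M.tr H (g a)) := hcont _ ((mINV n M H hM).1 _ (hs.kae a).toTen).2.1
    have hra := hr0 a
    refine (hc (fun x => C1 * √C1 * √(M.gr H (f a) (f a) x) +
        (M.tr H (g a) x / r a + r a * (C1 * (f a x * (ε a * M.yT (g a) h x))))) _
      (by fun_prop) (fun x => by
        have := ht0 a x; have := hy0 a x; have := (hs.f01 a x).1; positivity) (hD a)).trans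
      (ENNReal.ofReal_le_ofReal (mul_le_mul_of_nonneg_left ?_ hC4))
    rw [integral_add (hint _ (by fun_prop)) (hint _ (by fun_prop)), integral_const_mul,
      integral_add (hint _ (by fun_prop)) (hint _ (by fun_prop)), integral_div,
      integral_const_mul, integral_const_mul]
    have i1 := hs.trc a
    have i2 : η a ≤ |η a| + ε a := (le_abs_self _).trans (le_add_of_nonneg_right (hε a).le)
    refine add_le_add le_rfl (add_le_add ?_ ?_)
    · rw [div_eq_mul_inv]; gcongr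
    · calc _ ≤ r a * (C1 * (|η a| + ε a)) := by gcongr
        _ = _ := by ring
  have est2 : ∀ i j, Tendsto (fun a => ∫⁻ z in closedBall c ρ,
      ‖M.qE (g a) h (ε a) e z i j - Q a z i j‖ₑ) l (𝓝 0) := by
    intro i j
    have lim : Tendsto (fun a => ENNReal.ofReal (C4 * (C1 * ∫ x, (1 - f a x) ∂M.mu H))) l
        (𝓝 0) := by
      have := ENNReal.tendsto_ofReal (((hs.f1.mono_left hl).const_mul C1).const_mul C4)
      simpa using this
    refine tendsto_of_tendsto_of_tendsto_of_le_of_le tendsto_const_nhds lim (fun _ => zero_le)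
      fun a => ?_
    have := hcf a
    refine (hc (fun x => C1 * (1 - f a x)) _ (by fun_prop)
      (fun x => mul_nonneg hC1.le (sub_nonneg.2 (hs.f01 a x).2)) fun z hz => ?_).trans
      (by rw [integral_const_mul])
    have e1 : M.qE (g a) h (ε a) e z i j - Q a z i j =
        M.qE (g a) h (ε a) e z i j * ((1 - f a (e.symm z) : ℝ) : ℂ) := by
      simp only [Q, Mf.lc, Matrix.smul_apply, smul_eq_mul]; push_cast; ring
    have h1 := sub_nonneg.2 (hs.f01 a (e.symm z)).2
    rw [e1, norm_mul, Complex.norm_real, Real.norm_of_nonneg h1]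
    exact mul_le_mul_of_nonneg_right (hd a z hz i j).1 h1
  have hQ : ∀ a, ∀ z ∈ closedBall c ρ, SmM (Q a) z :=
    fun a z hz => SmM.smul (hsf a z hz) (hsp a z hz)
  obtain ⟨P, hP1, hP3⟩ := hLM n l Q (fun k => gam (h e) k) (fun k => gs (h e) k)
    (fun k z => (1 / 2 : ℝ) • ((h e z)⁻¹ * (tm (h e) k z)ᴴ * h e z)) c ρ C1
    (fun a z hz => ⟨hQ a z (ball_subset_closedBall hz), fun i j => by
      have h1 := hs.f01 a (e.symm z)
      simp only [Q, Mf.lc, Matrix.smul_apply, smul_eq_mul]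
      rw [norm_mul, Complex.norm_real, Real.norm_of_nonneg h1.1]
      exact (mul_le_of_le_one_left (norm_nonneg _) h1.2).trans
        (hd a z (ball_subset_closedBall hz) i j).1⟩)
    (fun m z hz => ⟨(hsh z hz).gam (hdh z hz) m, T18.sm_gs (hsh z hz) (hdh z hz) m,
      SmM.rsmul contDiffAt_const ((((hsh z hz).inv (hdh z hz)).mul
        (T18.sm_tm (hsh z hz) (hdh z hz) m).ct).mul (hsh z hz))⟩)
    (fun m i j => est1 _ fun a z hz => by
      refine le_of_eq_of_le ?_ (T18.cut (hs.f01 a _).1 (hs.f01 a _).2 (hr0 a) hC1.le (ht0 a _)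
        (hy0 a _) (hey a z hz) (hd1 _ (hs.fs a) z hz m).1 (hd a z hz i j).1
        ((hd a z hz i j).2 m).1)
      congr 1
      simp only [Q]
      rw [dM_smul (cd_diff (hsf a z hz)) (hsp a z hz), Matrix.smul_mul, Matrix.mul_smul]
      simp only [Mf.lc, Matrix.sub_apply, Matrix.add_apply, Matrix.smul_apply, smul_eq_mul]
      ring)
    (fun m i j => est1 _ fun a z hz => by
      refine le_of_eq_of_le ?_ (T18.cut (hs.f01 a _).1 (hs.f01 a _).2 (hr0 a) hC1.le (ht0 a _)
        (hy0 a _) (hey a z hz) (hd1 _ (hs.fs a) z hz m).2 (hd a z hz i j).1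
        ((hd a z hz i j).2 m).2)
      congr 1
      simp only [Q]
      rw [dMb_smul (cd_diff (hsf a z hz)) (hsp a z hz), Matrix.smul_mul, Matrix.mul_smul]
      simp only [Mf.lc, Matrix.sub_apply, Matrix.add_apply, Matrix.smul_apply, smul_eq_mul]
      ring)
  refine ⟨P, fun z hz => ⟨(hP1 z hz).1, fun m => ((hP1 z hz).2 m).1, fun m => by
    rw [((hP1 z hz).2 m).2, Matrix.mul_smul]⟩, fun K hKc hKb i j => ?_⟩
  have hKs : K ⊆ closedBall c ρ := hKb.trans ball_subset_closedBall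
  have hPc : ContinuousOn (fun z => P z i j) K := fun z hz =>
    ((hP1 z (hKb hz)).1 i j).continuousAt.continuousWithinAt
  have t1 : Tendsto (fun a => ∫⁻ z in K, ‖M.qE (g a) h (ε a) e z i j - P z i j‖ₑ) l (𝓝 0) := by
    have := (est2 i j).add (hP3 K hKc hKb i j)
    rw [add_zero] at this
    refine tendsto_of_tendsto_of_tendsto_of_le_of_le tendsto_const_nhds this (fun _ => zero_le)
      fun a => ?_
    have hm : AEMeasurable (fun z => ‖Q a z i j - P z i j‖ₑ) (volume.restrict K) :=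
      (ContinuousOn.aestronglyMeasurable (ContinuousOn.sub
        (fun z hz => (hQ a z (hKs hz) i j).continuousAt.continuousWithinAt) hPc)
        hKc.measurableSet).enorm
    calc _ ≤ ∫⁻ z in K, (‖M.qE (g a) h (ε a) e z i j - Q a z i j‖ₑ + ‖Q a z i j - P z i j‖ₑ) :=
          lintegral_mono fun z => by
            rw [← sub_add_sub_cancel _ (Q a z i j)]; exact enorm_add_le _ _
      _ = _ := lintegral_add_right' _ hm
      _ ≤ _ := add_le_add (lintegral_mono_set hKs) le_rfl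
  refine ((ENNReal.tendsto_toReal ENNReal.zero_ne_top).comp t1).congr fun a => ?_
  have hm : AEStronglyMeasurable (fun z => M.qE (g a) h (ε a) e z i j - P z i j)
      (volume.restrict K) :=
    ContinuousOn.aestronglyMeasurable (ContinuousOn.sub
      (fun z hz => (hsp a z (hKs hz) i j).continuousAt.continuousWithinAt) hPc) hKc.measurableSet
  have := (integral_norm_eq_lintegral_enorm hm).symm
  simp only [Function.comp, this]
  simp only [Matrix.sub_apply]

end Pool.Agent.Lib.TB
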