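import Pool.Agent.Lib.TB.Blue
import Pool.Agent.Lib.RB.B_RMN

/-! Project tb33: the mean value of the trace of the Ricci form. -/

open scoped Classical Topology ContDiff ComplexOrder Matrix
open Set MeasureTheory Complex Metric Filter

noncomputable section

namespace Pool.Agent.Lib.TB

open Pool.Agent.Lib.SV (E)
open Pool.Agent.Lib.HS32 Pool.Agent.Lib.RB

namespace T10

variable {n : ℕ}

theorem tr_lip {r : ℝ} (A R : Mat n) (hR : ∀ i j, ‖R i j‖ ≤ r) :
    ‖(A * R).trace‖ ≤ r * ∑ i, ∑ j, ‖A i j‖ := by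
  rw [Matrix.trace, Finset.mul_sum]
  refine (norm_sum_le _ _).trans (Finset.sum_le_sum fun i _ => ?_)
  rw [Matrix.diag_apply, Matrix.mul_apply, Finset.mul_sum]
  refine (norm_sum_le _ _).trans (Finset.sum_le_sum fun j _ => ?_)
  rw [norm_mul, mul_comm]
  exact mul_le_mul_of_nonneg_right (hR j i) (norm_nonneg _)

theorem end_qE {M : Mf n} {G h : M.Fam (Mat n)} (hG : M.Met G) (hh : M.Met h) (ε : ℝ) :
    M.End (M.qE G h ε) := by
  have e : M.qE G h ε = fun e z => (G e z)⁻¹ * (ε • h) e z := by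
    funext e z
    simp only [Mf.qE, Pi.smul_apply, Matrix.mul_smul]
  rw [e]
  exact (mINV n M G hG).2.2.2.2.1 _ (hh.toTen.smul ε)

open Mf in
theorem mn_ric {M : Mf n} [M.Cpt] {H h G : M.Fam (Mat n)} {φ : M.X → ℝ} {ε C D : ℝ}
    (hH : M.Met H) (hh : M.Met h) (hG : M.Kae G) (hφ : M.Sm φ) (h0 : 0 < ε) (h1 : ε ≤ 1 / 2)
    (hc : M.All fun e z => G e z = M.gI H ε φ e z) (hD : 0 ≤ D) (hl : M.Le H (D • h))
    (hb : ∀ x, ε * M.tr G h x ≤ C) (hC : 0 ≤ C) : M.mn G (M.tr G (M.ric h)) ≤ D * C := by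
  have gm := hG.toMet
  obtain ⟨-, gfin, -, v0, gint, -⟩ := mMU n M _ gm
  have hI := (mINV n M G gm).1
  obtain ⟨hh1, -, -, -, -, -, -, -, hr, hq⟩ := mHES n M
  obtain ⟨s1, s2⟩ := hq h H hh hH
  have it : ∀ T, M.Ten T → Integrable (M.tr G T) (M.mu G) := fun T hT =>
    gint ℝ _ (hI T hT).2.1.continuous
  have iH := it _ (hr H hH).toTen
  have a1 : ∫ x, M.tr G (M.ric h) x ∂M.mu G = ∫ x, M.tr G (M.ric H) x ∂M.mu G := by
    have e : ∀ x, M.tr G (M.ric h) x = M.tr G (M.ric H) x -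
        M.tr G (M.hs fun x => Real.log (M.dq H h x)) x := fun x => by
      rw [tr_congr (G' := G) (T' := M.ric H - M.hs fun x => Real.log (M.dq H h x))
        (fun _ _ _ _ => rfl) s2]
      exact tr_sub
    have := ((mGRN n M).2 G _ _ hG s1 s1).1
    rw [lap] at this
    simp only [e]
    rw [integral_sub iH (it _ (hh1 _ s1).toTen), this, sub_zero]
  have a2 : ∀ x, (2 - 2 * ε) * M.tr G (M.ric H) x ≤ D * C + M.lap G φ x := fun x => by
    have b1 : (n : ℝ) = ε * M.tr G H x - (2 - 2 * ε) * M.tr G (M.ric H) x + M.lap G φ x := by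
      rw [← gm.tr_self (x := x), tr_congr (G' := G) (fun _ _ _ _ => rfl) hc, gI, tr_add, tr_sub,
        tr_smul, tr_smul, lap]
    have b2 := gm.tr_mono hl x
    rw [tr_smul] at b2
    have b3 := mul_le_mul_of_nonneg_left (hb x) hD
    have b4 := mul_le_mul_of_nonneg_left b2 h0.le
    have b5 : (0 : ℝ) ≤ n := n.cast_nonneg
    nlinarith
  have a3 : ∫ x, (2 - 2 * ε) * M.tr G (M.ric H) x ∂M.mu G ≤
      ∫ x, (D * C + M.tr G (M.hs φ) x) ∂M.mu G := integral_mono (iH.const_mul (2 - 2 * ε))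
    ((integrable_const (D * C)).add (it _ (hh1 _ hφ).toTen)) a2
  rw [integral_const_mul] at a3
  have a4 : ∫ x, (D * C + M.tr G (M.hs φ) x) ∂M.mu G = D * C * M.vv G := by
    rw [integral_add (integrable_const _) (it _ (hh1 _ hφ).toTen), integral_const, smul_eq_mul]
    have := ((mGRN n M).2 G _ _ hG hφ hφ).1
    rw [lap] at this
    rw [this, add_zero, vv, mul_comm]
  rw [a4] at a3
  have v1 : 0 < M.vv G := v0
  rw [mn, div_le_iff₀ v1, a1]
  have a5 : 0 ≤ D * C * M.vv G := by positivity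
  rcases le_total (∫ x, M.tr G (M.ric H) x ∂M.mu G) 0 with a6 | a6
  · exact a6.trans a5
  · nlinarith

end T10

open M51 T10 Mf in
theorem st_TM1 : St_TM1 := by
  intro n M _ H h Q k C g ε φ f l δ hK hh hs hl hQ hL hδ
  obtain ⟨-, -, ⟨V, -⟩, -⟩ := mCOV n M
  obtain ⟨-, hfin, -, -, hint, -, hmu⟩ := mMU n M h hh
  have hI := mINV n M h hh
  obtain ⟨D, hD, bD⟩ := ((hI.1 H hK.toTen).2.2.2.1).exists_bound
  obtain ⟨D', hD', bD', -⟩ := (mBD n M h hh).1 H hK.toForm
  have hC : 0 ≤ C := zero_le_one.trans hs.one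
  have hρ : M.Ten (M.ric h) := ((mHES n M).2.2.2.2.2.2.2.2.1 h hh).toTen
  have hR := hI.2.2.2.2.1 _ hρ
  obtain ⟨r1, r2, -⟩ := hI.2.2.1 _ _ (hI.2.2.2.2.2.1 Q hQ) hρ
  have r3 : M.Rep (M.ip h (fun e z => h e z * Q e z) (M.ric h))
      fun e z => (Q e z * (h e z)⁻¹ * M.ric h e z).trace.re := fun e he z hz =>
    (r1 e he z hz).trans (congrArg (fun A : Mat n => (A * (h e z)⁻¹ * M.ric h e z).trace.re)
      (Matrix.nonsing_inv_mul_cancel_left _ _ (hh.det_ne e he z hz).isUnit))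
  rw [← r3.eq_ev]
  generalize M.ip h (fun e z => h e z * Q e z) (M.ric h) = F at r2 r3
  have hB : ∀ a, closedBall (V.c a) (V.ρ a) ⊆ (V.e a).target := fun a =>
    (closedBall_subset_closedBall (by linarith [V.pos a])).trans (V.sub a)
  let K : Fin V.r → Set M.X := fun a => (V.e a).symm '' closedBall (V.c a) (V.ρ a)
  have hKc : ∀ a, IsCompact (K a) := fun a =>
    (isCompact_closedBall _ _).image_of_continuousOn ((V.e a).continuousOn_symm.mono (hB a))
  have hKs : ∀ a, K a ⊆ (V.e a).source := fun a => by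
    rintro _ ⟨w, hw, rfl⟩
    exact (V.e a).map_target (hB a hw)
  have lip : ∀ a, ∃ L : ℝ, 0 ≤ L ∧ ∀ z ∈ closedBall (V.c a) (V.ρ a), ∀ A : Mat n,
      ‖(A * ((h (V.e a) z)⁻¹ * M.ric h (V.e a) z)).trace‖ ≤ L * ∑ p, ∑ q, ‖A p q‖ := fun a => by
    obtain ⟨r, b⟩ := ent_bd hR (V.mem a) (isCompact_closedBall _ _) (hB a)
    exact ⟨max r 0, le_max_right _ _, fun z hz A =>
      tr_lip A _ fun p q => le_max_of_le_left (b z hz p q)⟩
  choose L hL0 lip using lip
  have lim : Tendsto (fun i => ∑ a, D * C * L a * ∑ p, ∑ q, ∫ x in K a,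
      ‖(M.qE (g i) h (ε i) (V.e a) (V.e a x) - Q (V.e a) (V.e a x)) p q‖ ∂M.mu h) l (𝓝 0) := by
    have := tendsto_finsetSum Finset.univ fun a _ => (tendsto_finsetSum Finset.univ
      fun i _ => tendsto_finsetSum Finset.univ fun j _ =>
        hL _ (V.mem a) _ (hKc a) (hKs a) i j).const_mul (D * C * L a)
    simpa only [Finset.sum_const_zero, mul_zero] using this
  have lim2 := lim.add ((hs.e0.mono_left hl).mul_const (D' * C))
  rw [zero_mul, add_zero] at lim2
  refine (lim2.eventually (eventually_le_nhds hδ)).mono fun i hi => le_trans ?_ hi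
  have gm := (hs.kae i).toMet
  obtain ⟨-, gfin, -, v0, gint, -⟩ := mMU n M _ gm
  have pen := end_qE gm hh (ε i)
  obtain ⟨t1, t2, -⟩ := (mINV n M _ gm).1 _ hρ
  have m1 := mul_le_mul_of_nonneg_left (mn_ric hK.toMet hh (hs.kae i) (hs.sm i) (hs.eps i).1
    (hs.eps i).2 (hs.cls i) hD'.le bD' (hs.sb i) hC) (hs.eps i).1.le
  have di : ∀ a p q, IntegrableOn (fun x =>
      ‖(M.qE (g i) h (ε i) (V.e a) (V.e a x) - Q (V.e a) (V.e a x)) p q‖) (K a) (M.mu h) :=
    fun a p q => by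
      refine ContinuousOn.integrableOn_compact (hKc a) fun x hx => ?_
      have hx' := (V.e a).map_source (hKs a hx)
      exact ((((pen.sm _ (V.mem a) _ hx').sub (hQ.sm _ (V.mem a) _ hx')) p q).continuousAt.comp
        ((V.e a).continuousAt (hKs a hx))).norm.continuousWithinAt
  let w : Fin V.r → M.X → ℝ := fun a x => D * C * L a * ∑ p, ∑ q,
    ‖(M.qE (g i) h (ε i) (V.e a) (V.e a x) - Q (V.e a) (V.e a x)) p q‖
  have gi : ∀ a, Integrable ((K a).indicator (w a)) (M.mu h) := fun a =>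
    (integrable_indicator_iff (hKc a).measurableSet).2 ((integrable_finsetSum _ fun i _ =>
      integrable_finsetSum _ fun j _ => di a i j).const_mul _)
  have g0 : ∀ a x, 0 ≤ (K a).indicator (w a) x := fun a =>
    indicator_nonneg fun x _ => mul_nonneg (mul_nonneg (mul_nonneg hD.le hC) (hL0 a)) (by positivity)
  have e1 : ε i * M.mn (g i) (M.tr (g i) (M.ric h)) - M.mn (g i) F = ∫ x, M.dq h (g i) x *
      (ε i * M.tr (g i) (M.ric h) x - F x) / M.vv (g i) ∂M.mu h := by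
    rw [integral_div, ← (hmu _ gm).2.1, integral_sub ((gint ℝ _ t2.continuous).const_mul _)
      (gint ℝ _ r2.continuous), integral_const_mul, sub_div, Mf.mn, Mf.mn, mul_div_assoc]
  have e2 : (∑ a, D * C * L a * ∑ p, ∑ q, ∫ x in K a,
      ‖(M.qE (g i) h (ε i) (V.e a) (V.e a x) - Q (V.e a) (V.e a x)) p q‖ ∂M.mu h) =
      ∫ x, ∑ a, (K a).indicator (w a) x ∂M.mu h := by
    rw [integral_finsetSum _ fun a _ => gi a]
    refine Finset.sum_congr rfl fun a _ => ?_
    rw [integral_indicator (hKc a).measurableSet, integral_const_mul,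
      integral_finsetSum _ fun i _ => integrable_finsetSum _ fun j _ => di a i j]
    exact congrArg _ (Finset.sum_congr rfl fun i _ =>
      (integral_finsetSum _ fun j _ => di a i j).symm)
  suffices s : ‖ε i * M.mn (g i) (M.tr (g i) (M.ric h)) - M.mn (g i) F‖ ≤ ∑ a, D * C * L a *
      ∑ p, ∑ q, ∫ x in K a,
        ‖(M.qE (g i) h (ε i) (V.e a) (V.e a x) - Q (V.e a) (V.e a x)) p q‖ ∂M.mu h by
    have := (abs_le.1 s).1
    linarith
  rw [e1, e2]
  refine norm_integral_le_of_norm_le (integrable_finsetSum _ fun a _ => gi a)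
    (ae_of_all _ fun x => ?_)
  obtain ⟨a, hx, hb, -⟩ := V.cov x
  have hz := ball_subset_closedBall hb
  refine le_trans ?_ (Finset.single_le_sum (fun a _ => g0 a x) (Finset.mem_univ a))
  rw [indicator_of_mem (show x ∈ K a from ⟨_, hz, (V.e a).left_inv hx⟩)]
  have f2 : ‖ε i * M.tr (g i) (M.ric h) x - F x‖ ≤
      ‖((M.qE (g i) h (ε i) (V.e a) (V.e a x) - Q (V.e a) (V.e a x)) *
        ((h (V.e a) (V.e a x))⁻¹ * M.ric h (V.e a) (V.e a x))).trace‖ := by
    refine le_trans (le_of_eq ?_) (abs_re_le_norm _)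
    rw [t1.at (V.mem a) hx, r3.at (V.mem a) hx, Matrix.sub_mul, Matrix.trace_sub, sub_re, qE,
      Matrix.smul_mul, Matrix.trace_smul, smul_re, smul_eq_mul, Matrix.mul_assoc (g i _ _)⁻¹,
      Matrix.mul_nonsing_inv_cancel_left _ _ (AllOn.at hh.det_ne (V.mem a) hx).isUnit,
      Matrix.mul_assoc, Real.norm_eq_abs]
  have p0 := ((hI.2.2.2.2.2.2.2 _ gm).1 x).le
  have v1 : 0 < M.vv (g i) := v0
  have f3 : M.dq h (g i) x / M.vv (g i) ≤ D * C := by
    rw [div_le_iff₀ v1, (hI.2.2.2.2.2.2.2 H hK.toMet).2.2.1 _ gm.toForm x, mul_assoc]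
    exact mul_le_mul ((le_abs_self _).trans (bD x)) (hs.up i x)
      (((mINV n M H hK.toMet).2.2.2.2.2.2.2 _ gm).1 x).le hD.le
  rw [mul_div_right_comm, norm_mul, Real.norm_of_nonneg (div_nonneg p0 v1.le)]
  exact (mul_le_mul f3 (f2.trans (lip a _ hz _)) (norm_nonneg _) (mul_nonneg hD.le hC)).trans_eq
    (mul_assoc _ _ _).symm

end Pool.Agent.Lib.TB
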