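import Pool.Agent.Lib.TB.Blue
import Pool.Agent.Lib.HS68.Fun

/-! Project tb33: the Ricci form controls the torsion. -/

open scoped Classical Topology ContDiff ComplexOrder Matrix
open Set MeasureTheory Complex Metric Filter

noncomputable section

namespace Pool.Agent.Lib.TB

open Pool.Agent.Lib.SV (E)
open Pool.Agent.Lib.HS32 Pool.Agent.Lib.GH Pool.Agent.Lib.RB Pool.Agent.Lib.HS76

namespace T51

variable {n : ℕ}

/-- The scalar product of an antisymmetric family is symmetric in the first two metrics. -/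
theorem ip3_swap (ξ η h : Mat n) (t : Fin n → Mat n) (ht : ∀ k i j, t k i j = -t j i k) :
    ip3 ξ η h t t = ip3 η ξ h t t := by
  have e : ∀ k l a b, ((t l)ᴴ * h * t k) b a = ((t b)ᴴ * h * t a) l k := fun k l a b => by
    simp only [Matrix.mul_apply, Matrix.conjTranspose_apply, Finset.sum_mul]
    refine Finset.sum_congr rfl fun d _ => Finset.sum_congr rfl fun c _ => ?_
    rw [ht l c b, ht k d a, star_neg]
    ring
  have f : ∀ A B : Mat n, ip3 A B h t t =
      ∑ k, ∑ l, ∑ a, ∑ b, A k l * B a b * ((t l)ᴴ * h * t k) b a := fun A B => by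
    refine Finset.sum_congr rfl fun k _ => Finset.sum_congr rfl fun l _ => ?_
    rw [Matrix.mul_assoc, Matrix.mul_assoc, ← Matrix.mul_assoc (t l)ᴴ, Matrix.trace,
      Finset.mul_sum]
    refine Finset.sum_congr rfl fun a _ => ?_
    rw [Matrix.diag_apply, Matrix.mul_apply, Finset.mul_sum]
    exact Finset.sum_congr rfl fun b _ => (mul_assoc _ _ _).symm
  rw [f, f]
  calc ∑ k, ∑ l, ∑ a, ∑ b, ξ k l * η a b * ((t l)ᴴ * h * t k) b a
      = ∑ k, ∑ a, ∑ b, ∑ l, ξ k l * η a b * ((t l)ᴴ * h * t k) b a :=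
        Finset.sum_congr rfl fun k _ => Finset.sum_comm.trans
          (Finset.sum_congr rfl fun a _ => Finset.sum_comm)
    _ = ∑ a, ∑ b, ∑ k, ∑ l, ξ k l * η a b * ((t l)ᴴ * h * t k) b a :=
        Finset.sum_comm.trans (Finset.sum_congr rfl fun a _ => Finset.sum_comm)
    _ = _ := Finset.sum_congr rfl fun a _ => Finset.sum_congr rfl fun b _ =>
        Finset.sum_congr rfl fun k _ => Finset.sum_congr rfl fun l _ => by
          rw [e k l a b, mul_comm (ξ k l)]

theorem hs_eq (h : Mat n) (T : Fin n → Fin n → Mat n) (v : E n) :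
    ∑ k, ∑ l, v k * star (v l) * (star v ⬝ᵥ (h * T k l) *ᵥ v) =
      ∑ l, ∑ i, star (v l) * (star v ᵥ* h) i * ∑ k, ∑ j, v k * v j * T k l i j := by
  rw [Finset.sum_comm]
  refine Finset.sum_congr rfl fun l _ => ?_
  simp only [← Matrix.mulVec_mulVec, Matrix.dotProduct_mulVec (star v) h, Finset.mul_sum]
  simp only [dotProduct, Matrix.mulVec, Finset.mul_sum]
  rw [Finset.sum_comm]
  refine Finset.sum_congr rfl fun i _ => Finset.sum_congr rfl fun k _ =>
    Finset.sum_congr rfl fun j _ => ?_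
  ring

theorem hs_sym (h : Mat n) (S T : Fin n → Fin n → Mat n)
    (c : ∀ k l i j, 2 * S k l i j = T k l i j + T j l i k) (v : E n) :
    ∑ k, ∑ l, v k * star (v l) * (star v ⬝ᵥ (h * S k l) *ᵥ v) =
      ∑ k, ∑ l, v k * star (v l) * (star v ⬝ᵥ (h * T k l) *ᵥ v) := by
  rw [hs_eq, hs_eq]
  refine Finset.sum_congr rfl fun l _ => Finset.sum_congr rfl fun i _ => ?_
  refine congrArg _ (mul_left_cancel₀ (two_ne_zero (α := ℂ)) ?_)
  have a : ∑ k, ∑ j, v k * v j * T j l i k = ∑ k, ∑ j, v k * v j * T k l i j := by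
    rw [Finset.sum_comm]
    exact Finset.sum_congr rfl fun k _ => Finset.sum_congr rfl fun j _ => by ring
  rw [two_mul (∑ k, ∑ j, v k * v j * T k l i j)]
  nth_rewrite 2 [← a]
  simp only [Finset.mul_sum, ← Finset.sum_add_distrib]
  refine Finset.sum_congr rfl fun k _ => Finset.sum_congr rfl fun j _ => ?_
  linear_combination (v k * v j) * c k l i j

/-- The equality case. -/
theorem kill {ξ h : Mat n} (hp : h.PosDef) (hξ : ξ.PosSemidef) (t : Fin n → Mat n)
    (h0 : (ip3 h⁻¹ ξ h t t).re = 0) (k : Fin n) : t k * ξ = 0 := by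
  have hd : IsUnit h.det := hp.det_pos.ne'.isUnit
  have a := ip3_cs hp.inv.posSemidef hξ hp.posSemidef t fun l => star (h l k) • (h * t k * ξ)
  rw [h0, zero_mul, ip3_cyc] at a
  have b := norm_eq_zero.1 (pow_eq_zero_iff two_ne_zero |>.1 (le_antisymm a (sq_nonneg _)))
  have c : ∀ j, ∑ l, h⁻¹ j l * (h * t j * ξ * (star (h l k) • (h * t k * ξ))ᴴ).trace =
      (1 : Mat n) j k * (h * t j * ξ * (h * t k * ξ)ᴴ).trace := fun j => by
    rw [← Matrix.nonsing_inv_mul h hd, Matrix.mul_apply, Finset.sum_mul]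
    refine Finset.sum_congr rfl fun l _ => ?_
    rw [Matrix.conjTranspose_smul, star_star, Matrix.mul_smul, Matrix.trace_smul, smul_eq_mul]
    exact (mul_assoc _ _ _).symm
  simp only [c, Matrix.one_apply, ite_mul, one_mul, zero_mul, Finset.sum_ite_eq',
    Finset.mem_univ, if_true] at b
  have d := Matrix.trace_mul_conjTranspose_self_eq_zero_iff.1 b
  rw [← Matrix.nonsing_inv_mul_cancel_left h (t k * ξ) hd, ← Matrix.mul_assoc h, d,
    Matrix.mul_zero]

theorem tors_eq (h : E n → Mat n) (z a b : E n) :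
    tors h z a b = -∑ k, b k • (tm h k z *ᵥ a) := by
  ext i
  simp only [tors, asy, Pi.sub_apply, Pi.neg_apply, Finset.sum_apply, Pi.smul_apply,
    Matrix.mulVec, dotProduct, Matrix.sum_apply, Matrix.smul_apply, smul_eq_mul, tm,
    Matrix.of_apply, Finset.sum_mul, Finset.mul_sum]
  rw [Finset.sum_comm (f := fun j k => b k * gam h k z i j * a j), ← Finset.sum_sub_distrib,
    ← Finset.sum_neg_distrib]
  refine Finset.sum_congr rfl fun k _ => ?_
  rw [← Finset.sum_sub_distrib, ← Finset.sum_neg_distrib]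
  exact Finset.sum_congr rfl fun j _ => by ring

end T51

open T51 in
theorem st_TKE (hCA : St_TCA) (hAL : St_TAL) : St_TKE := by
  intro n M h Q hh hc hQ hP hC e he z hz
  have hp : (h e z).PosDef := hh.pos e he z hz
  have hd : IsUnit (h e z).det := hp.det_pos.ne'.isUnit
  have ca := hCA n (h e) (Q e) z (hh.sm e he z hz) (hQ.sm e he z hz)
    ((e.open_target.eventually_mem hz).mono fun w hw =>
      ⟨hh.pos e he w hw, hP e he w hw, (hC e he w hw).trc⟩)
  obtain ⟨psd, -, b0, b1⟩ := hC e he z hz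
  have p2 := (hP e he z hz).2
  have hr : ∀ l k, M.ric h e z l k = (th (h e) k l z).trace :=
    (HS68.met_loc hh he hz).ric_apply
  have hs : ∀ v, (rm (h e) z v v v v).re ≤ 0 := hc e he z hz
  generalize M.ric h e z = R at hr ⊢
  generalize h e = g at *
  generalize Q e = P at *
  have hξ : (P z * (g z)⁻¹).PosSemidef := by
    have := conj_inv_psd hp psd
    rwa [Matrix.nonsing_inv_mul_cancel_left _ _ hd] at this
  have hq : P z * (g z)⁻¹ * g z = P z := Matrix.nonsing_inv_mul_cancel_right _ _ hd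
  have ht : ∀ k i j, tm g k z i j = -tm g j z i k := fun k i j => by
    simp only [tm, Matrix.of_apply, neg_sub]
  have ct : ∀ y : Mat n,
      4 * (∑ k, ∑ l, y k l * (ths g k l z * (P z * (g z)⁻¹ * g z)).trace).re =
        4 * rx g y (P z * (g z)⁻¹) z - tq g y (P z * (g z)⁻¹) z := fun y => by
    have : 4 * ∑ k, ∑ l, y k l * (ths g k l z * (P z * (g z)⁻¹ * g z)).trace =
        4 * ∑ k, ∑ l, y k l * (P z * (g z)⁻¹ * g z * th g k l z).trace -
          ip3 y (P z * (g z)⁻¹) (g z) (fun k => tm g k z) fun k => tm g k z := by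
      simp only [ip3, Finset.mul_sum, ← Finset.sum_sub_distrib]
      refine Finset.sum_congr rfl fun k _ => Finset.sum_congr rfl fun l _ => ?_
      rw [hq, Matrix.trace_mul_comm (P z) (th g k l z)]
      linear_combination y k l * (ca k l).2.2
    have := congrArg re this
    simpa only [sub_re, mul_re, re_ofNat, im_ofNat, zero_mul, sub_zero, rx, tq] using this
  have t0 : 0 ≤ tq g (P z * (g z)⁻¹) (P z * (g z)⁻¹) z := ip3_nonneg hξ hξ hp.posSemidef _
  have t1 : 0 ≤ tq g (g z)⁻¹ (P z * (g z)⁻¹) z :=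
    ip3_nonneg hp.inv.posSemidef hξ hp.posSemidef _
  have t2 : tq g (P z * (g z)⁻¹) (g z)⁻¹ z = tq g (g z)⁻¹ (P z * (g z)⁻¹) z :=
    congrArg re (ip3_swap _ _ _ _ ht)
  have al := hAL n (g z) (P z * (g z)⁻¹) (fun k l => ths g k l z) hp hξ
    (fun k l i j => mul_left_cancel₀ (two_ne_zero (α := ℂ))
      (by rw [(ca k l).1, (ca j l).1, add_comm]))
    (fun v => by
      rw [hs_sym (g z) (fun k l => ths g k l z) (fun k l => th g k l z) (fun k l => (ca k l).1)]
      exact hs v)
    (fun k l => (ca k l).2.1) (by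
      have := ct (P z * (g z)⁻¹)
      rw [bx] at b0
      linarith)
  have r1 : (P z * (g z)⁻¹ * R).trace.re = rx g (P z * (g z)⁻¹) (g z)⁻¹ z := by
    rw [rx, Matrix.nonsing_inv_mul _ hd]
    simp only [Matrix.one_mul, ← hr]
    rfl
  have r2 := ct (g z)⁻¹
  rw [bx] at b0 b1
  refine ⟨?_, by linarith, fun h0 => ?_⟩
  · have : (qx g (P z * (g z)⁻¹) z).re = -rx g (P z * (g z)⁻¹) (P z * (g z)⁻¹) z := neg_re _
    linarith
  · have k0 := kill hp hξ (fun k => tm g k z)
      (show tq g (g z)⁻¹ (P z * (g z)⁻¹) z = 0 by linarith)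
    refine ⟨fun l => ?_, fun a b => ?_⟩
    · have := congrArg Matrix.conjTranspose (k0 l)
      rw [Matrix.conjTranspose_mul, hξ.1.eq, Matrix.conjTranspose_zero] at this
      rw [p2 l, ← Matrix.mul_assoc, ← Matrix.mul_assoc, this, Matrix.zero_mul, smul_zero]
    · rw [tors_eq, neg_eq_zero]
      refine Finset.sum_eq_zero fun k _ => ?_
      rw [Matrix.mulVec_mulVec, ← hq, ← Matrix.mul_assoc, k0 k, Matrix.zero_mul,
        Matrix.zero_mulVec, smul_zero]

end Pool.Agent.Lib.TB
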