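import Pool.Agent.Lib.TB.Blue

/-! Project tb33: the algebraic lemma. -/

open scoped Classical ComplexOrder Matrix
open Finset

noncomputable section

namespace Pool.Agent.Lib.TB

open Pool.Agent.Lib.SV (E)
open Pool.Agent.Lib.HS32 Pool.Agent.Lib.HS76

namespace T94

/-- The abstract form of the lemma, in a frame. -/
theorem frame {V : Type*} [AddCommGroup V] [Module ℂ V] {g : V → V → V → V → ℂ} (hg : K4 g)
    (hH : ∀ v, (g v v v v).re ≤ 0) {ι : Type*} [Fintype ι] (e : ι → V) (lam : ι → ℝ)
    (hl : ∀ i, 0 ≤ lam i) (F : ι → ι → ℝ)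
    (hF : ∀ a i, 2 * (g (e a) (e a) (e i) (e i)).re = F a i + F i a)
    (hA : ∀ a i, lam i * F i a = lam a * F a i)
    (h0 : 0 ≤ ∑ a, ∑ i, lam a * lam i * F a i) : ∑ a, ∑ i, lam i * F a i ≤ 0 := by
  have sc : ∀ (s t : ℝ) (v w : V), (g ((s : ℂ) • v) ((s : ℂ) • v) ((t : ℂ) • w) ((t : ℂ) • w)).re =
      s ^ 2 * t ^ 2 * (g v v w w).re := by
    intro s t v w
    rw [hg.smul1, hg.smul2, hg.smul3, hg.smul4]
    simp only [Complex.star_def, Complex.conj_ofReal, Complex.re_ofReal_mul]
    ring
  have r := hg.royden hH fun i => ((Real.sqrt (lam i) : ℝ) : ℂ) • e i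
  simp only [Complex.re_sum, sc, Real.sq_sqrt (hl _)] at r
  have e1 : 2 * ∑ a, ∑ i, lam a * lam i * (g (e a) (e a) (e i) (e i)).re =
      2 * ∑ a, ∑ i, lam a * lam i * F a i := by
    have : ∑ a, ∑ i, lam a * lam i * F i a = ∑ a, ∑ i, lam a * lam i * F a i := by
      rw [sum_comm]
      exact sum_congr rfl fun a _ => sum_congr rfl fun i _ => by ring
    rw [two_mul (∑ a, ∑ i, lam a * lam i * F a i)]
    nth_rewrite 2 [← this]
    rw [mul_sum, ← sum_add_distrib]
    refine sum_congr rfl fun a _ => ?_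
    rw [mul_sum, ← sum_add_distrib]
    exact sum_congr rfl fun i _ => by linear_combination lam a * lam i * hF a i
  have z : ∀ i, lam i * lam i * (g (e i) (e i) (e i) (e i)).re = 0 := by
    have hn : ∀ i ∈ (univ : Finset ι), lam i * lam i * (g (e i) (e i) (e i) (e i)).re ≤ 0 :=
      fun i _ => mul_nonpos_of_nonneg_of_nonpos (mul_self_nonneg _) (hH _)
    have := (sum_eq_zero_iff_of_nonpos hn).mp (le_antisymm (sum_nonpos hn) (by linarith))
    exact fun i => this i (mem_univ i)
  refine sum_nonpos fun a _ => sum_nonpos fun i _ => ?_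
  rcases (hl i).eq_or_lt with h1 | h1
  · rw [← h1, zero_mul]
  have z1 : (g (e i) (e i) (e i) (e i)).re = 0 :=
    (mul_eq_zero.mp (z i)).resolve_left (mul_pos h1 h1).ne'
  have k : ∀ t : ℝ, 4 * (t ^ 2 * (g (e i) (e i) (e a) (e a)).re) +
      t ^ 2 * t ^ 2 * (g (e a) (e a) (e a) (e a)).re ≤ 0 := by
    intro t
    have a4 := congrArg Complex.re (hg.avg4 (e i) ((t : ℂ) • e a))
    have s1 := sc 1 t (e i) (e a)
    have s2 := sc t t (e a) (e a)
    simp only [Complex.ofReal_one, one_smul] at s1
    have b1 := hH (e i + (1 : ℂ) • (t : ℂ) • e a)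
    have b2 := hH (e i + (-1 : ℂ) • (t : ℂ) • e a)
    have b3 := hH (e i + Complex.I • (t : ℂ) • e a)
    have b4 := hH (e i + (-Complex.I) • (t : ℂ) • e a)
    have c4 : ∀ w : ℂ, (4 * w).re = 4 * w.re := fun w => by simp
    simp only [Complex.add_re, c4] at a4
    rw [s1, s2, z1] at a4
    linarith
  have k2 : (g (e i) (e i) (e a) (e a)).re ≤ 0 := by
    by_contra hp
    have hp := not_le.mp hp
    set p := (g (e i) (e i) (e a) (e a)).re
    set q := (g (e a) (e a) (e a) (e a)).re
    have hq : q ≤ 0 := hH _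
    have hd : 0 < 1 - q := by linarith
    have hs : Real.sqrt (p / (1 - q)) ^ 2 = p / (1 - q) := Real.sq_sqrt (by positivity)
    have := k (Real.sqrt (p / (1 - q)))
    rw [hs] at this
    set s := p / (1 - q) with hs'
    have s0 : 0 < s := by positivity
    have s1 : s * (1 - q) = p := by rw [hs']; field_simp
    have : s * (4 * p + s * q) ≤ 0 := by linarith
    have := nonpos_of_mul_nonpos_right this s0
    nlinarith
  have k3 := hF i a
  have k4 := hA a i
  have k5 : (lam a + lam i) * F a i ≤ 0 := by nlinarith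
  have k6 : F a i ≤ 0 := nonpos_of_mul_nonpos_right k5 (by linarith [hl a])
  exact mul_nonpos_of_nonneg_of_nonpos h1.le k6

variable {n : Type*} [Fintype n] {R : n → n → n → n → ℂ}

theorem q4_s13 (h13 : ∀ k l i j, R k l i j = R i l k j) (x y v w : n → ℂ) :
    q4 R x y v w = q4 R v y x w := by
  unfold q4
  rw [sum_comm]
  conv_rhs => rw [sum_comm]
  refine sum_congr rfl fun l _ => ?_
  rw [sum_comm]
  refine sum_congr rfl fun k _ => sum_congr rfl fun i _ => sum_congr rfl fun j _ => ?_
  rw [h13 i l k j]; ring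

theorem q4_sym (R : n → n → n → n → ℂ) (x y v w : n → ℂ) :
    2 * q4 (fun k l i j => (R k l i j + R k j i l) / 2) x y v w = q4 R x y v w + q4 R x w v y := by
  have : q4 R x w v y = ∑ k, ∑ l, ∑ i, ∑ j, x k * star (y l) * v i * star (w j) * R k j i l := by
    unfold q4
    refine sum_congr rfl fun k _ => ?_
    rw [sum_comm]
    conv_rhs => rw [sum_comm]
    refine sum_congr rfl fun i _ => ?_
    rw [sum_comm]
    exact sum_congr rfl fun j _ => sum_congr rfl fun l _ => by ring
  rw [this]
  simp only [q4, mul_sum, ← sum_add_distrib]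
  exact sum_congr rfl fun k _ => sum_congr rfl fun l _ => sum_congr rfl fun i _ =>
    sum_congr rfl fun j _ => by ring

theorem q4_sc (R : n → n → n → n → ℂ) (s t : ℝ) (x y v w : n → ℂ) :
    q4 R ((s : ℂ) • x) ((s : ℂ) • y) ((t : ℂ) • v) ((t : ℂ) • w) =
      ((s ^ 2 * t ^ 2 : ℝ) : ℂ) * q4 R x y v w := by
  simp only [q4, mul_sum, Pi.smul_apply, smul_eq_mul, star_mul', Complex.star_def,
    Complex.conj_ofReal]
  exact sum_congr rfl fun k _ => sum_congr rfl fun l _ => sum_congr rfl fun i _ =>
    sum_congr rfl fun j _ => by push_cast; ring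

end T94

open T94 in
theorem st_TAL : St_TAL := by
  intro n h ξ T hh hξ hs hH hA h0
  have hB : (h * ξ * h).PosSemidef := by
    have := hξ.conjTranspose_mul_mul_same h
    rwa [hh.1.eq] at this
  obtain ⟨W, lam, h1, h2⟩ := simul_diag hh hB.1
  have h3 : W * (Wᴴ * h) = 1 := mul_eq_one_comm.mp h1
  have h4 : h * (W * Wᴴ) = 1 := by
    rw [mul_eq_one_comm, Matrix.mul_assoc, h3]
  have hinv : h⁻¹ = W * Wᴴ := Matrix.inv_eq_right_inv h4
  have hQ : ξ * h * W = W * Matrix.diagonal fun i => (lam i : ℂ) := by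
    rw [← h2]
    simp only [← Matrix.mul_assoc] at h3 ⊢
    rw [h3, Matrix.one_mul]
  have hx : ξ = W * (Matrix.diagonal fun i => (lam i : ℂ)) * Wᴴ := by
    rw [← hQ, Matrix.mul_assoc, Matrix.mul_assoc, h4, Matrix.mul_one]
  have hl : ∀ i, 0 ≤ lam i := fun i => by
    have := (hB.conjTranspose_mul_mul_same W).diag_nonneg (i := i)
    rw [h2, Matrix.diagonal_apply_eq] at this
    exact_mod_cast this
  set e : Fin n → Fin n → ℂ := fun a k => W k a with he
  set R : Fin n → Fin n → Fin n → Fin n → ℂ := fun k l i j => (h * T k l) j i with hR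
  have r13 : ∀ k l i j, R k l i j = R i l k j := fun k l i j => by
    simp only [hR, Matrix.mul_apply]
    exact sum_congr rfl fun m _ => by rw [hs k l m i]
  have w1 : ∀ k l, h⁻¹ k l = ∑ a, e a k * star (e a l) := fun k l => by
    rw [hinv, Matrix.mul_apply]; rfl
  have w2 : ∀ k l, ξ k l = ∑ a, (((Real.sqrt (lam a) : ℝ) : ℂ) • e a) k *
      star ((((Real.sqrt (lam a) : ℝ) : ℂ) • e a) l) := fun k l => by
    rw [hx, Matrix.mul_apply]
    refine sum_congr rfl fun a _ => ?_
    have : (lam a : ℂ) = ((Real.sqrt (lam a) : ℝ) : ℂ) * ((Real.sqrt (lam a) : ℝ) : ℂ) := by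
      rw [← Complex.ofReal_mul, Real.mul_self_sqrt (hl a)]
    simp only [Matrix.mul_diagonal, Matrix.conjTranspose_apply, Pi.smul_apply, smul_eq_mul,
      star_mul', Complex.star_def, Complex.conj_ofReal, he]
    linear_combination W k a * (starRingEnd ℂ) (W l a) * this
  have tq : ∀ A : Mat n, ∑ k, ∑ l, A k l * (T k l * (ξ * h)).trace = q2 R A ξ := fun A => by
    rw [hR, q2_fam (fun k l => h * T k l)]
    refine sum_congr rfl fun k _ => sum_congr rfl fun l _ => ?_
    rw [Matrix.trace_mul_comm, Matrix.mul_assoc]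
  have c2 : ∀ w : ℂ, (2 * w).re = 2 * w.re := fun w => by simp
  have key := frame (g := q4 fun k l i j => (R k l i j + R k j i l) / 2)
    (k4_q4 (fun k l i j => by rw [r13 k l i j, r13 k j i l]) fun k l i j => by rw [add_comm])
    (fun v => by
      have := congrArg Complex.re (q4_sym R v v v v)
      have h5 := hH v
      rw [← q4_fam (fun k l => h * T k l)] at h5
      rw [c2, Complex.add_re] at this
      linarith) e lam hl (fun a i => (q4 R (e a) (e a) (e i) (e i)).re)
    (fun a i => by rw [← c2, q4_sym, Complex.add_re, q4_s13 r13 (e a) (e i) (e i) (e a)])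
    (fun a i => by
      have ev : ∀ i, (ξ * h) *ᵥ e i = (lam i : ℂ) • e i := fun i => by
        ext k
        have := congrFun (congrFun hQ k) i
        rw [Matrix.mul_diagonal, Matrix.mul_apply] at this
        simpa [Matrix.mulVec, dotProduct, he, mul_comm] using this
      have f1 : ∀ x y v w, q4 R x y ((ξ * h) *ᵥ v) w = star (q4 R y x ((ξ * h) *ᵥ w) v) := by
        intro x y v w
        rw [hR, q4_fam (fun k l => h * T k l), q4_fam (fun k l => h * T k l), star_sum, sum_comm]
        refine sum_congr rfl fun l _ => ?_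
        rw [star_sum]
        refine sum_congr rfl fun k _ => ?_
        have m : (h * T l k * (ξ * h))ᴴ = h * T k l * (ξ * h) := by
          rw [Matrix.mul_assoc h (T k l), ← Matrix.mul_assoc (T k l), hA k l]
          simp only [Matrix.conjTranspose_mul, hh.1.eq, hξ.1.eq, Matrix.mul_assoc]
        rw [Matrix.mulVec_mulVec, Matrix.mulVec_mulVec, ← m, star_mul', star_mul', star_star,
          ← Matrix.star_dotProduct_star, star_star, Matrix.star_mulVec, ← Matrix.dotProduct_mulVec,
          mul_comm (x k)]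
      have f2 : ∀ (c : ℂ) x y v w, q4 R x y (c • v) w = c * q4 R x y v w := fun c x y v w => by
        simp only [q4, mul_sum, Pi.smul_apply, smul_eq_mul]
        exact sum_congr rfl fun k _ => sum_congr rfl fun l _ => sum_congr rfl fun i _ =>
          sum_congr rfl fun j _ => by ring
      have := congrArg Complex.re (f1 (e a) (e i) (e i) (e a))
      rw [ev, ev, f2, f2, q4_s13 r13 (e a), q4_s13 r13 (e i) (e a)] at this
      simpa using this)
    (by
      rw [tq, q2_eq_sum R _ _ w2 w2] at h0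
      simpa only [q4_sc, Complex.re_sum, Complex.re_ofReal_mul, Real.sq_sqrt (hl _)] using h0)
  rw [tq, q2_eq_sum R _ _ w1 w2]
  have := fun a i => q4_sc R 1 (Real.sqrt (lam i)) (e a) (e a) (e i) (e i)
  simp only [Complex.ofReal_one, one_smul, one_pow, one_mul, Real.sq_sqrt (hl _)] at this
  simpa only [this, Complex.re_sum, Complex.re_ofReal_mul] using key

end Pool.Agent.Lib.TB
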