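import Pool.Agent.Lib.TB.Blue
import Pool.Agent.Lib.RB.B_RB1

/-! Project tb33: the twisted class has positive volume. -/

open scoped Classical Topology ContDiff ComplexOrder Matrix
open Set MeasureTheory Complex Metric Filter

noncomputable section

namespace Pool.Agent.Lib.TB

open Pool.Agent.Lib.SV (E)
open Pool.Agent.Lib.HS32 Pool.Agent.Lib.HS32.Mf Pool.Agent.Lib.RB

open RB.R85 in
theorem st_TB1 (hMN : St_TMN) (hCT : St_RCT) (hPA : St_RPA) : St_TB1 := by
  intro n M _ H h Q P k k' C a b g ε φ f l _ hH hh hs hl hQ hL hP hk hB hη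
  have tP : M.Ten (H * P) := (mINV n M H hH.toMet).2.2.2.2.2.1 P hP.en
  have cF := hCT n M H (h * P) (-M.ric h) (H * P) (H - H * P) hH.toMet hB.toTen
    ((mHES n M).2.2.2.2.2.2.2.2.1 h hh).neg.toTen tP (hH.toTen.sub tP)
  set F : ℝ × ℝ × ℝ → ℝ := fun c => ∫ x, M.dq H (h * P + c.1 • -M.ric h + c.2.1 • (H * P) +
    c.2.2 • (H - H * P)) x ∂M.mu H with hF
  have C0 : 0 < C := one_pos.trans_le hs.one
  have a0 := hP.a0
  have key : ∀ s : ℝ, 0 < s → a ^ k' / C ≤ F (2, s⁻¹, 0) := fun s s0 => by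
    obtain ⟨c, hc⟩ := (hPA n M h Q hh hQ).2.2 s
    have c1 := low hh hP s0 hc
    have t1 := hMN n M H h Q P k C g ε φ f l s c hH hh hs hQ.en hP.en hL fun e he z hz => by
      beta_reduce
      rw [(hP.pq e he z hz).2.1]
      exact hc e he z hz
    have e0 := hs.e0.mono_left hl
    have t2 : Tendsto (fun i => s ^ k' * F (2 - 2 * ε i, s⁻¹, ε i)) l
        (𝓝 (s ^ k' * F (2 - 2 * 0, s⁻¹, 0))) :=
      ((cF.tendsto _).comp (((e0.const_mul 2).const_sub 2).prodMk_nhds
        (tendsto_const_nhds.prodMk_nhds e0))).const_mul _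
    have c2 := le_of_tendsto_of_tendsto (t1.div_const C) t2 (by
      filter_upwards [t1.eventually (lt_mem_nhds (lt_of_lt_of_le (by positivity) c1))] with i hi
      have ε0 := (hs.eps i).1
      have ε1 := (hs.eps i).2
      have v0 : 0 < M.vv (g i) := (mMU n M _ (hs.kae i).toMet).2.2.2.1
      have t0 : 0 < s * ε i := by positivity
      have q := dq_mul (H := H) (T := ε i • H + (s * ε i) • (h * P) + (2 - 2 * ε i) • -M.ric h)
        (T' := h * P + (2 - 2 * ε i) • -M.ric h + s⁻¹ • (H * P) + ε i • (H - H * P)) hP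
        ((s * ε i)⁻¹ - 1) fun e he z hz => by
          simp only [Pi.add_apply, Pi.sub_apply, Pi.smul_apply, Pi.neg_apply, Pi.mul_apply,
            mul_add, add_mul, mul_one, Matrix.mul_smul, Matrix.smul_mul, neg_mul, Matrix.mul_assoc,
            hP.idem e he z hz, hη e he z hz]
          match_scalars <;> field_simp <;> ring
      rw [← coh hH hh (hs.kae i) (hB.smul _) (hs.sm i) (hs.cls i), add_sub_cancel] at q
      rw [mn] at hi ⊢
      change _ ≤ s ^ k' * ∫ x, _ ∂_
      rw [q, ← mul_assoc, ← mul_pow, mul_inv, mul_inv_cancel_left₀ s0.ne', div_div, div_eq_inv_mul]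
      refine mul_le_mul_of_nonneg_right ?_ ((div_pos_iff_of_pos_right v0).1 hi).le
      rw [inv_pow, mul_comm]
      exact inv_anti₀ (by positivity)
        ((pow_le_pow_of_le_one ε0.le (by linarith) hk).trans (hs.vol i)))
    rw [mul_zero, sub_zero] at c2
    refine le_of_mul_le_mul_left (le_trans ?_ c2) (pow_pos s0 k')
    rw [← mul_div_assoc, ← mul_pow, mul_comm s]
    exact div_le_div_of_nonneg_right c1 C0.le
  have t3 : Tendsto (fun s : ℝ => F (2, s⁻¹, 0)) atTop (𝓝 (F (2, 0, 0))) :=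
    (cF.tendsto _).comp (tendsto_const_nhds.prodMk_nhds
      (tendsto_inv_atTop_zero.prodMk_nhds tendsto_const_nhds))
  have c3 := ge_of_tendsto t3 ((eventually_gt_atTop 0).mono key)
  have q := dq_mul (H := H) (T := h * P + (2 : ℝ) • -M.ric h + (0 : ℝ) • (H * P) +
    (0 : ℝ) • (H - H * P)) (T' := (2 : ℝ) • (h * P - M.ric h)) hP 1 fun e he z hz => by
      simp only [Pi.add_apply, Pi.sub_apply, Pi.smul_apply, Pi.neg_apply, Pi.mul_apply,
        mul_add, add_mul, mul_one, Matrix.mul_smul, Matrix.smul_mul, neg_mul, Matrix.mul_assoc,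
        hP.idem e he z hz, hη e he z hz]
      module
  simp only [dq_smul, integral_const_mul] at q
  have c4 : 0 < F (2, 0, 0) := lt_of_lt_of_le (by positivity) c3
  exact pos_of_mul_pos_right (q ▸ mul_pos (by positivity) c4) (by positivity)

end Pool.Agent.Lib.TB
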