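import Pool.Agent.Lib.TB.Blue
import Pool.Agent.Lib.RB.B_RBR
import Pool.Agent.Lib.RB.B_RTB

/-! Project tb33: from the statement to the manifold layer and back. -/

open scoped Classical Topology ContDiff ComplexOrder Matrix Manifold
open Set Complex Filter

noncomputable section

namespace Pool.Agent.Lib.TB

open Pool.Agent.Lib.SV (E Pluri jacAt)
open Pool.Agent.Lib.HS32 Pool.Agent.Lib.GH Pool.Agent.Lib.HS.BBR Pool.Agent.Lib.RB
open Pool.Agent.Lib.RB.R32

namespace T12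

variable {n : ℕ}

theorem tor_gam (T : E n → Mat n) (z a v : E n) :
    tor T z a v = (∑ k, a k • gam T k z) *ᵥ v - (∑ k, v k • gam T k z) *ᵥ a := by
  have e : ∀ u : E n, (T z)⁻¹ * HS.del u T z = ∑ k, u k • gam T k z := fun u => by
    rw [del_eq, Matrix.mul_sum]
    simp only [Matrix.mul_smul, gam]
  rw [tor, Matrix.mulVec_sub, Matrix.mulVec_mulVec, Matrix.mulVec_mulVec, e, e]

theorem swap_sum (A : Fin n → Mat n) (a v : E n) (i : Fin n) :
    ((∑ k, v k • A k) *ᵥ a) i = ∑ j, (∑ k, a k * A j i k) * v j := by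
  simp only [Matrix.mulVec, dotProduct, Matrix.sum_apply, Matrix.smul_apply, smul_eq_mul,
    Finset.sum_mul]
  exact Finset.sum_comm.trans (Finset.sum_congr rfl fun j _ => Finset.sum_congr rfl
    fun k _ => by ring)

theorem tm_tor (T : E n → Mat n) (z a v : E n) :
    (∑ k, a k • tm T k z) *ᵥ v = tor T z a v := by
  rw [tor_gam]
  ext i
  rw [Pi.sub_apply, swap_sum _ a v]
  simp only [Matrix.mulVec, dotProduct, Matrix.sum_apply, Matrix.smul_apply, smul_eq_mul, tm,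
    Matrix.of_apply, mul_sub, Finset.sum_sub_distrib, sub_mul]

theorem clm_swap {J : E n → Mat n} {z : E n} (hJ : ClM J z) (a v : E n) :
    (∑ k, a k • dM k J z) *ᵥ v = (∑ k, v k • dM k J z) *ᵥ a := by
  ext i
  rw [swap_sum _ a v]
  simp only [Matrix.mulVec, dotProduct, Matrix.sum_apply, Matrix.smul_apply, smul_eq_mul]
  exact Finset.sum_congr rfl fun j _ => congrArg (· * v j)
    (Finset.sum_congr rfl fun k _ => by rw [hJ i j k])

/-- The torsion is a tensor. -/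
theorem tor_pb {T T' J : E n → Mat n} {z y : E n} (hJ : ClM J z) (h0 : (J z).det ≠ 0)
    (hg : ∀ k, gam T' k z = (J z)⁻¹ * (∑ a, J z a k • gam T a y) * J z + (J z)⁻¹ * dM k J z)
    (a v : E n) : J z *ᵥ tor T' z a v = tor T y (J z *ᵥ a) (J z *ᵥ v) := by
  have e : ∀ u : E n, J z * ∑ k, u k • gam T' k z =
      (∑ b, (J z *ᵥ u) b • gam T b y) * J z + ∑ k, u k • dM k J z := fun u => by
    have e1 : ∑ b, (J z *ᵥ u) b • gam T b y = ∑ k, u k • ∑ a, J z a k • gam T a y := by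
      simp only [Matrix.mulVec, dotProduct, Finset.sum_smul, Finset.smul_sum, smul_smul]
      exact Finset.sum_comm.trans (Finset.sum_congr rfl fun k _ => Finset.sum_congr rfl
        fun b _ => by rw [mul_comm])
    rw [e1, Matrix.mul_sum, Matrix.sum_mul, ← Finset.sum_add_distrib]
    refine Finset.sum_congr rfl fun k _ => ?_
    rw [hg, Matrix.mul_smul, Matrix.mul_add, Matrix.mul_assoc,
      Matrix.mul_nonsing_inv_cancel_left _ _ h0.isUnit,
      Matrix.mul_nonsing_inv_cancel_left _ _ h0.isUnit, smul_add, Matrix.smul_mul]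
  rw [tor_gam, tor_gam, Matrix.mulVec_sub, Matrix.mulVec_mulVec, Matrix.mulVec_mulVec, e, e,
    Matrix.add_mulVec, Matrix.add_mulVec, clm_swap hJ a v, Matrix.mulVec_mulVec,
    Matrix.mulVec_mulVec]
  abel

theorem tq_eq {T : E n → Mat n} {z : E n} {ξ : Mat n} {w : Fin n → E n} {a : Fin n → ℝ}
    (h : ∀ k l, ξ k l = ∑ i, a i * (w i k * star (w i l))) :
    tq T ξ ξ z = ∑ i, ∑ j, a i * a j *
      (star (tor T z (w i) (w j)) ⬝ᵥ T z *ᵥ tor T z (w i) (w j)).re := by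
  have e : ξ = ∑ i, (a i : ℂ) • Matrix.vecMulVec (w i) (star (w i)) := by
    ext k l
    simp only [h, Matrix.sum_apply, Matrix.smul_apply, Matrix.vecMulVec_apply, smul_eq_mul,
      Pi.star_apply]
  have e2 : HS76.ip3 ξ ξ (T z) (fun k => tm T k z) (fun k => tm T k z) =
      ∑ i, ∑ j, ((a i * a j : ℝ) : ℂ) *
        (star (tor T z (w i) (w j)) ⬝ᵥ T z *ᵥ tor T z (w i) (w j)) := by
    simp only [← tm_tor, ← R68.ip3_rk (T z) (fun k => tm T k z)]
    rw [e]
    simp only [HS76.ip3, Matrix.sum_apply, Matrix.smul_apply, smul_eq_mul, Matrix.sum_mul,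
      Matrix.smul_mul, Matrix.trace_sum, Matrix.trace_smul, Finset.sum_mul, Finset.mul_sum,
      ofReal_mul]
    calc _ = ∑ k, ∑ l, ∑ p : Fin n × Fin n, (a p.1 : ℂ) * a p.2 *
          (Matrix.vecMulVec (w p.1) (star (w p.1)) k l *
            (Matrix.vecMulVec (w p.2) (star (w p.2)) * (tm T l z)ᴴ * T z * tm T k z).trace) := by
          simp only [Fintype.sum_prod_type]
          exact Finset.sum_congr rfl fun k _ => Finset.sum_congr rfl fun l _ =>
            Finset.sum_comm.trans (Finset.sum_congr rfl fun i _ => Finset.sum_congr rfl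
              fun j _ => by ring)
      _ = ∑ p : Fin n × Fin n, ∑ k, ∑ l, _ :=
          (Finset.sum_congr rfl fun _ _ => Finset.sum_comm).trans Finset.sum_comm
      _ = _ := Fintype.sum_prod_type _
  rw [tq, e2, re_sum]
  simp only [re_sum, re_ofReal_mul]

variable {X : Type} [TopologicalSpace X] [ChartedSpace (E n) X] [IsManifold 𝓘(ℂ, E n) ω X]

theorem fam_trb {h : X → Mat n} (hh : Hermitian h) (hr : TemperedNonpos h) :
    (mf n X).Trb (fam h) := by
  let M : Mf n := mf n X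
  let c : M.X → M.Ch := chartAt (M := X) (E n)
  have hc : ∀ x, c x ∈ M.C := fun x y => ⟨cp_chart (X := X) x y, cp_chart (X := X) y x⟩
  have hs : ∀ x, x ∈ (c x).source := mem_chart_source (M := X) (E n)
  obtain ⟨hch, hov, -⟩ := mTR n M
  have hM : M.Met (fam h) := (fam_ok hh).1
  intro e he z hz ξ hξ
  obtain ⟨h1, h2, -, h3, -⟩ := hov _ (hc (e.symm z)) e he _ (hs _) (e.map_target hz)
  rw [Mf.J] at h2
  rw [e.right_inv hz] at h1 h2 h3
  have h4 : SmM (fam h (c (e.symm z))) (c (e.symm z) (e.symm z)) := hh.smooth (e.symm z)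
  have h0 : (fam h (c (e.symm z)) (c (e.symm z) (e.symm z))).det ≠ 0 :=
    (hM.pos _ (hc _) _ ((c _).map_source (hs _))).det_pos.ne'
  obtain ⟨-, -, h7⟩ := mPB n (c (e.symm z) ∘ e.symm) z (fam h (c (e.symm z))) (fam h e) h1 h2
    h4 (by
      filter_upwards [h3] with w hw
      have h8 : fam h e (e (e.symm w)) = _ := hM.cmp _ (hc (e.symm z)) e he _ hw.2.1 hw.2.2.1
      rw [hw.2.2.2.2.2.1, hw.2.2.2.2.2.2] at h8
      exact h8)
  have k1 : ∀ a v, (rm (fam h e) z a a v v).re = curvAt h (e.symm z)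
      (jm (c (e.symm z) ∘ e.symm) z *ᵥ a) (jm (c (e.symm z) ∘ e.symm) z *ᵥ v) := fun a v => by
    rw [(h7 h0).2.2.1]
    exact congrArg Complex.re (rm_curv h4 h0 _ _)
  have k0 : ∀ a v, star a ⬝ᵥ fam h e z *ᵥ v = star (jm (c (e.symm z) ∘ e.symm) z *ᵥ a) ⬝ᵥ
      h (e.symm z) *ᵥ (jm (c (e.symm z) ∘ e.symm) z *ᵥ v) := fun a v => by
    rw [Matrix.star_mulVec, ← Matrix.dotProduct_mulVec, Matrix.mulVec_mulVec,
      Matrix.mulVec_mulVec]
    rfl
  have k2 : ∀ a v, (star (tor (fam h e) z a v) ⬝ᵥ fam h e z *ᵥ tor (fam h e) z a v).re =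
      torSq h (e.symm z) (jm (c (e.symm z) ∘ e.symm) z *ᵥ a)
        (jm (c (e.symm z) ∘ e.symm) z *ᵥ v) := fun a v => by
    rw [k0, tor_pb (mCHN n _ _ h1).2.2.1 h2 (h7 h0).1]
    rfl
  obtain ⟨w, a, p1, p2, p3⟩ := frame (hM.pos e he z hz) hξ
  have q := hr _ (fun i => jm (c (e.symm z) ∘ e.symm) z *ᵥ w i) a
    (fun i j => by rw [← p1 i j, k0]) p2
  have r : rx (fam h e) ξ ξ z = -(qx (fam h e) ξ z).re := by rw [rx, qx, neg_re, neg_neg]
  rw [bx, r, qx_eq p3, tq_eq p3]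
  simp only [k1, k2]
  simp only [mul_sub, Finset.sum_sub_distrib, ← mul_div_assoc, ← Finset.sum_div] at q
  linarith

end T12

theorem st_TBR : St_TBR := by
  intro n X _ _ _ _ _ _ g h hg hh hr
  let M : Mf n := mf n X
  let c : M.X → M.Ch := chartAt (M := X) (E n)
  have hc : ∀ x, c x ∈ M.C := fun x y => ⟨cp_chart (X := X) x y, cp_chart (X := X) y x⟩
  have hs : ∀ x, x ∈ (c x).source := mem_chart_source (M := X) (E n)
  obtain ⟨hch, hov, -⟩ := mTR n M
  obtain ⟨g1, g2, -⟩ := fam_ok hg.toHermitian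
  refine ⟨M, ⟨‹_›, ‹_›, ‹_›⟩, fam g, fam h, ⟨⟨g1.toForm, g2 hg⟩, g1.pos⟩, (fam_ok hh).1,
    T12.fam_trb hh hr, ?_⟩
  rintro ⟨m, hm, hS⟩
  refine ⟨m, hm, fun x : M.X => ?_⟩
  obtain ⟨s, h1, h2⟩ := hS x
  refine ⟨fun y : M.X => s (c y) (c y y), fun y : M.X => ?_, fun h3 => h2 ?_⟩
  · refine (h1.hol _ (hc y) _ ((c y).map_source (hs y))).congr_of_eventuallyEq ?_
    filter_upwards [(c y).open_target.mem_nhds ((c y).map_source (hs y))] with w hw
    have h4 : s (c y) (c y ((c y).symm w)) = _ :=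
      h1.cmp _ (hc ((c y).symm w)) _ (hc y) _ (hs _) ((c y).map_target hw)
    have h5 := (hov _ (hc ((c y).symm w)) _ (hc y) _ (hs _) ((c y).map_target hw)).1
    rw [Mf.J] at h4
    rw [(c y).right_inv hw] at h4 h5
    rw [h4, ← (mCHN n _ _ h5).2.2.2.2.2.2.1]
    rfl
  · have h4 : M.ev s x = _ := h1.cmp _ (hc x) _ (hch x).1 x (hs x) (hch x).2
    have h5 : s (c x) (c x x) = 0 := h3
    rw [h4, h5, zero_mul]

end Pool.Agent.Lib.TB
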