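import Pool.Agent.Lib.TB.Blue
import Pool.Agent.Lib.RB.B_RCL
import Pool.Agent.Lib.RB.B_RTB

/-! Project tb33: the splitting of the gradient term in the identity of Chern and Lu. -/

open scoped Classical Topology ContDiff ComplexOrder Matrix
open Set Complex Filter Matrix

noncomputable section

namespace Pool.Agent.Lib.TB

open Pool.Agent.Lib.SV (E)
open Pool.Agent.Lib.HS32 Pool.Agent.Lib.HS76

namespace T47

variable {n : ℕ}

theorem ip3_five (C A H : Mat n) (T U : Fin n → Mat n) : ip3 C A H T U =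
    ∑ k, ∑ l, ∑ a, ∑ b, C k l * A a b * ∑ c, ∑ d, star (U l c b) * H c d * T k d a := by
  refine Finset.sum_congr rfl fun k _ => Finset.sum_congr rfl fun l _ => ?_
  rw [Matrix.mul_assoc, Matrix.mul_assoc, Matrix.trace, Finset.mul_sum]
  refine Finset.sum_congr rfl fun a _ => ?_
  simp only [diag_apply, Matrix.mul_apply, conjTranspose_apply, Finset.mul_sum, mul_assoc]

/-- Exchange of the two lower indices. -/
theorem ip3_swap (C A H : Mat n) {T U T' U' : Fin n → Mat n} {s t : ℂ}
    (hT : ∀ k i j, T' k i j = s * T j i k) (hU : ∀ k i j, U' k i j = t * U j i k) :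
    ip3 C A H T' U' = s * star t * ip3 A C H T U := by
  rw [ip3_five, ip3_five]
  have e : ∀ F : Fin n → Fin n → Fin n → Fin n → ℂ,
      ∑ k, ∑ l, ∑ a, ∑ b, F k l a b = ∑ a, ∑ b, ∑ k, ∑ l, F k l a b := fun F => by
    calc ∑ k, ∑ l, ∑ a, ∑ b, F k l a b = ∑ k, ∑ a, ∑ b, ∑ l, F k l a b :=
          Finset.sum_congr rfl fun k _ => by
            rw [Finset.sum_comm]
            exact Finset.sum_congr rfl fun a _ => Finset.sum_comm
      _ = _ := by
            rw [Finset.sum_comm]
            exact Finset.sum_congr rfl fun a _ => Finset.sum_comm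
  rw [e]
  simp only [hT, hU, Finset.mul_sum, star_mul']
  refine Finset.sum_congr rfl fun a _ => Finset.sum_congr rfl fun b _ =>
    Finset.sum_congr rfl fun k _ => Finset.sum_congr rfl fun l _ =>
    Finset.sum_congr rfl fun c _ => Finset.sum_congr rfl fun d _ => by ring

theorem ip3_split (C A H : Mat n) (S T : Fin n → Mat n) (c : ℝ) :
    ip3 C A H (fun k => S k - c • T k) (fun k => S k - c • T k) =
      ip3 C A H S S - c * ip3 C A H S T - c * ip3 C A H T S + c ^ 2 * ip3 C A H T T := by
  simp only [ip3, conjTranspose_sub, conjTranspose_smul, star_trivial, Matrix.mul_sub,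
    Matrix.sub_mul, Matrix.mul_smul, Matrix.smul_mul, trace_sub, trace_smul, real_smul,
    Finset.mul_sum, ← Finset.sum_sub_distrib, ← Finset.sum_add_distrib]
  exact Finset.sum_congr rfl fun k _ => Finset.sum_congr rfl fun l _ => by ring

/-- Symmetric and antisymmetric tensors are orthogonal. -/
theorem ip3_pyth (A H : Mat n) {S T : Fin n → Mat n} (hS : ∀ k i j, S k i j = S j i k)
    (hT : ∀ k i j, T k i j = -T j i k) (c : ℝ) :
    ip3 A A H (fun k => S k - c • T k) (fun k => S k - c • T k) =
      ip3 A A H S S + c ^ 2 * ip3 A A H T T := by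
  have s1 : ∀ k i j, S k i j = 1 * S j i k := fun k i j => by rw [one_mul]; exact hS k i j
  have t1 : ∀ k i j, T k i j = -1 * T j i k := fun k i j => by rw [neg_one_mul]; exact hT k i j
  have a := ip3_swap A A H s1 t1
  have b := ip3_swap A A H t1 s1
  rw [star_neg, star_one] at a
  rw [star_one] at b
  rw [ip3_split]
  linear_combination (-(c : ℂ) / 2) * a + (-(c : ℂ) / 2) * b

theorem tm_anti (h : E n → Mat n) (z : E n) (k i j : Fin n) : tm h k z i j = -tm h j z i k := by
  simp only [tm, of_apply, neg_sub]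

theorem dsy_symm {G : E n → Mat n} {z : E n} (hK : HS68.Kl G z) (h : E n → Mat n)
    (k i j : Fin n) : dsy G h k z i j = dsy G h j z i k := by
  simp only [dsy, gs, tm, Matrix.sub_apply, Matrix.smul_apply, of_apply, real_smul,
    HS68.Loc.gam_symm hK i j k]
  push_cast
  ring

theorem df_eq (G h : E n → Mat n) (k : Fin n) (z : E n) :
    df G h k z = dsy G h k z - (1 / 2 : ℝ) • tm h k z := by
  rw [df, dsy, gs]; abel

/-- The energy splits in the symmetric part and the torsion. -/
theorem en_split {G : E n → Mat n} {z : E n} (hK : HS68.Kl G z) (h : E n → Mat n) :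
    (en G h h z).re = es G h z + tq h (G z)⁻¹ (G z)⁻¹ z / 4 := by
  have a : en G h h z = ip3 (G z)⁻¹ (G z)⁻¹ (h z) (fun k => df G h k z) fun k => df G h k z :=
    (ip3_cyc _ _ _ _ _).symm
  simp only [df_eq] at a
  rw [a, ip3_pyth _ _ (dsy_symm hK h) (tm_anti h z), add_re, es, tq, ← ofReal_pow,
    re_ofReal_mul]
  ring

theorem tq_rk (h : E n → Mat n) (z v : E n) :
    tq h (vecMulVec v (star v)) (vecMulVec v (star v)) z = 0 := by
  have a : (∑ k, v k • tm h k z) *ᵥ v = 0 := by
    ext d
    have b : ∑ k, ∑ a, v k * (tm h k z d a * v a) = -∑ k, ∑ a, v k * (tm h k z d a * v a) := by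
      conv_lhs => rw [Finset.sum_comm]
      simp only [← Finset.sum_neg_distrib]
      exact Finset.sum_congr rfl fun k _ => Finset.sum_congr rfl fun a _ => by
        rw [tm_anti h z a d k]; ring
    simp only [sum_mulVec, smul_mulVec, Finset.sum_apply, Pi.smul_apply, smul_eq_mul]
    simp only [mulVec, dotProduct, Finset.mul_sum, Pi.zero_apply]
    linear_combination (1 / 2 : ℂ) * b
  rw [tq, RB.R68.ip3_rk, a, mulVec_zero, dotProduct_zero, zero_re]

theorem rx_rk (h : E n → Mat n) (z v : E n) :
    rx h (vecMulVec v (star v)) (vecMulVec v (star v)) z = (rm h z v v v v).re := by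
  rw [rx, rm]
  refine congrArg re (Finset.sum_congr rfl fun k _ => Finset.sum_congr rfl fun l _ => ?_)
  rw [Matrix.mul_assoc, vecMulVec_mul, trace_vecMulVec, dotProduct_comm v, ← dotProduct_mulVec]
  rfl

end T47

theorem st_TCL : St_TCL := by
  intro n M h hh
  have h1 : ∀ G, M.Kae G → M.All fun e z =>
      M.yT G h (e.symm z) = es (G e) (h e) z + bx (h e) (G e z)⁻¹ (G e z)⁻¹ z ∧
        0 ≤ es (G e) (h e) z := fun G hG e he z hz => by
    have p := (hG.pos e he z hz).inv.posSemidef
    refine ⟨?_, ip3_nonneg p p (hh.pos e he z hz).posSemidef _⟩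
    rw [((RB.st_RCL n M G h hG hh).2.2.2.1 e he z hz).1,
      T47.en_split (HS68.clo_kl hG.toClo he hz), qq, neg_re, bx, rx]
    ring
  refine ⟨h1, fun hr => ⟨fun e he z hz v => ?_, fun G hG x => ?_⟩⟩
  · have := hr e he z hz _ (posSemidef_vecMulVec_self_star v)
    rw [bx, T47.tq_rk, T47.rx_rk] at this
    linarith
  · obtain ⟨a, b⟩ := Mf.AllOn.ch (h1 G hG) x
    rw [Mf.ch_symm] at a
    rw [a]
    exact add_nonneg b (Mf.AllOn.ch hr x _ (hG.toMet.ev_pos x).inv.posSemidef)

end Pool.Agent.Lib.TB
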