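import Pool.Agent.Lib.TB.Blue
import Pool.Agent.Lib.RB.Nef
import Pool.Agent.Lib.HS.All

/-! Project tb33: solvability of the twisted equations. -/

open scoped Classical Topology ContDiff ComplexOrder Matrix
open Set MeasureTheory Complex Metric Filter

noncomputable section

namespace Pool.Agent.Lib.TB

open Pool.Agent.Lib.SV (E)
open Pool.Agent.Lib.HS32 Pool.Agent.Lib.HS32.Mf Pool.Agent.Lib.HS76 Pool.Agent.Lib.RB

namespace T84

variable {n : ℕ} {M : Mf n} {H : M.Fam (Mat n)} [M.Cpt]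

/-- The twisted equation is solvable for every Kähler form, given the Schwarz lemma. -/
theorem nefS (hA : HS.St_AUBIN) (hn : 0 < n) (hH : M.Kae H) {D : ℝ} (hD : 1 ≤ D)
    (hS : ∀ (G T : M.Fam (Mat n)) (ε : ℝ), 0 < ε → M.Kae G → M.Le (ε • H) T →
      (M.All fun e z => M.ric G e z = T e z - G e z) → M.Le ((ε / D) • H) G)
    (T : M.Fam (Mat n)) (hT : M.Kae T) : ∃ u, M.Sm u ∧ M.Kae (T - M.ric H + M.hs u) ∧
      ∀ x, M.dq H (T - M.ric H + M.hs u) x = Real.exp (u x) := by
  have hr := (mHES n M).2.2.2.2.2.2.2.2.1 H hH.toMet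
  obtain ⟨C, hC, hle, -⟩ := (mBD n M H hH.toMet).1 _ hr.toForm
  have clo : ∀ {T u}, M.Clo T → M.Sm u → M.Clo (T - M.ric H + M.hs u) :=
    fun h1 h2 => (h1.sub hr).add ((mHES n M).1 _ h2)
  obtain ⟨q, hq⟩ : ∃ q : ℝ, q = 1 - 1 / (2 * D) := ⟨_, rfl⟩
  have hq0 : 0 < q := by
    have : 1 / (2 * D) ≤ 1 / 2 := one_div_le_one_div_of_le two_pos (by linarith)
    linarith
  have hq1 : q < 1 := by
    have : 0 < 1 / (2 * D) := by positivity
    linarith
  have key : ∀ k : ℕ, ∀ η : ℝ, C * q ^ k < η → ∃ u, M.Sm u ∧ M.Kae (η • H - M.ric H + M.hs u) ∧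
      ∀ x, M.dq H (η • H - M.ric H + M.hs u) x = Real.exp (u x) := by
    intro k
    induction k with
    | zero =>
      intro η hη
      rw [pow_zero, mul_one] at hη
      have h0 : M.Sm fun _ => (0 : ℝ) := sm_const 0
      refine solve hA hn hH.toMet h0 ⟨clo (hH.toClo.smul η) h0, fun e he z hz => ?_⟩
      have h4 : (η • H - M.ric H + M.hs fun _ => 0) e z =
          (η - C) • H e z + ((C • H) e z - M.ric H e z) := by
        simp only [Pi.add_apply, Pi.sub_apply, Pi.smul_apply]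
        rw [((mLAP n M _ _ h0 h0).1 0 e he z hz).1, sub_smul]
        abel
      beta_reduce
      rw [h4]
      exact (pd_rsmul (hH.pos e he z hz) (sub_pos.2 hη)).add_posSemidef (hle e he z hz)
    | succ k ih =>
      intro η hη
      have h1 : C * q ^ k < η / q := by
        rw [lt_div_iff₀ hq0, mul_assoc, ← pow_succ]
        exact hη
      have h2 : 0 < η / q := lt_trans (by positivity) h1
      obtain ⟨u, u1, u2, u3⟩ := ih _ h1
      have hb := hS _ _ _ h2 u2 (Le.refl _) (ric_sol hH.toMet u2.toMet u3)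
      refine solve hA hn hH.toMet u1 ⟨clo (hH.toClo.smul η) u1, fun e he z hz => ?_⟩
      obtain ⟨a, ha⟩ : ∃ a, a = η / q := ⟨_, rfl⟩
      rw [← ha] at hb h2
      have h5 : η = a - a / D + a / (2 * D) := by
        have h6 : η = a * q := by rw [ha]; field_simp
        rw [h6, hq]
        field_simp
        ring
      have h4 : (η • H - M.ric H + M.hs u) e z = (a / (2 * D)) • H e z +
          ((a • H - M.ric H + M.hs u) e z - ((a / D) • H) e z) := by
        simp only [Pi.add_apply, Pi.sub_apply, Pi.smul_apply]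
        rw [h5, add_smul, sub_smul]
        abel
      rw [h4]
      exact (pd_rsmul (hH.pos e he z hz) (by positivity)).add_posSemidef (hb e he z hz)
  obtain ⟨c, hc0, h1, -⟩ := (mBD n M T hT.toMet).1 H hH.toForm
  obtain ⟨k, hk⟩ := exists_pow_lt_of_lt_one (div_pos (inv_pos.2 hc0) hC) hq1
  obtain ⟨u, u1, u2, -⟩ := key k c⁻¹ (by rwa [lt_div_iff₀ hC, mul_comm] at hk)
  refine solve hA hn hH.toMet u1 ⟨clo hT.toClo u1, fun e he z hz => ?_⟩
  have h2 := (u2.pos e he z hz).add_posSemidef (psd_rsmul (h1 e he z hz) (inv_pos.2 hc0).le)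
  simp only [Pi.add_apply, Pi.sub_apply, Pi.smul_apply, smul_sub, smul_smul,
    inv_mul_cancel₀ hc0.ne', one_smul] at h2 ⊢
  convert h2 using 1
  abel

end T84

theorem st_TEX (hSW : St_TSW) : St_TEX := by
  intro n M _ H h hn hH hh hy
  obtain ⟨D, hD, hS⟩ := hSW n M H h hn hH.toMet hh hy
  have nf := T84.nefS HS.asAUBIN hn hH hD fun G T ε hε hG h1 h2 => (hS G T ε hε hG h1 h2).2
  refine ⟨fun ε hε => ?_, fun B hB h0 ε hε => ?_⟩
  · obtain ⟨u, u1, u2, u3⟩ := nf _ (hH.smul hε)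
    exact ⟨u, u1, u2, u3⟩
  · have a := (hH.toClo.smul ε).add hB
    obtain ⟨u, u1, u2, u3⟩ := nf (ε • H + B) ⟨a, ((hH.toMet.smul hε).of_le
      a.toForm (by simpa only [add_zero] using (Le.refl (ε • H)).add h0)).pos⟩
    exact ⟨u, u1, u2, u3⟩

end Pool.Agent.Lib.TB
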