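import Pool.Agent.Lib.TB.Blue
import Pool.Agent.Lib.RB.Flat85

/-! Project tb33: the curvature vanishes on the image of the projection. -/

open scoped Classical Topology ContDiff ComplexOrder Matrix
open Set Complex Filter Matrix

noncomputable section

namespace Pool.Agent.Lib.TB

open Pool.Agent.Lib.SV (E)
open Pool.Agent.Lib.HS32

theorem st_TFL : St_TFL := by
  intro n h P z ξ a hh hP he h1 hs hPP hc hr ha hx hPx h0
  have hp := he.self_of_nhds.1
  have p3 := (hp.inv.smul ha).add_posSemidef hx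
  have hd : IsUnit (h z).det := hp.det_pos.ne'.isUnit
  have e4 : ξ * h z * (h z)⁻¹ = ξ := mul_nonsing_inv_cancel_right _ _ hd
  have e1 : (P z)ᴴ * h z = h z * P z := by rw [← hs.eq, conjTranspose_mul, hp.1.eq]
  have e2 : P z * (h z)⁻¹ = P z * (h z)⁻¹ * (P z)ᴴ := by
    rw [Matrix.mul_assoc, ← mul_nonsing_inv_cancel_right (h z) (P z)ᴴ hd, e1,
      Matrix.mul_assoc (h z), nonsing_inv_mul_cancel_left _ _ hd, ← Matrix.mul_assoc, hPP]
  have p1 : (P z * (h z)⁻¹).PosSemidef := by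
    rw [e2]; exact hp.inv.posSemidef.mul_mul_conjTranspose_same _
  have p2 : ξ.PosSemidef := by simpa using hx.add (p1.smul ha.le)
  have e3 : P z * (a • (h z)⁻¹ + (ξ - a • (P z * (h z)⁻¹))) = ξ := by
    rw [Matrix.mul_add, Matrix.mul_sub, Matrix.mul_smul, Matrix.mul_smul, ← Matrix.mul_assoc, hPP,
      hPx, add_sub_cancel]
  refine RB85.flat_loc ⟨hh, he.mono fun w hw => hw.1.1, hp⟩ hP h1 (he.mono fun w hw => hw.2) hPP
    hs hc hr (Q := ξ * h z)
    (S := (h z)⁻¹ * (a • (h z)⁻¹ + (ξ - a • (P z * (h z)⁻¹)))⁻¹) (by rwa [e4])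
    (by rw [← Matrix.mul_assoc, hPx]) ?_ ?_
  · rw [← Matrix.mul_assoc, e4]
    nth_rewrite 1 [← e3]
    rw [mul_nonsing_inv_cancel_right _ _ p3.det_pos.ne'.isUnit]
  · rw [qx, neg_re, neg_nonpos] at h0
    simpa only [e4, ← Matrix.mul_assoc] using h0

end Pool.Agent.Lib.TB
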