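import Pool.Agent.Lib.TB.Blue
import Pool.Agent.Lib.RB.B_RKL

/-! Project tb33: the rank of the limit. -/

open scoped Classical Topology ContDiff ComplexOrder Matrix
open Set MeasureTheory Complex Metric Filter

noncomputable section

namespace Pool.Agent.Lib.TB

open Pool.Agent.Lib.SV (E)
open Pool.Agent.Lib.HS32 Pool.Agent.Lib.HS32.Mf Pool.Agent.Lib.HS76 Pool.Agent.Lib.RB

theorem st_TKL (hVO : St_RVO) (hMN : St_TMN) (hPA : St_RPA) : St_TKL := by
  intro n M _ H h Q P k k' C a b g ε φ f l _ hH hh ho hv hs hl hQ hL hP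
  obtain ⟨C₁, hC₁, h1⟩ := hVO n M H k hH ho hv
  obtain ⟨C₀, hC₀, h2, -⟩ := (mBD n M h hh).1 H hH.toForm
  have hb := hP.b0
  have key : ∀ s : ℝ, 0 ≤ s → (1 + s) ^ k ≤ C₁ * (1 + s * C₀ * b) ^ k' := fun s hs0 => by
    obtain ⟨c, hc⟩ := (hPA n M h Q hh hQ).2.2 (s * C₀)
    have h3 := hMN n M H h Q 1 k C g ε φ f l (s * C₀) c hH hh hs hQ.en
      ⟨fun _ _ _ _ => smM_const 1, fun _ _ _ _ _ _ _ => by simp⟩ hL
      (by simpa only [Pi.one_apply, mul_one] using hc)
    rw [mul_one] at h3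
    have h4 : ∀ᶠ j in l, (1 + s) * ε j ≤ 1 := by
      have := (hs.e0.mono_left hl).const_mul (1 + s)
      rw [mul_zero] at this
      exact this.eventually (eventually_le_nhds one_pos)
    have h5 : (1 + s) ^ k ≤ C₁ * c := by
      refine ge_of_tendsto (h3.const_mul C₁) (h4.mono fun j hj => ?_)
      have hm := (hs.kae j).toMet
      have he := (hs.eps j).1
      obtain ⟨-, -, -, hV, hi, -⟩ := mMU n M _ hm
      have i := fun T (hT : M.Met T) (r : ℝ) => hi ℝ _
        ((mINV n M _ hm).1 _ (hm.toTen.add (hT.toTen.smul r))).2.2.2.1.continuous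
      refine ((h1 _ _ _ (hs.kae j) (hs.sm j) (hs.eps j) (hs.cls j)).2.2 s hs0 hj).trans
        (mul_le_mul_of_nonneg_left (div_le_div_of_nonneg_right
          (integral_mono (i H hH.toMet _) (i h hh _) fun x => ?_) hV.le) (by linarith))
      have q := det_mono ((hm.ev_pos x).add_posSemidef (psd_rsmul
        (hH.toMet.ev_pos x).posSemidef (mul_nonneg hs0 he.le)))
        (B := M.ev (g j) x + (s * C₀ * ε j) • M.ev h x) (by
          have := psd_rsmul (AllOn.ch h2 x) (mul_nonneg hs0 he.le)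
          rwa [Pi.smul_apply, Pi.smul_apply, smul_sub, smul_smul, mul_right_comm,
            ← add_sub_add_left_eq_sub _ _ (M.ev (g j) x)] at this)
      rw [dq, dq, ← herm_det (hm.ev_pos x).1, div_ofReal_re, div_ofReal_re]
      exact div_le_div_of_nonneg_right q (pd_det_re (hm.ev_pos x)).le
    obtain ⟨x⟩ : Nonempty M.X := inferInstance
    exact h5.trans (mul_le_mul_of_nonneg_left (R14.det_le (hh.ev_pos x) hP.a0
      (mul_nonneg hs0 hC₀.le) (AllOn.ch hP.herm x) (AllOn.ch hP.idem x) (AllOn.ch hP.lo x)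
      (AllOn.ch hP.hi x) (AllOn.ch hc x) (AllOn.ch (hP.det _) x)) (by linarith))
  by_contra hk
  obtain ⟨s, hs'⟩ : ∃ s, s = C₁ * (1 + C₀ * b) ^ k' := ⟨_, rfl⟩
  have s0 : 0 ≤ s := by rw [hs']; positivity
  have p : 0 ≤ C₀ * b := by positivity
  have q1 := pow_le_pow_right₀ (by linarith : 1 ≤ 1 + s) (Nat.succ_le_of_lt (not_le.1 hk))
  have q2 := pow_le_pow_left₀ (by positivity) (by nlinarith [mul_nonneg s0 p] :
    1 + s * C₀ * b ≤ (1 + C₀ * b) * (1 + s)) k'
  have q3 := q1.trans ((key s s0).trans (mul_le_mul_of_nonneg_left q2 (by linarith)))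
  rw [mul_pow, ← mul_assoc, ← hs', pow_succ'] at q3
  linarith [le_of_mul_le_mul_right q3 (by positivity)]

end Pool.Agent.Lib.TB
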