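import Pool.Agent.Lib.TB.Blue
import Pool.Agent.Lib.RB.B_RMN

/-! Project tb33: the limit of the mean value of a determinant. -/

open scoped Classical Topology ContDiff ComplexOrder Matrix
open Set MeasureTheory Complex Metric Filter

noncomputable section

namespace Pool.Agent.Lib.TB

open Pool.Agent.Lib.SV (E)
open Pool.Agent.Lib.HS32 Pool.Agent.Lib.RB

open M51 Mf in
theorem st_TMN (hDB : St_RDB) (hTD : St_TDB) : St_TMN := by
  intro n M _ H h Q R k C g ε φ f l s c hK hh hs hQ hR hL hc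
  obtain ⟨-, -, ⟨V, -⟩, -⟩ := mCOV n M
  obtain ⟨-, hfin, -, -, hint, -, hmu⟩ := mMU n M h hh
  obtain ⟨d1, -⟩ := hDB n M H h hK.toMet hh
  have d2 := hTD n M H h hK.toMet hh
  have hI := mINV n M h hh
  obtain ⟨D, hD, bD⟩ := ((hI.1 H hK.toTen).2.2.2.1).exists_bound
  have hC : 0 ≤ C := zero_le_one.trans hs.one
  have hB : ∀ a, closedBall (V.c a) (V.ρ a) ⊆ (V.e a).target := fun a =>
    (closedBall_subset_closedBall (by linarith [V.pos a])).trans (V.sub a)
  let K : Fin V.r → Set M.X := fun a => (V.e a).symm '' closedBall (V.c a) (V.ρ a)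
  have hKc : ∀ a, IsCompact (K a) := fun a =>
    (isCompact_closedBall _ _).image_of_continuousOn ((V.e a).continuousOn_symm.mono (hB a))
  have hKs : ∀ a, K a ⊆ (V.e a).source := fun a => by
    rintro _ ⟨w, hw, rfl⟩
    exact (V.e a).map_target (hB a hw)
  have lip : ∀ a, ∃ L : ℝ, 0 ≤ L ∧ ∀ i, ∀ z ∈ closedBall (V.c a) (V.ρ a),
      ‖(1 + s • (M.qE (g i) h (ε i) (V.e a) z * R (V.e a) z)).det - c‖ ≤
        L * ∑ p, ∑ q, ‖(M.qE (g i) h (ε i) (V.e a) z - Q (V.e a) z) p q‖ := fun a => by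
    obtain ⟨r₁, hr₁, -, b1⟩ := d2 C _ (V.mem a) _ (isCompact_closedBall _ _) (hB a)
    obtain ⟨r₂, b2⟩ := ent_bd hQ (V.mem a) (isCompact_closedBall _ _) (hB a)
    obtain ⟨r₃, b3⟩ := ent_bd hR (V.mem a) (isCompact_closedBall _ _) (hB a)
    obtain ⟨L, hL0, hl⟩ := det_lipR n (r := max r₁ (max r₂ r₃)) (le_max_of_le_left hr₁.le) s
    refine ⟨L, hL0, fun i z hz => ?_⟩
    rw [← hc _ (V.mem a) z (hB a hz)]
    exact hl _ _ _
      (fun p q => le_max_of_le_left (b1 _ _ (hs.kae i) (hs.eps i).1 (hs.sb i) z hz p q).1)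
      (fun p q => le_max_of_le_right (le_max_of_le_left (b2 z hz p q)))
      fun p q => le_max_of_le_right (le_max_of_le_right (b3 z hz p q))
  choose L hL0 lip using lip
  have lim : Tendsto (fun i => ∑ a, D * C * L a * ∑ p, ∑ q, ∫ x in K a,
      ‖(M.qE (g i) h (ε i) (V.e a) (V.e a x) - Q (V.e a) (V.e a x)) p q‖ ∂M.mu h) l (𝓝 0) := by
    have := tendsto_finsetSum Finset.univ fun a _ => (tendsto_finsetSum Finset.univ
      fun i _ => tendsto_finsetSum Finset.univ fun j _ =>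
        hL _ (V.mem a) _ (hKc a) (hKs a) i j).const_mul (D * C * L a)
    simpa only [Finset.sum_const_zero, mul_zero] using this
  refine tendsto_sub_nhds_zero_iff.1 (squeeze_zero_norm (fun i => ?_) lim)
  have gm := (hs.kae i).toMet
  obtain ⟨-, gfin, -, v0, gint, -⟩ := mMU n M _ gm
  have pen := (d1 _ _ gm (hs.eps i).1).1
  have hT : M.Ten (g i + (s * ε i) • (h * R)) := gm.toTen.add ((hI.2.2.2.2.2.1 R hR).smul _)
  obtain ⟨-, -, t1, t2, -⟩ := (mINV n M _ gm).1 _ hT
  have di : ∀ a p q, IntegrableOn (fun x =>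
      ‖(M.qE (g i) h (ε i) (V.e a) (V.e a x) - Q (V.e a) (V.e a x)) p q‖) (K a) (M.mu h) :=
    fun a p q => by
      refine ContinuousOn.integrableOn_compact (hKc a) fun x hx => ?_
      have hx' := (V.e a).map_source (hKs a hx)
      exact ((((pen.sm _ (V.mem a) _ hx').sub (hQ.sm _ (V.mem a) _ hx')) p q).continuousAt.comp
        ((V.e a).continuousAt (hKs a hx))).norm.continuousWithinAt
  let w : Fin V.r → M.X → ℝ := fun a x => D * C * L a * ∑ p, ∑ q,
    ‖(M.qE (g i) h (ε i) (V.e a) (V.e a x) - Q (V.e a) (V.e a x)) p q‖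
  have gi : ∀ a, Integrable ((K a).indicator (w a)) (M.mu h) := fun a =>
    (integrable_indicator_iff (hKc a).measurableSet).2 ((integrable_finsetSum _ fun i _ =>
      integrable_finsetSum _ fun j _ => di a i j).const_mul _)
  have g0 : ∀ a x, 0 ≤ (K a).indicator (w a) x := fun a =>
    indicator_nonneg fun x _ => mul_nonneg (mul_nonneg (mul_nonneg hD.le hC) (hL0 a)) (by positivity)
  have e1 : M.mn (g i) (M.dq (g i) (g i + (s * ε i) • (h * R))) - c = ∫ x, M.dq h (g i) x *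
      (M.dq (g i) (g i + (s * ε i) • (h * R)) x - c) / M.vv (g i) ∂M.mu h := by
    rw [integral_div, ← (hmu _ gm).2.1, integral_sub (gint ℝ _ t2.continuous) (integrable_const _),
      integral_const, smul_eq_mul, sub_div, Mf.mn, Mf.vv, mul_div_cancel_left₀ _ v0.ne']
  have e2 : (∑ a, D * C * L a * ∑ p, ∑ q, ∫ x in K a,
      ‖(M.qE (g i) h (ε i) (V.e a) (V.e a x) - Q (V.e a) (V.e a x)) p q‖ ∂M.mu h) =
      ∫ x, ∑ a, (K a).indicator (w a) x ∂M.mu h := by
    rw [integral_finsetSum _ fun a _ => gi a]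
    refine Finset.sum_congr rfl fun a _ => ?_
    rw [integral_indicator (hKc a).measurableSet, integral_const_mul,
      integral_finsetSum _ fun i _ => integrable_finsetSum _ fun j _ => di a i j]
    exact congrArg _ (Finset.sum_congr rfl fun i _ =>
      (integral_finsetSum _ fun j _ => di a i j).symm)
  rw [e1, e2]
  refine norm_integral_le_of_norm_le (integrable_finsetSum _ fun a _ => gi a)
    (ae_of_all _ fun x => ?_)
  obtain ⟨a, hx, hb, -⟩ := V.cov x
  have hz := ball_subset_closedBall hb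
  refine le_trans ?_ (Finset.single_le_sum (fun a _ => g0 a x) (Finset.mem_univ a))
  rw [indicator_of_mem (show x ∈ K a from ⟨_, hz, (V.e a).left_inv hx⟩)]
  have f1 := t1.at (V.mem a) hx
  have f2 : ‖M.dq (g i) (g i + (s * ε i) • (h * R)) x - c‖ ≤
      ‖(1 + s • (M.qE (g i) h (ε i) (V.e a) (V.e a x) * R (V.e a) (V.e a x))).det - c‖ := by
    refine le_trans (le_of_eq ?_) (abs_re_le_norm _)
    rw [f1, sub_re, ofReal_re, Real.norm_eq_abs]
    exact congrArg (fun y : ℂ => |y.re - c|) (det_facR (AllOn.at gm.pos (V.mem a) hx) s (ε i))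
  have p0 := ((hI.2.2.2.2.2.2.2 _ gm).1 x).le
  have v1 : 0 < M.vv (g i) := v0
  have f3 : M.dq h (g i) x / M.vv (g i) ≤ D * C := by
    rw [div_le_iff₀ v1, (hI.2.2.2.2.2.2.2 H hK.toMet).2.2.1 _ gm.toForm x, mul_assoc]
    exact mul_le_mul ((le_abs_self _).trans (bD x)) (hs.up i x)
      (((mINV n M H hK.toMet).2.2.2.2.2.2.2 _ gm).1 x).le hD.le
  rw [mul_div_right_comm, norm_mul, Real.norm_of_nonneg (div_nonneg p0 v1.le)]
  exact (mul_le_mul f3 (f2.trans (lip a i _ hz)) (norm_nonneg _) (mul_nonneg hD.le hC)).trans_eq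
    (mul_assoc _ _ _).symm

end Pool.Agent.Lib.TB
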