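import Pool.Agent.Lib.TB.Blue
import Pool.Agent.Lib.RB.B_RTB
import Pool.Agent.Lib.HS.B_CLG

/-! Project tb33: the trace of the torsion is small. -/

open scoped Classical Topology ContDiff ComplexOrder Matrix
open Set MeasureTheory Complex Metric Filter

noncomputable section

namespace Pool.Agent.Lib.TB

open Pool.Agent.Lib.SV (E)
open Pool.Agent.Lib.HS32 Pool.Agent.Lib.GH Pool.Agent.Lib.RB

namespace P18

open Matrix

variable {n : ℕ} {G h : Mat n}

theorem nq_single (A : Mat n) (k : Fin n) : nq A (Pi.single k 1) = (A k k).re := by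
  simp [nq, -Pi.single_star]

theorem cov (hG : G.PosDef) (c : Fin n → ℂ) (k : Fin n) :
    ‖c k‖ ^ 2 ≤ (G k k).re * (∑ a, ∑ b, G⁻¹ a b * (star (c b) * c a)).re := by
  have h1 := G48.nq_pos (R68.rk_le hG (Pi.single k 1)) (star c)
  have e1 : star (star c) ⬝ᵥ G⁻¹ *ᵥ star c = ∑ a, ∑ b, G⁻¹ a b * (star (c b) * c a) := by
    simp only [star_star, dotProduct, mulVec, Pi.star_apply, Finset.mul_sum]
    exact Finset.sum_congr rfl fun a _ => Finset.sum_congr rfl fun b _ => by ring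
  have e2 : star (star c) ⬝ᵥ vecMulVec (Pi.single k 1) (star (Pi.single k (1 : ℂ) : Fin n → ℂ)) *ᵥ
      star c = ((‖c k‖ ^ 2 : ℝ) : ℂ) := by
    rw [vecMulVec_mulVec, ← Pi.single_star, star_one, star_star, dotProduct_smul,
      dotProduct_single, single_dotProduct, Pi.star_apply, mul_one, one_mul, op_smul_eq_smul,
      smul_eq_mul, Complex.star_def, Complex.conj_mul']
    push_cast
    rfl
  rw [nq, sub_mulVec, dotProduct_sub, smul_mulVec, dotProduct_smul, e1, e2, sub_re, smul_eq_mul,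
    re_ofReal_mul, ofReal_re, nq_single] at h1
  linarith

theorem fin {t a b : ℂ} {ε S s γ x y g τ η : ℝ} (ht : t = ε * (2 * (a + b))) (hε : 0 < ε)
    (s0 : 0 ≤ s) (hS : ε * s ≤ S) (γ0 : 0 ≤ γ) (x0 : 0 ≤ x) (hx : x ≤ y) (g0 : 0 ≤ g)
    (hg : g ≤ τ * η) (ha : ‖a‖ ^ 2 ≤ g * γ) (hb : ‖b‖ ^ 2 ≤ g * (s * x)) :
    ‖t‖ ^ 2 ≤ 8 * (1 + S) * (τ * (ε * y + ε ^ 2 * γ)) * η := by
  have S0 : 0 ≤ S := (mul_nonneg hε.le s0).trans hS
  have y0 : 0 ≤ y := x0.trans hx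
  have h1 : ‖a + b‖ ^ 2 ≤ 2 * (‖a‖ ^ 2 + ‖b‖ ^ 2) := by
    have := norm_add_le a b
    nlinarith [sq_nonneg (‖a‖ - ‖b‖), norm_nonneg (a + b), norm_nonneg a, norm_nonneg b]
  have h2 : ε ^ 2 * γ + ε * s * (ε * x) ≤ (1 + S) * (ε * y + ε ^ 2 * γ) := by
    have i1 : ε * s * (ε * x) ≤ S * (ε * y) := by gcongr
    have i2 : 0 ≤ S * (ε ^ 2 * γ) := by positivity
    have i3 : 0 ≤ ε * y := by positivity
    nlinarith
  rw [ht, norm_mul, norm_mul, Complex.norm_real, Real.norm_of_nonneg hε.le, Complex.norm_two]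
  calc _ = 4 * ε ^ 2 * ‖a + b‖ ^ 2 := by ring
    _ ≤ 4 * ε ^ 2 * (2 * (g * γ + g * (s * x))) := by gcongr; linarith
    _ = 8 * (ε ^ 2 * γ + ε * s * (ε * x)) * g := by ring
    _ ≤ 8 * ((1 + S) * (ε * y + ε ^ 2 * γ)) * (τ * η) := by gcongr
    _ = _ := by ring

end P18

theorem st_TP1 (hCL : St_TCL) : St_TP1 := by
  intro n M G h ε S hG hh hr hε hS e he z hz k
  obtain ⟨i1, i2, -⟩ := mINV n M G hG.toMet
  obtain ⟨-, e2, -⟩ := mHES n M
  have hs : M.Sm (M.tr G h) := (i1 h hh.toTen).2.1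
  have hev : M.lc (M.tr G h) e =ᶠ[𝓝 z] fun w => ((G e w)⁻¹ * h e w).trace :=
    ((i2 h hh.toForm).ev he hz).mono fun w hw => hw.1
  have lG := HS68.met_loc hG.toMet he hz
  have lH := HS68.met_loc hh he hz
  have pG := hG.pos e he z hz
  have pH := hh.pos e he z hz
  obtain ⟨c1, c2⟩ := (hCL n M h hh).1 G hG e he z hz
  have t1 : M.tr G h (e.symm z) = _ := (i1 h hh.toTen).1 e he z hz
  have t2 : M.tr h G (e.symm z) = _ := ((mINV n M h hh).1 G hG.toTen).1 e he z hz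
  have t3 : M.gr G (M.tr G h) (M.tr G h) (e.symm z) = _ := (i1 _ (e2 _ _ hs hs).1).1 e he z hz
  have d : ∀ k, dzb k (M.lc (M.tr G h) e) z = star (dz k (M.lc (M.tr G h) e) z) := fun k =>
    (star_dz_ofReal (cd_diff (hs.lc e he z hz))).symm
  have t4 : M.gr G (M.tr G h) (M.tr G h) (e.symm z) = (∑ a, ∑ b, (G e z)⁻¹ a b *
      (star (dz b (M.lc (M.tr G h) e) z) * dz a (M.lc (M.tr G h) e) z)).re := by
    rw [t3]
    simp only [Mf.ds, dd, d, Matrix.trace, Matrix.diag_apply, Matrix.mul_apply, Matrix.of_apply]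
  have ha := P18.cov pG (fun k => dz k (M.lc (M.tr G h) e) z) k
  have g0 : 0 ≤ (G e z k k).re := (P18.nq_single _ k) ▸ G48.nq_pos pG.posSemidef _
  have hb := (P18.cov pG (fun k => ((G e z)⁻¹ * h e z * dsy (G e) (h e) k z).trace) k).trans
    (mul_le_mul_of_nonneg_left (HS76.grad_le pG.inv.posSemidef pG.inv.posSemidef pH.posSemidef
      fun k => dsy (G e) (h e) k z) g0)
  have hg := G48.nq_le_tr pH pG.posSemidef (Pi.single k 1)
  rw [P18.nq_single, P18.nq_single] at hg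
  have s1 := hS (e.symm z)
  rw [← t4] at ha
  rw [t1] at s1
  rw [Mf.yS, t2]
  refine P18.fin ?_ hε (HS76.tr_nonneg pG pH.posSemidef) s1
    (((mLAP n M _ _ hs hs).2.2 G hG.toMet).2.2.1 _ 0).2.2.2.2.2.2.1 c2 ?_ g0 hg ha hb
  · rw [dz_congr hev, lG.dz_trace_quot lH, Mf.qE, Matrix.mul_smul, Matrix.trace_smul,
      Matrix.trace_mul_comm, df, dsy, gs]
    simp only [Matrix.mul_sub, Matrix.trace_sub, Matrix.mul_smul, Matrix.trace_smul, real_smul]
    push_cast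
    ring
  · rw [c1]
    exact le_add_of_nonneg_right (hr e he z hz _ pG.inv.posSemidef)

end Pool.Agent.Lib.TB
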