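import Pool.Agent.Lib.TB.Blue
import Pool.Agent.Lib.RB.TAll

/-! Project tb33: the trace of the reference metric is small for the twisted equation. -/

open scoped Classical Topology ContDiff ComplexOrder Matrix
open Set MeasureTheory Complex Metric Filter

noncomputable section

namespace Pool.Agent.Lib.TB

open Pool.Agent.Lib.SV (E)
open Pool.Agent.Lib.HS32 Pool.Agent.Lib.HS32.Mf Pool.Agent.Lib.HS76 Pool.Agent.Lib.GH
open Pool.Agent.Lib.RB (ip_mono)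
open Pool.Agent.Lib.GH.G34 (sol_ric sol_det ip_ric)

namespace T91

open Pool.Agent.Lib.HS.SMALL

/-- The Schwarz lemma and polynomial bounds for the twisted equation. -/
theorem tsb (hSW : St_TSW) {n : ℕ} (M : Mf n) [M.Cpt] {H h B : M.Fam (Mat n)} (hn : 0 < n)
    (hK : M.Kae H) (hh : M.Met h) (hg : M.Yp h) (hB : M.Clo B) (hB0 : M.Le 0 B) :
    ∃ C : ℝ, 1 ≤ C ∧ ∀ ε ∈ Ioc (0 : ℝ) 1, ∀ u, M.SolB H B ε u →
    (M.All fun e z => M.ric (M.gB H B ε u) e z = ε • H e z + B e z - M.gB H B ε u e z) ∧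
    (∀ x, -M.tr (M.gB H B ε u) h x ≤ M.lap (M.gB H B ε u) (M.tr (M.gB H B ε u) h) x) ∧
    M.Le ((ε / C) • H) (M.gB H B ε u) ∧ M.Le (M.gB H B ε u) ((C * ε⁻¹ ^ n) • H) ∧
    ∀ x, n * Real.log (ε / C) ≤ u x ∧ u x ≤ C := by
  obtain ⟨K, hK1, hS⟩ := hSW n M H h hn hK.toMet hh hg
  obtain ⟨c, hc, hr, -⟩ := (mBD n M H hK.toMet).1 _
    (hB.sub ((mHES n M).2.2.2.2.2.2.2.2.1 H hK.toMet)).toForm
  have p1 : 0 < (1 + c) ^ n := by positivity
  have p2 : (1 + c) ^ n ≤ (1 + c) ^ n * K ^ (n - 1) :=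
    le_mul_of_one_le_right p1.le (one_le_pow₀ hK1)
  refine ⟨(1 + c) ^ n * K ^ (n - 1) + K, by linarith, fun ε hε u hu => ?_⟩
  have h1 : M.Le (ε • H + B - M.ric H) ((1 + c) • H) := by
    have := (hK.toMet.le_smul hε.2).add hr
    rwa [← add_smul, ← add_sub_assoc] at this
  have h2 : ∀ x, Real.exp (u x) ≤ (1 + c) ^ n := by
    obtain ⟨y, hy⟩ := hu.sm.exists_max
    have h3 := ((((mLAP n M _ _ hu.sm hu.sm).2.2 _ hK.toMet).2.2.1 y 0).2.2.2.2.2.2.2.2.1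
      (Eventually.of_forall hy)).2.2 _ (ch_mem y) (mem_ch y)
    have h4 := (AllOn.ch h1 y).add h3
    rw [← sub_eq_add_neg, sub_sub] at h4
    have h6 := det_le_of_le (c := 1 + c) (hK.toMet.ev_pos y) (hu.kae.toMet.ev_pos y).posSemidef h4
    have h7 := AllOn.ch (sol_det hK hu) y
    rw [ch_symm] at h7
    rw [Fintype.card_fin, ev, ev, h7] at h6
    exact fun x => (Real.exp_le_exp.2 (hy x)).trans
      (le_of_mul_le_mul_right h6 (pd_det_re (hK.toMet.ev_pos y)))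
  have h0 : M.Le ((ε / K) • H) (M.gB H B ε u) := (hS _ (ε • H + B) ε hε.1 hu.kae
    (by simpa only [add_zero] using (Le.refl (ε • H)).add hB0) (sol_ric hK hu)).2
  have h3 : M.Le ((ε / ((1 + c) ^ n * K ^ (n - 1) + K)) • H) (M.gB H B ε u) :=
    (hK.toMet.le_smul (div_le_div_of_nonneg_left hε.1.le (by linarith) (by linarith))).trans h0
  refine ⟨sol_ric hK hu, fun x => ?_, h3,
    Le.trans (T := ((1 + c) ^ n / (ε / K) ^ (Fintype.card (Fin n) - 1)) • H)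
      (fun e he z hz => ?_) (hK.toMet.le_smul ?_),
    fun x => ⟨?_, by linarith [h2 x, Real.add_one_le_exp (u x)]⟩⟩
  · have hq := hg _ hu.kae x
    rw [yT] at hq
    have h4 := ip_mono hu.kae.toMet hh (hK.toMet.smul hε.1).nonneg x
    rw [ip_smul, ← zero_smul ℝ H, ip_smul] at h4
    linarith [ip_ric hK hh hB0 hu x]
  · refine le_of_det_le (hK.pos e he z hz) (hu.kae.herm e he z hz) (div_pos hε.1 (by linarith))
      (h0 e he z hz) ?_
    rw [sol_det hK hu e he z hz]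
    exact mul_le_mul_of_nonneg_right (h2 _) (pd_det_re (hK.pos e he z hz)).le
  · rw [Fintype.card_fin, div_pow, div_div_eq_mul_div, div_eq_mul_inv, ← inv_pow]
    exact mul_le_mul (by linarith) (pow_le_pow_right₀ ((one_le_inv₀ hε.1).2 hε.2) (Nat.sub_le _ _))
      (by have := hε.1; positivity) (by linarith)
  · have h0 : 0 < ε / ((1 + c) ^ n * K ^ (n - 1) + K) := div_pos hε.1 (by linarith)
    have h4 := le_det_of_le (hK.toMet.ev_pos x) (hu.kae.toMet.ev_pos x).1 h0.le (AllOn.ch h3 x)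
    have h5 := AllOn.ch (sol_det hK hu) x
    rw [ch_symm] at h5
    rw [Fintype.card_fin, ev, ev, h5] at h4
    rw [← Real.log_pow, Real.log_le_iff_le_exp (pow_pos h0 n)]
    exact le_of_mul_le_mul_right h4 (pd_det_re (hK.toMet.ev_pos x))

/-- The statement without any hypothesis on the curvature: what is used is the differential
inequality for the trace, the bounds for the potential and the bound for the gradient. -/
theorem core1 (hRH : HS.St_RHO) (hP : HS.St_POP) {n : ℕ} (M : Mf n) [M.Cpt]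
    {H h B : M.Fam (Mat n)} {c C C₁ C₂ : ℝ} {N : ℕ} (hn : 0 < n) (hH : M.Kae H) (hh : M.Met h)
    (hB : M.Form B) (hc : 0 < c) (hC₁ : 1 ≤ C₁) (hC₂ : 1 ≤ C₂)
    (hs : ∀ ε ∈ Ioc (0 : ℝ) 1, ∀ u, M.SolB H B ε u →
      (∀ x, -M.tr (M.gB H B ε u) h x ≤ M.lap (M.gB H B ε u) (M.tr (M.gB H B ε u) h) x) ∧
      ∀ x, n * Real.log (ε / C₁) ≤ u x ∧ u x ≤ C₁)
    (hg : ∀ ε ∈ Ioc (0 : ℝ) 1, ∀ u, M.SolB H B ε u → ∀ x,
      M.gr H (M.tr (M.gB H B ε u) h) (M.tr (M.gB H B ε u) h) x ≤ (C₂ * ε⁻¹ ^ N) ^ 2)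
    (hv : ∀ ε ∈ Ioc (0 : ℝ) 1, ∀ u, M.SolB H B ε u → c ≤ (M.mu (M.gB H B ε u)).real univ ∧
      ∫ x, M.dq (M.gB H B ε u) (M.gB H B ε u + H) x ∂M.mu (M.gB H B ε u) ≤ C) :
    ∀ᶠ ε in 𝓝[>] (0 : ℝ), ∀ u, M.SolB H B ε u → ∀ x, ε * M.tr (M.gB H B ε u) H x < 1 := by
  have hric : M.Clo (M.ric H) := (mHES n M).2.2.2.2.2.2.2.2.1 H hH.toMet
  obtain ⟨C₀, hC₀, hr0, -⟩ := (mBD n M H hH.toMet).1 _ (hB.sub hric.toForm)
  obtain ⟨C₅, hC₅, hhH, -⟩ := (mBD n M H hH.toMet).1 _ hh.toForm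
  obtain ⟨C₆, hC₆, hHh, -⟩ := (mBD n M h hh).1 _ hH.toMet.toForm
  obtain ⟨C₄, hC₄, -, hps⟩ := mPSH n M H (C₀ + 1) hH.toMet
  set C₃ : ℝ := C₅ * ((|C| + 1) / c) with hC₃
  have hC₃0 : 0 < C₃ := by positivity
  set A₀ : ℝ := n + (n * Real.log C₁ + C₁ + C₄ * (1 + Real.log ((C₄ + 1) * C₂))) with hA₀
  set A₁ : ℝ := n + C₄ * N with hA₁
  filter_upwards [ev_small (C₆ * (2 + 3 * (C₃ * A₀))) (C₆ * (3 * C₃ * A₁)),
    Ioc_mem_nhdsGT (zero_lt_one' ℝ)] with ε hsm hε u hu x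
  obtain ⟨hlap, hub⟩ := hs ε hε u hu
  have hg := hg ε hε u hu
  obtain ⟨hv1, hv2⟩ := hv ε hε u hu
  have hgE : M.gB H B ε u = ε • H + B - M.ric H + M.hs u := rfl
  have hG := hu.kae
  have hdet := hu.det
  generalize M.gB H B ε u = G at *
  have hvol : ∀ f : M.X → ℝ, ∫ y, f y ∂M.mu G = ∫ y, f y * Real.exp (u y) ∂M.mu H := fun f => by
    rw [((mMU n M H hH.toMet).2.2.2.2.2.2 G hG.toMet).2.1 f]
    exact integral_congr_ae (Eventually.of_forall fun y => by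
      beta_reduce
      rw [hdet y, mul_comm])
  have hn' : (1 : ℝ) ≤ n := by exact_mod_cast hn
  have hl : 0 ≤ -Real.log ε := neg_nonneg.2 (Real.log_nonpos hε.1.le hε.2)
  have hC24 : 1 ≤ (C₄ + 1) * C₂ := by nlinarith
  have hA0 : 0 < A₀ := by
    have := Real.log_nonneg hC₁
    have := Real.log_nonneg hC24
    positivity
  have hA1 : 0 ≤ A₁ := by positivity
  have ha : 0 < A₀ + A₁ * -Real.log ε := by positivity
  have hS1 : M.Sm (M.tr G h) := ((mINV n M G hG.toMet).1 _ hh.toTen).2.1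
  have hS2 : M.Sm (M.tr G H) := ((mINV n M G hG.toMet).1 _ hH.toMet.toTen).2.1
  obtain ⟨x₀, hx₀⟩ := hS1.exists_max
  have hfin : M.tr G h x₀ ≤ 2 + 3 * (C₃ * (A₀ + A₁ * -Real.log ε)) →
      ε * M.tr G H x < 1 := fun hle => by
    have h1 := hG.toMet.tr_mono hHh x
    rw [tr_smul] at h1
    have h2 := mul_le_mul_of_nonneg_left ((hx₀ x).trans hle) hC₆.le
    refine lt_of_le_of_lt (mul_le_mul_of_nonneg_left (h1.trans (h2.trans_eq ?_)) hε.1.le) hsm
    ring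
  refine hfin ?_
  by_contra hbig
  rw [not_le] at hbig
  have hpos : 0 < C₃ * (A₀ + A₁ * -Real.log ε) := by positivity
  -- the bump function
  have hε1 : 1 ≤ ε⁻¹ ^ N := one_le_pow₀ ((one_le_inv₀ hε.1).2 hε.2)
  have hD : 1 ≤ (C₄ + 1) * C₂ * ε⁻¹ ^ N := by nlinarith
  obtain ⟨β₀, hβs, hβ0, hβ1, hβl, hβp⟩ := hps x₀ ((C₄ + 1) * C₂ * ε⁻¹ ^ N)⁻¹ (by positivity)
    (inv_le_one_of_one_le₀ hD)
  have hlog : Real.log ((C₄ + 1) * C₂ * ε⁻¹ ^ N)⁻¹ =
      -(Real.log ((C₄ + 1) * C₂) + N * -Real.log ε) := by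
    rw [Real.log_inv, Real.log_mul (by positivity) (by positivity), Real.log_pow, Real.log_inv]
  have hnear : ∀ y, β₀ y ≠ 0 → M.tr G h x₀ - 1 ≤ M.tr G h y := fun y hy => by
    have h1 := (abs_le.1 (hβl _ (C₂ * ε⁻¹ ^ N) hS1 (by positivity) hg y hy)).1
    have h2 : C₄ * (C₂ * ε⁻¹ ^ N) * ((C₄ + 1) * C₂ * ε⁻¹ ^ N)⁻¹ ≤ 1 := by
      rw [← div_eq_mul_inv, div_le_one (by positivity)]
      have : 0 ≤ C₂ * ε⁻¹ ^ N := by positivity
      nlinarith
    linarith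
  have hβ : M.Sm fun y => β₀ y * Real.exp (-u y) := hβs.mul hu.sm.neg.exp
  have hch : ∀ f : M.X → ℝ, ∫ y, β₀ y * Real.exp (-u y) * f y ∂M.mu G =
      ∫ y, β₀ y * f y ∂M.mu H := fun f => by
    rw [hvol]
    refine integral_congr_ae (Eventually.of_forall fun y => ?_)
    beta_reduce
    rw [Real.exp_neg]
    field_simp
  have hβ1' : ∫ y, β₀ y * Real.exp (-u y) ∂M.mu G = 1 := by
    simpa [hβ1] using hch fun _ => 1
  have hβ0' : ∀ y, 0 ≤ β₀ y * Real.exp (-u y) := fun y => mul_nonneg (hβ0 y) (Real.exp_pos _).le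
  obtain ⟨ρ, hρs, hρ0, hρ1, hρv, -⟩ := hRH n M G _ hn hG hβ hβ0' hβ1'
  have iG : ∀ f : M.X → ℝ, M.Sm f → Integrable f (M.mu G) := fun f hf =>
    (mMU n M G hG.toMet).2.2.2.2.1 ℝ f hf.continuous
  have iH : ∀ f : M.X → ℝ, M.Sm f → Integrable f (M.mu H) := fun f hf =>
    (mMU n M H hH.toMet).2.2.2.2.1 ℝ f hf.continuous
  -- the integral bound
  have hint := hP n M G H ρ (A₀ + A₁ * -Real.log ε) hn hG hH.toClo hH.toMet.nonneg hρs hρ0
      fun v hv hk => by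
    have hψ := hu.sm.add hv
    obtain ⟨y₀, hy₀⟩ := hψ.exists_max
    have hψ0 : M.Sm fun y => u y + v y - (u y₀ + v y₀) := hψ.sub (sm_const _)
    have hle : M.Le 0 ((C₀ + 1) • H + M.hs fun y => u y + v y - (u y₀ + v y₀)) := by
      intro e he z hz
      have e1 := ((mLAP n M _ _ hψ (sm_const (u y₀ + v y₀))).1 (u y₀ + v y₀) e he z hz)
      have e2 := ((mLAP n M _ _ hu.sm hv).1 0 e he z hz).2.1
      have e3 := ((hk.pos e he z hz).posSemidef.add (hr0 e he z hz)).add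
        (psd_rsmul (hH.pos e he z hz).posSemidef (sub_nonneg.2 hε.2))
      simp only [Pi.add_apply, Pi.smul_apply, Pi.zero_apply, sub_zero]
      rw [e1.2.2.1, e1.1, e2]
      simp only [hgE, Pi.add_apply, Pi.sub_apply, Pi.smul_apply] at e3
      rwa [show (C₀ + 1) • H e z + (M.hs u e z + M.hs v e z - 0) =
        ε • H e z + B e z - M.ric H e z + M.hs u e z + M.hs v e z +
          (C₀ • H e z - (B e z - M.ric H e z)) + (1 - ε) • H e z by rw [add_smul, sub_smul]; abel]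
    have hm : ∀ y, u y + v y - (u y₀ + v y₀) ≤ 0 := fun y => sub_nonpos.2 (hy₀ y)
    have h1 := hβp _ hψ0 hle hm ⟨y₀, sub_self _⟩
    rw [← hch] at h1
    have h2 := pair (a := -(n * Real.log (ε / C₁))) hρ0 hβ0' (iG _ hρs) (iG _ hβ)
      (iG _ (hv.mul (hρs.sub hβ))) (iG _ (hβ.mul hψ0)) hρ1 hβ1' hm
      (fun y => by rw [neg_neg]; exact (hub y).1) (fun y => (hub y).2) h1
    rw [hρv v hv]
    rw [hlog, Real.log_div hε.1.ne' (by positivity)] at h2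
    rw [hA₀, hA₁]
    linarith
  have hI0 : 0 ≤ ∫ y, ρ y * M.tr G H y ∂M.mu G :=
    integral_nonneg fun y => mul_nonneg (hρ0 y) (hG.toMet.tr_nonneg hH.toMet.nonneg y)
  have hI1 : ∫ y, ρ y * M.tr G H y ∂M.mu G ≤ (|C| + 1) / c * (A₀ + A₁ * -Real.log ε) := by
    have h1 := (mul_le_mul_of_nonneg_right hv1 hI0).trans (hint.trans
      (mul_le_mul_of_nonneg_left (hv2.trans ((le_abs_self C).trans (le_add_of_nonneg_right
        zero_le_one))) ha.le))
    rw [div_mul_eq_mul_div, le_div_iff₀ hc]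
    linarith
  have hL : M.Sm (M.lap G (M.tr G h)) :=
    ((mINV n M G hG.toMet).1 _ ((mHES n M).1 _ hS1).toTen).2.1
  have hJ : ∫ y, β₀ y * M.tr G h y ∂M.mu H ≤ 2 * ∫ y, ρ y * M.tr G h y ∂M.mu G := by
    have e1 := hρv _ hS1
    have e2 : ∫ y, ρ y * M.tr G (G + M.hs (M.tr G h)) y ∂M.mu G =
        n + ∫ y, ρ y * M.lap G (M.tr G h) y ∂M.mu G := by
      simp only [tr_add, hG.toMet.tr_self, mul_add]
      change ∫ y, ρ y * n + ρ y * M.lap G (M.tr G h) y ∂M.mu G = _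
      rw [integral_add ((iG _ hρs).mul_const _) (iG _ (hρs.mul hL)), integral_mul_const, hρ1,
        one_mul]
    have e3 : ∫ y, M.tr G h y * (ρ y - β₀ y * Real.exp (-u y)) ∂M.mu G =
        ∫ y, ρ y * M.tr G h y ∂M.mu G - ∫ y, β₀ y * M.tr G h y ∂M.mu H := by
      rw [← hch, ← integral_sub (iG _ (hρs.mul hS1)) (iG _ (hβ.mul hS1))]
      exact integral_congr_ae (Eventually.of_forall fun y => by ring)
    have e4 := integral_mono (iG _ (hρs.mul hS1)).neg (iG _ (hρs.mul hL)) fun y => by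
      have := mul_le_mul_of_nonneg_left (hlap y) (hρ0 y)
      simpa using this
    rw [integral_neg'] at e4
    linarith
  have h1 : M.tr G h x₀ - 1 ≤ ∫ y, β₀ y * M.tr G h y ∂M.mu H := by
    have h := integral_mono ((iH _ hβs).mul_const (M.tr G h x₀ - 1))
      (iH _ (hβs.mul hS1)) fun y => by
        beta_reduce
        by_cases hy : β₀ y = 0
        · rw [hy, zero_mul, zero_mul]
        · exact mul_le_mul_of_nonneg_left (hnear y hy) (hβ0 y)
    rwa [integral_mul_const, hβ1, one_mul] at h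
  have h2 : ∫ y, ρ y * M.tr G h y ∂M.mu G ≤ C₃ * (A₀ + A₁ * -Real.log ε) := by
    have h := integral_mono (iG _ (hρs.mul hS1)) ((iG _ (hρs.mul hS2)).const_mul C₅) fun y => by
      have h3 := hG.toMet.tr_mono hhH y
      rw [tr_smul] at h3
      have := mul_le_mul_of_nonneg_left h3 (hρ0 y)
      beta_reduce
      linarith
    rw [integral_const_mul] at h
    refine h.trans ((mul_le_mul_of_nonneg_left hI1 hC₅.le).trans_eq ?_)
    rw [hC₃]
    ring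
  linarith

end T91

theorem st_TSM (hSW : St_TSW) : St_TSM := by
  intro n M _ H h B c C hn hH hh hg hB hB0 hc hv
  obtain ⟨C₁, hC₁, hs⟩ := T91.tsb hSW M hn hH hh hg hB hB0
  obtain ⟨C₂, N, hC₂, q⟩ := G94.gen HS.asCALG M hn hH hh.toForm hB.toForm hC₁
  refine T91.core1 (N := N) HS.asRHO HS.asPOP M hn hH hh hB.toForm hc hC₁ hC₂
    (fun ε hε u hu => ⟨(hs ε hε u hu).2.1, (hs ε hε u hu).2.2.2.2⟩) (fun ε hε u hu x => ?_) hv
  obtain ⟨ric, -, lo, up, -⟩ := hs ε hε u hu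
  exact q ε hε _ hu.kae ric lo up x

end Pool.Agent.Lib.TB
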