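import Pool.Agent.Lib.TB.Blue
import Pool.Agent.Lib.RB.Nef

/-! Project tb33: the Schwarz lemma, without logarithm. -/

open scoped Classical Topology ContDiff ComplexOrder Matrix
open Set MeasureTheory Complex Metric Filter

noncomputable section

namespace Pool.Agent.Lib.TB

open Pool.Agent.Lib.SV (E)
open Pool.Agent.Lib.HS32 Pool.Agent.Lib.HS32.Mf Pool.Agent.Lib.HS76

theorem st_TSW : St_TSW := by
  intro n M _ H h hn hH hh hc
  obtain ⟨a, ha, h1, -⟩ := (mBD n M H hH).1 h hh.toForm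
  obtain ⟨b, hb, h2, -⟩ := (mBD n M h hh).1 H hH.toForm
  have hn' : (0 : ℝ) < n := Nat.cast_pos.2 hn
  have p1 : 0 < n * a := by positivity
  have p2 : 0 < n * a * b := by positivity
  refine ⟨1 + n * a + n * a * b, by linarith, fun G T ε hε hG hT hr => ?_⟩
  have s1 : M.Sm (M.tr G h) := ((mINV n M _ hG.toMet).1 h hh.toTen).2.1
  have s2 : ∀ x, 0 < M.tr G h x := fun x => by
    have : Nonempty (Fin n) := ⟨⟨0, hn⟩⟩
    exact HS76.tr_pos (hG.toMet.ev_pos x) (hh.ev_pos x)
  have key : ∀ x, ε * M.tr G h x ≤ n * a := fun x => by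
    obtain ⟨y, hy⟩ := s1.exists_max
    have q1 := ((((mLAP n M _ _ s1 s1).2.2 _ hG.toMet).2.2.1 y 0).2.2.2.2.2.2.2.2.1
      (Eventually.of_forall hy)).1
    have q2 : M.ip G h (M.ric G) y ≤ 0 := (sub_nonneg.1 (hc G hG y)).trans q1
    rw [ip_congr (S' := h) (T' := T - G) (fun _ _ _ _ => rfl) (fun _ _ _ _ => rfl) hr, ip_sub,
      hG.toMet.ip_self] at q2
    have q3 := RB.ip_mono hG.toMet hh hT y
    have q4 := RB.ip_mono hG.toMet hh h1 y
    rw [ip_smul] at q3 q4
    have q5 := tr_sq_le (hG.toMet.ev_pos y) (hh.ev_pos y).1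
    rw [Fintype.card_fin, ← mul_assoc] at q5
    have q6 : M.tr G h y ^ 2 ≤ n * M.ip G h h y := q5
    refine (mul_le_mul_of_nonneg_left (hy x) hε.le).trans (le_of_mul_le_mul_right ?_ (s2 y))
    have q7 := mul_le_mul_of_nonneg_left q6 hε.le
    have q8 := mul_le_mul_of_nonneg_left q4 (mul_pos hε hn').le
    have q9 := mul_le_mul_of_nonneg_left (q3.trans (sub_nonpos.1 q2)) p1.le
    nlinarith
  refine ⟨fun x => by linarith [key x], Le.trans (hH.le_smul (b := ε / (n * a * b))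
    (div_le_div_of_nonneg_left hε.le p2 (by linarith))) fun e he z hz => ?_⟩
  have q1 := key (e.symm z)
  rw [((mINV n M _ hG.toMet).1 h hh.toTen).1 e he z hz, ← le_div_iff₀' hε] at q1
  have q2 : ((n * a / ε : ℝ) • G e z - h e z).PosSemidef :=
    le_tr_smul (hG.pos e he z hz) (hh.pos e he z hz).posSemidef q1
  have q3 := (psd_rsmul q2 (div_pos hε p1).le).add (psd_rsmul (h2 e he z hz) (div_pos hε p2).le)
  simp only [Pi.smul_apply, smul_sub, smul_smul] at q3 ⊢
  rwa [show ε / (n * a) * (n * a / ε) = 1 by field_simp, one_smul,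
    show ε / (n * a * b) * b = ε / (n * a) by field_simp, sub_add_sub_cancel] at q3

end Pool.Agent.Lib.TB
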