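import Pool.Agent.Lib.TB.Blue
import Pool.Agent.Lib.RB.B_RCL
import Pool.Agent.Lib.RB.B_RT1
import Pool.Agent.Lib.RB.B_RT2

/-! Project tb33: the telescoping sum for the trace plus its square. -/

open scoped Classical Topology ContDiff ComplexOrder Matrix
open Set MeasureTheory Complex Metric Filter

noncomputable section

namespace Pool.Agent.Lib.TB

open Pool.Agent.Lib.SV (E)
open Pool.Agent.Lib.HS32 Pool.Agent.Lib.HS32.Mf Pool.Agent.Lib.GH Pool.Agent.Lib.RB

namespace T76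

variable {n : ℕ} {M : Mf n} {G h : M.Fam (Mat n)}

theorem sm_yS (hG : M.Kae G) (hh : M.Met h) (ε : ℝ) : M.Sm (M.yS G h ε) := by
  obtain ⟨h1, h2, -⟩ := st_RCL n M G h hG hh
  exact (h2.const_mul ε).add (((mLAP n M _ _ h1 h1).2.2 G hG.toMet).2.1.const_mul (ε ^ 2))

theorem le_yS (hG : M.Kae G) (hh : M.Met h) (ε : ℝ) (x : M.X) :
    ε * M.yT G h x ≤ M.yS G h ε x := by
  have h1 := (st_RCL n M G h hG hh).1
  exact le_add_of_nonneg_right (mul_nonneg (sq_nonneg ε)
    (((mLAP n M _ _ h1 h1).2.2 G hG.toMet).2.2.1 x 0).2.2.2.2.2.2.1)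

theorem step {G' : M.Fam (Mat n)} (hG : M.Kae G) (hG' : M.Kae G') (hh : M.Met h) (hy : M.Yp h)
    (hr : M.All fun e z => M.ric G' e z = (1 / 2 : ℝ) • G e z - G' e z) {c : ℝ} (hc : 0 < c)
    (x : M.X) :
    c * M.tr G' h x + c ^ 2 * (M.tr G' h x * M.tr G' h x) -
        M.lap G' (fun y => c * M.tr G' h y + c ^ 2 * (M.tr G' h y * M.tr G' h y)) x ≤
      2 * c * M.tr G h x + (2 * c) ^ 2 * (M.tr G h x * M.tr G h x) - M.yS G' h c x := by
  have s1 := (st_RCL n M G' h hG' hh).1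
  have l1 := ((mLAP n M _ _ s1 s1).2.2 G' hG'.toMet).2.2.1 x c
  have l2 := ((mLAP n M _ _ (s1.mul s1) s1).2.2 G' hG'.toMet).2.2.1 x (c ^ 2)
  have l3 := ((mLAP n M _ _ (s1.const_mul c) ((s1.mul s1).const_mul (c ^ 2))).2.2 G'
    hG'.toMet).2.2.1 x c
  rw [l3.2.1, l1.2.2.2.1, l2.2.2.2.1, l1.2.2.2.2.1, Mf.yS]
  have h1 := R27.lap_ge hG.toMet hG'.toMet hh hr x
  have h2 := hy G' hG' x
  have h3 := hG'.toMet.tr_nonneg hh.nonneg x
  have h4 := mul_nonneg (sq_nonneg c) l1.2.2.2.2.2.2.1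
  have h5 := mul_le_mul_of_nonneg_left h1 hc.le
  have h6 := mul_le_mul_of_nonneg_left
    (show M.tr G' h x - 2 * M.tr G h x ≤ M.lap G' (M.tr G' h) x by linarith)
    (mul_nonneg (sq_nonneg c) h3)
  have h7 := mul_nonneg (sq_nonneg c) (sq_nonneg (M.tr G' h x - 2 * M.tr G h x))
  nlinarith

end T76

open R10b in
theorem st_TT2 : St_TT2 := by
  intro n M _ h g hh hy hg hric
  have st := fun j => (st_RCL n M _ h (hg j) hh).1
  have t0 := fun j x => (hg j).toMet.tr_nonneg hh.nonneg x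
  obtain ⟨x₀, hx₀⟩ := (st 0).exists_max
  obtain ⟨S, hS, a2⟩ : ∃ S : ℝ, 1 ≤ S ∧ ∀ j x, (1 / 2) ^ j * M.tr (g j) h x ≤ S := by
    refine ⟨max 1 (M.tr (g 0) h x₀), le_max_left _ _, fun j x => ?_⟩
    refine RB27.max_seq (S := fun j x => (1 / 2) ^ j * M.tr (g j) h x) (fun j => (hg j).toMet)
      (fun j => (st j).const_mul _) (fun j x => ?_) (fun x => ?_) j x
    · have h2 := (((mLAP n M _ _ (st (j + 1)) (st (j + 1))).2.2 _ (hg (j + 1)).toMet).2.2.1 x
        ((1 / 2) ^ (j + 1))).2.2.2.1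
      have h4 : M.tr (g (j + 1)) h x - 2 * M.tr (g j) h x ≤
          M.lap (g (j + 1)) (M.tr (g (j + 1)) h) x := by
        linarith [R27.lap_ge (hg j).toMet (hg (j + 1)).toMet hh (hric j) x, hy _ (hg (j + 1)) x]
      have h6 := mul_le_mul_of_nonneg_left h4 (pow_pos one_half_pos (j + 1)).le
      rw [h2]
      rw [pow_succ] at h6 ⊢
      linarith
    · rw [pow_zero, one_mul]
      exact le_max_of_le_right (hx₀ x)
  refine ⟨S + S ^ 2, by nlinarith, fun j x => (a2 j x).trans (by nlinarith), fun m r hm hc => ?_⟩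
  set U : ℕ → M.X → ℝ := fun j x =>
    (1 / 2) ^ j * M.tr (g j) h x + ((1 / 2) ^ j) ^ 2 * (M.tr (g j) h x * M.tr (g j) h x) with hU
  have sU : ∀ j, M.Sm (U j) := fun j =>
    ((st j).const_mul _).add (((st j).mul (st j)).const_mul _)
  have sr := fun j => (hc.sm j).mul (sU j)
  refine tele (s := fun j => M.mn (g (j + 1)) fun x => r j x * U j x) hm (fun j hj => ?_) ?_ ?_
  · have sy := (hc.sm j).mul (T76.sm_yS (hg (j + 1)) hh ((1 / 2) ^ (j + 1)))
    have b1 := mono (hg (j + 1)).toMet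
      ((hc.sm j).mul ((sU (j + 1)).sub (RB27.sm_lap (hg (j + 1)).toMet (sU (j + 1)))))
      (((sr j).const_mul 1).sub (sy.const_mul 1)) fun x => by
        have h1 := T76.step (hg j) (hg (j + 1)) hh hy (hric j) (pow_pos one_half_pos (j + 1)) x
        rw [show (2 : ℝ) * (1 / 2) ^ (j + 1) = (1 / 2) ^ j by ring] at h1
        have := mul_le_mul_of_nonneg_left h1 (hc.pos j x).le
        simp only [hU]
        linarith
    rw [hc.dual j hj _ (sU (j + 1)), lin (hg (j + 1)).toMet (sr j) sy, one_mul, one_mul] at b1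
    exact b1
  · exact div_nonneg (integral_nonneg fun x => mul_nonneg (hc.pos _ x).le
      (add_nonneg (mul_nonneg (by positivity) (t0 _ x))
        (mul_nonneg (sq_nonneg _) (mul_self_nonneg _)))) measureReal_nonneg
  · have b1 := mono (hg (m + 1)).toMet (sr m)
      (((hc.sm m).const_mul (S + S ^ 2)).sub ((sr m).const_mul 0)) fun x => by
        have h1 : U m x ≤ S + S ^ 2 := by
          have h2 := a2 m x
          have h3 := pow_le_pow_left₀ (mul_nonneg (by positivity) (t0 m x)) h2 2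
          simp only [hU]
          nlinarith
        have := mul_le_mul_of_nonneg_left h1 (hc.pos m x).le
        linarith
    rw [lin (hg (m + 1)).toMet (hc.sm m) (sr m), hc.one m (by omega)] at b1
    linarith

end Pool.Agent.Lib.TB
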