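import Pool.Agent.Lib.TB.Blue
import Pool.Agent.Lib.RB.TAll

/-! Project tb: from the flat field and the positive volume to the semi-ampleness. -/

open scoped Classical Topology ContDiff ComplexOrder Matrix
open Set MeasureTheory Complex Metric Filter

noncomputable section

namespace Pool.Agent.Lib.TB

open Pool.Agent.Lib.SV (E)
open Pool.Agent.Lib.HS32 Pool.Agent.Lib.HS32.Mf Pool.Agent.Lib.GH Pool.Agent.Lib.RB

theorem st_TTL (hEX : St_TEX) (hSM : TB.St_TSM) : St_TTL := by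
  intro n M _ H h P k hn hH hh hy hf hv
  obtain ⟨a1, a2, a3, -, a4⟩ := st_GPRD n M h P k hh hf
  have hex := (hEX n M H h hn hH hh hy).2 (h * P) a2 a3
  obtain ⟨c, C, hc0, hb⟩ := big hH hh a2 hex hv
  obtain ⟨ε, h1, hε⟩ :=
    ((hSM n M H h _ c C hn hH hh hy a2 a3 hc0 hb).and self_mem_nhdsWithin).exists
  obtain ⟨u, hu⟩ := hex ε hε
  obtain ⟨v, v1, v2, v3⟩ := stGKE HS.asAUBIN n M H h _ ε u hn hH hh a2 hε hu (h1 u hu)
  have v4 := st_GUT' n M h P k v hh hf a1 v1 v2 v3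
  obtain ⟨G, hG⟩ := st_GPOS' n M h P k v hh hf a1 v1 v2 v3 fun e he z hz => by
    simp only [Mf.theta, Pi.sub_apply]
    rw [sub_mul, v4 e he z hz, a4 e he z hz, sub_self]
  exact HS.asPEAK n M _ _ hn hG.kH hG.sm hG.psd (HS.asSEC4 n M _ P G k _ hn hG)

end Pool.Agent.Lib.TB
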