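import Pool.Agent.Lib.RB.All
import Pool.Agent.Lib.TB.B_TAL
import Pool.Agent.Lib.TB.B_TB1
import Pool.Agent.Lib.TB.B_TBR
import Pool.Agent.Lib.TB.B_TCA
import Pool.Agent.Lib.TB.B_TCL
import Pool.Agent.Lib.TB.B_TDB
import Pool.Agent.Lib.TB.B_TEX
import Pool.Agent.Lib.TB.B_TFL
import Pool.Agent.Lib.TB.B_TGL
import Pool.Agent.Lib.TB.B_TKE
import Pool.Agent.Lib.TB.B_TKL
import Pool.Agent.Lib.TB.B_TLM
import Pool.Agent.Lib.TB.B_TLO
import Pool.Agent.Lib.TB.B_TLQ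
import Pool.Agent.Lib.TB.B_TM1
import Pool.Agent.Lib.TB.B_TMN
import Pool.Agent.Lib.TB.B_TNT
import Pool.Agent.Lib.TB.B_TP1
import Pool.Agent.Lib.TB.B_TP2
import Pool.Agent.Lib.TB.B_TSM
import Pool.Agent.Lib.TB.B_TSQ
import Pool.Agent.Lib.TB.B_TSW
import Pool.Agent.Lib.TB.B_TT2
import Pool.Agent.Lib.TB.B_TTL
import Pool.Agent.Lib.TB10.M2

/-! Project tb33: assembly of all rows. -/

open scoped Manifold ContDiff

namespace Pool.Agent.Lib.TB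

open Pool.Agent.Lib.SV (E Pluri)
open Pool.Agent.Lib.HS32 Pool.Agent.Lib.GH Pool.Agent.Lib.RB

theorem aTEX : St_TEX :=
  st_TEX st_TSW
theorem aTTL : St_TTL :=
  st_TTL aTEX (TB.st_TSM st_TSW)
theorem aTSQ : St_TSQ :=
  st_TSQ aRCH aRNO aRC0 aRC1 aRON
theorem aTLO : St_TLO :=
  st_TLO st_TLM st_TDB st_TCL
theorem aTLQ : St_TLQ :=
  st_TLQ aGLIM aGME aRDB st_TCL st_TNT (st_TP1 st_TCL) (st_TP2 st_TCL)
theorem aTKE : St_TKE :=
  st_TKE st_TCA st_TAL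
theorem aTMN : St_TMN :=
  st_TMN aRDB st_TDB
theorem aTKL : St_TKL :=
  st_TKL aRVO aTMN aRPA
theorem aTB1 : St_TB1 :=
  st_TB1 aTMN aRCT aRPA

/-- A compact Kähler manifold with a Hermitian metric of non-positive tempered real bisectional
curvature has a semi-ample canonical bundle. -/
theorem main (n : ℕ) (X : Type) [TopologicalSpace X] [ChartedSpace (E n) X]
    [IsManifold 𝓘(ℂ, E n) ω X] [CompactSpace X] [T2Space X] [ConnectedSpace X] (g h : X → Mat n)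
    (hg : Kaehler g) (hh : Hermitian h) (hc : TemperedNonpos h) :
    ∃ m : ℕ, 0 < m ∧ ∀ x : X, ∃ s ∈ Pluri n X m, s x ≠ 0 :=
  TB.main_of st_TBR st_TCL aTTL (fun M _ _ _ => TB.fl1_of HS.asVOL st_TCL aTEX aRIT aRDE aTSQ aRDB
    aTLO st_TGL aRPA aTLQ aTKE st_TM1 T10.tm2 aRPJ aTKL st_TFL aGT1 aGPRD aTB1 M) n X g h hg hh hc

end Pool.Agent.Lib.TB
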