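import Pool.Agent.Lib.TB.SDefs
import Pool.Agent.Lib.RB.Blue
import Pool.Agent.Lib.HS76.Pt

/-! Project tb33: the objects. -/

open scoped Classical Topology ContDiff ComplexOrder Matrix
open Set MeasureTheory Complex Metric Filter

set_option linter.unusedVariables false

noncomputable section

namespace Pool.Agent.Lib.HS32

open Pool.Agent.Lib.SV (E)

section euc

variable {n : ℕ}

/-- The torsion matrices: `tm h k z` maps `b` to `T(e_k, b)`. -/
def tm (h : E n → Mat n) (k : Fin n) (z : E n) : Mat n :=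
  Matrix.of fun i j => gam h k z i j - gam h j z i k

/-- The symmetric part of the connection. -/
def gs (h : E n → Mat n) (k : Fin n) (z : E n) : Mat n := gam h k z - (1 / 2 : ℝ) • tm h k z

/-- The curvature matrices of the symmetric part of the connection. -/
def ths (h : E n → Mat n) (k l : Fin n) (z : E n) : Mat n := -dMb l (gs h k) z

/-- The difference of the connection of `G` and of the symmetric part of the connection of `h`. -/
def dsy (G h : E n → Mat n) (k : Fin n) (z : E n) : Mat n := gam G k z - gs h k z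

/-- The curvature tensor contracted with `ξ` in the form indices and with `η` in the others. -/
def rx (h : E n → Mat n) (ξ η : Mat n) (z : E n) : ℝ :=
  (∑ k, ∑ l, ξ k l * (η * h z * th h k l z).trace).re

/-- The squared norm of the torsion, measured with `ξ`, `η` and `h`. -/
def tq (h : E n → Mat n) (ξ η : Mat n) (z : E n) : ℝ :=
  (HS76.ip3 ξ η (h z) (fun k => tm h k z) fun k => tm h k z).re

/-- Minus the tempered curvature, as a bilinear form. -/
def bx (h : E n → Mat n) (ξ η : Mat n) (z : E n) : ℝ :=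
  tq h ξ η z / 4 - (rx h ξ η z + rx h η ξ z) / 2

/-- The squared norm of the symmetric difference tensor. -/
def es (G h : E n → Mat n) (z : E n) : ℝ :=
  (HS76.ip3 (G z)⁻¹ (G z)⁻¹ (h z) (fun k => dsy G h k z) fun k => dsy G h k z).re

/-- The field `Q h⁻¹` is parallel for the symmetric part of the connection. -/
def Pde (h Q : E n → Mat n) (z : E n) : Prop :=
  (∀ k, dM k Q z = Q z * gam h k z - gs h k z * Q z) ∧
    ∀ l, dMb l Q z = (1 / 2 : ℝ) • (Q z * ((h z)⁻¹ * (tm h l z)ᴴ * h z))

/-- The closed conditions for the limit. -/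
structure Cls (h : E n → Mat n) (Q : Mat n) (z : E n) : Prop where
  psd : (h z * Q).PosSemidef
  trc : ∀ k, (tm h k z * Q).trace = 0
  b0 : bx h (Q * (h z)⁻¹) (Q * (h z)⁻¹) z ≤ 0
  b1 : bx h (Q * (h z)⁻¹) (h z)⁻¹ z ≤ 0

end euc

namespace Mf

variable {n : ℕ} (M : Mf n)

/-- Non-positive tempered real bisectional curvature. -/
def Trb (h : M.Fam (Mat n)) : Prop :=
  M.All fun e z => ∀ ξ : Mat n, ξ.PosSemidef → 0 ≤ bx (h e) ξ ξ z

/-- The inequality of Chern and Lu, without logarithm. -/
def Yp (h : M.Fam (Mat n)) : Prop := ∀ G, M.Kae G → ∀ x, 0 ≤ M.yT G h x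

/-- The quantity that tends to zero. -/
def yS (G h : M.Fam (Mat n)) (ε : ℝ) (x : M.X) : ℝ :=
  ε * M.yT G h x + ε ^ 2 * M.gr G (M.tr G h) (M.tr G h) x

/-- The good sequence, with more information. -/
structure Gt (H h : M.Fam (Mat n)) (k : ℕ) (C : ℝ) (g : ℕ → M.Fam (Mat n)) (ε : ℕ → ℝ)
    (φ f : ℕ → M.X → ℝ) : Prop extends M.Gs H h k C g ε φ f where
  np : ∀ i x, φ i x ≤ 0
  zer : ∀ i, ∃ x, φ i x = 0
  le : ∀ i, M.Le 0 (C • H + M.hs (φ i))
  low : ∀ i x, Real.exp (φ i x) * M.vv (g i) ≤ C * M.dq H (g i) x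
  fz : Tendsto (fun i => ∫ x, f i x * M.yS (g i) h (ε i) x ∂M.mu H) atTop (𝓝 0)

end Mf

end Pool.Agent.Lib.HS32
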