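import Pool.Agent.Lib.TB.Defs

/-! Project tb33: blueprint. -/

open scoped Classical Topology ContDiff ComplexOrder Matrix Manifold ENNReal
open Set MeasureTheory Complex Metric Filter

noncomputable section

namespace Pool.Agent.Lib.TB

open Pool.Agent.Lib.SV (E Pluri)
open Pool.Agent.Lib.HS32 Pool.Agent.Lib.GH Pool.Agent.Lib.RB

/-- From the statement to the manifold layer and back. -/
def St_TBR : Prop := ∀ (n : ℕ) (X : Type) [TopologicalSpace X] [ChartedSpace (E n) X]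
  [IsManifold 𝓘(ℂ, E n) ω X] [CompactSpace X] [T2Space X] [ConnectedSpace X] (g h : X → Mat n),
  Kaehler g → Hermitian h → TemperedNonpos h →
  ∃ (M : Mf n) (_ : M.Cpt) (H h' : M.Fam (Mat n)), M.Kae H ∧ M.Met h' ∧ M.Trb h' ∧
    (M.Semi → ∃ m : ℕ, 0 < m ∧ ∀ x : X, ∃ s ∈ Pluri n X m, s x ≠ 0)

/-! ### The identity of Chern and Lu, existence, last steps -/

/-- The splitting of the gradient term. -/
def St_TCL : Prop := ∀ (n : ℕ) (M : Mf n) (h : M.Fam (Mat n)), M.Met h →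
  (∀ G, M.Kae G → M.All fun e z =>
    M.yT G h (e.symm z) = es (G e) (h e) z + bx (h e) (G e z)⁻¹ (G e z)⁻¹ z ∧
      0 ≤ es (G e) (h e) z) ∧
  (M.Trb h → M.Hsc h ∧ M.Yp h)

/-- The Schwarz lemma. -/
def St_TSW : Prop := ∀ (n : ℕ) (M : Mf n) [M.Cpt] (H h : M.Fam (Mat n)), 0 < n → M.Met H →
  M.Met h → M.Yp h → ∃ C : ℝ, 1 ≤ C ∧ ∀ (G T : M.Fam (Mat n)) (ε : ℝ), 0 < ε → M.Kae G →
    M.Le (ε • H) T → (M.All fun e z => M.ric G e z = T e z - G e z) →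
    (∀ x, ε * M.tr G h x ≤ C) ∧ M.Le ((ε / C) • H) G

/-- Existence. -/
def St_TEX : Prop := ∀ (n : ℕ) (M : Mf n) [M.Cpt] (H h : M.Fam (Mat n)), 0 < n → M.Kae H →
  M.Met h → M.Yp h → (∀ ε : ℝ, 0 < ε → ∃ u, M.Sol H ε u) ∧
  ∀ B, M.Clo B → M.Le 0 B → ∀ ε : ℝ, 0 < ε → ∃ u, M.SolB H B ε u

/-- The trace is small. -/
def St_TSM : Prop := ∀ (n : ℕ) (M : Mf n) [M.Cpt] (H h B : M.Fam (Mat n)) (c C : ℝ), 0 < n →
  M.Kae H → M.Met h → M.Yp h → M.Clo B → M.Le 0 B → 0 < c →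
  (∀ ε ∈ Ioc (0 : ℝ) 1, ∀ u, M.SolB H B ε u → c ≤ (M.mu (M.gB H B ε u)).real univ ∧
    ∫ x, M.dq (M.gB H B ε u) (M.gB H B ε u + H) x ∂M.mu (M.gB H B ε u) ≤ C) →
  ∀ᶠ ε in 𝓝[>] (0 : ℝ), ∀ u, M.SolB H B ε u → ∀ x, ε * M.tr (M.gB H B ε u) H x < 1

/-- From the flat field and the positive volume to the conclusion. -/
def St_TTL : Prop := ∀ (n : ℕ) (M : Mf n) [M.Cpt] (H h P : M.Fam (Mat n)) (k : ℕ), 0 < n →
  M.Kae H → M.Met h → M.Yp h → M.Fl1 h P k → 0 < ∫ x, M.dq H (h * P - M.ric h) x ∂M.mu H →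
  M.Semi

/-! ### The good sequence -/

/-- The telescoping sum. -/
def St_TT2 : Prop := ∀ (n : ℕ) (M : Mf n) [M.Cpt] (h : M.Fam (Mat n)) (g : ℕ → M.Fam (Mat n)),
  M.Met h → M.Yp h → (∀ j, M.Kae (g j)) →
  (∀ j, M.All fun e z => M.ric (g (j + 1)) e z = (1 / 2 : ℝ) • g j e z - g (j + 1) e z) →
  ∃ S : ℝ, 1 ≤ S ∧ (∀ j x, (1 / 2) ^ j * M.tr (g j) h x ≤ S) ∧
    ∀ (m : ℕ) (r : ℕ → M.X → ℝ), 0 < m → M.Cn g (2 * m) r → ∃ j, m ≤ j ∧ j < 2 * m ∧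
      M.mn (g (j + 1)) (fun x => r j x * M.yS (g (j + 1)) h ((1 / 2) ^ (j + 1)) x) ≤ S / m

/-- The good sequence. -/
def St_TSQ : Prop := ∀ (n : ℕ) (M : Mf n) [M.Cpt] (H h : M.Fam (Mat n)) (k : ℕ) (C : ℝ)
  (g : ℕ → M.Fam (Mat n)) (φ : ℕ → M.X → ℝ), 0 < n → M.Kae H → M.Met h → M.Yp h →
  M.It H k C g φ → ∃ C' g' ε φ' f, M.Gt H h k C' g' ε φ' f

/-- The null quantity. -/
def St_TNT : Prop := ∀ (n : ℕ) (M : Mf n) [M.Cpt] (H h : M.Fam (Mat n)) (k : ℕ) (C : ℝ)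
  (g : ℕ → M.Fam (Mat n)) (ε : ℕ → ℝ) (φ f : ℕ → M.X → ℝ), M.Kae H → M.Met h → M.Yp h →
  M.Gt H h k C g ε φ f → (∀ i x, 0 ≤ M.yS (g i) h (ε i) x) ∧
    Nl (M.mu H) fun i x => (1 + M.tr h (g i) x) * M.yS (g i) h (ε i) x

/-! ### The smooth limit -/

/-- Local bounds for the fields and for the defect in the equations. -/
def St_TDB : Prop := ∀ (n : ℕ) (M : Mf n) [M.Cpt] (H h : M.Fam (Mat n)), M.Met H → M.Met h →
  ∀ S : ℝ, ∀ e ∈ M.C, ∀ K : Set (E n), IsCompact K → K ⊆ e.target → ∃ C : ℝ, 0 < C ∧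
    (∀ f, M.Sm f → ∀ z ∈ K, ∀ l, ‖dz l (M.lc f e) z‖ ^ 2 ≤ C * M.gr H f f (e.symm z) ∧
      ‖dzb l (M.lc f e) z‖ ^ 2 ≤ C * M.gr H f f (e.symm z)) ∧
    ∀ G (ε : ℝ), M.Kae G → 0 < ε → (∀ x, ε * M.tr G h x ≤ S) → ∀ z ∈ K, ∀ i j,
      ‖M.qE G h ε e z i j‖ ≤ C ∧ ∀ l,
      ‖(dM l (M.qE G h ε e) z -
          (M.qE G h ε e z * gam (h e) l z - gs (h e) l z * M.qE G h ε e z)) i j‖ ^ 2 ≤
        C * (M.tr H G (e.symm z) * (ε * es (G e) (h e) z)) ∧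
      ‖(dMb l (M.qE G h ε e) z -
          (1 / 2 : ℝ) • (M.qE G h ε e z * ((h e z)⁻¹ * (tm (h e) l z)ᴴ * h e z))) i j‖ ^ 2 ≤
        C * (M.tr H G (e.symm z) * (ε * es (G e) (h e) z))

/-- Compactness: a continuous limit in the mean. -/
def St_TLA : Prop := ∀ (n : ℕ) (V : Type) [NormedAddCommGroup V] [NormedSpace ℝ V]
  [FiniteDimensional ℝ V] (l : Ultrafilter ℕ) (u : ℕ → E n → V) (c : E n) (ρ C : ℝ),
  (∀ i, ∀ z ∈ ball c ρ, ContDiffAt ℝ 1 (u i) z ∧ ‖u i z‖ ≤ C) →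
  Tendsto (fun i => ∫⁻ z in ball c ρ, (‖fderiv ℝ (u i) z‖ₑ - ENNReal.ofReal C)) l (𝓝 0) →
  ∃ P : E n → V, ContinuousOn P (ball c ρ) ∧ ∀ K : Set (E n), IsCompact K → K ⊆ ball c ρ →
    Tendsto (fun i => ∫⁻ z in K, ‖u i z - P z‖ₑ) l (𝓝 0)

/-- Regularity: the limit is smooth and solves the equation. -/
def St_TLB : Prop := ∀ (n : ℕ) (V : Type) [NormedAddCommGroup V] [NormedSpace ℝ V]
  [FiniteDimensional ℝ V] (l : Filter ℕ) [l.NeBot] (u : ℕ → E n → V) (P : E n → V)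
  (Φ : E n × V → E n →L[ℝ] V) (c : E n) (ρ C : ℝ),
  (∀ i, ∀ z ∈ ball c ρ, ContDiffAt ℝ 1 (u i) z ∧ ‖u i z‖ ≤ C) →
  (∀ z ∈ ball c ρ, ∀ x, ContDiffAt ℝ ∞ Φ (z, x)) →
  Tendsto (fun i => ∫⁻ z in ball c ρ, ‖fderiv ℝ (u i) z - Φ (z, u i z)‖ₑ) l (𝓝 0) →
  ContinuousOn P (ball c ρ) → (∀ K : Set (E n), IsCompact K → K ⊆ ball c ρ →
    Tendsto (fun i => ∫⁻ z in K, ‖u i z - P z‖ₑ) l (𝓝 0)) →
  ∀ z ∈ ball c ρ, ContDiffAt ℝ ∞ P z ∧ HasFDerivAt P (Φ (z, P z)) z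

/-- The same for matrices and Wirtinger derivatives. -/
def St_TLM : Prop := ∀ (n : ℕ) (l : Ultrafilter ℕ) (u : ℕ → E n → Mat n)
  (A B A' : Fin n → E n → Mat n) (c : E n) (ρ C : ℝ),
  (∀ i, ∀ z ∈ ball c ρ, SmM (u i) z ∧ ∀ p q, ‖u i z p q‖ ≤ C) →
  (∀ k, ∀ z ∈ closedBall c ρ, SmM (A k) z ∧ SmM (B k) z ∧ SmM (A' k) z) →
  (∀ k p q, Tendsto (fun i => ∫⁻ z in ball c ρ,
    ‖(dM k (u i) z - (u i z * A k z - B k z * u i z)) p q‖ₑ) l (𝓝 0)) →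
  (∀ k p q, Tendsto (fun i => ∫⁻ z in ball c ρ,
    ‖(dMb k (u i) z - u i z * A' k z) p q‖ₑ) l (𝓝 0)) →
  ∃ P : E n → Mat n, (∀ z ∈ ball c ρ, SmM P z ∧
      ∀ k, dM k P z = P z * A k z - B k z * P z ∧ dMb k P z = P z * A' k z) ∧
    ∀ K : Set (E n), IsCompact K → K ⊆ ball c ρ → ∀ p q,
      Tendsto (fun i => ∫⁻ z in K, ‖(u i z - P z) p q‖ₑ) l (𝓝 0)

/-- The local limit. -/
def St_TLO : Prop := ∀ (n : ℕ) (M : Mf n) [M.Cpt] (H h : M.Fam (Mat n)) (k : ℕ) (C : ℝ)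
  (g : ℕ → M.Fam (Mat n)) (ε : ℕ → ℝ) (φ f : ℕ → M.X → ℝ) (l : Ultrafilter ℕ), M.Kae H →
  M.Met h → M.Trb h → M.Gs H h k C g ε φ f → (l : Filter ℕ) ≤ atTop → ∀ e ∈ M.C,
  ∀ (c : E n) (ρ : ℝ), closedBall c ρ ⊆ e.target →
  ∃ P : E n → Mat n, (∀ z ∈ ball c ρ, SmM P z ∧ Pde (h e) P z) ∧
    ∀ K : Set (E n), IsCompact K → K ⊆ ball c ρ → ∀ i j,
      Tendsto (fun a => ∫ z in K, ‖(M.qE (g a) h (ε a) e z - P z) i j‖) l (𝓝 0)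

/-- Gluing of smooth local limits. -/
def St_TGL : Prop := ∀ (n : ℕ) (M : Mf n) [M.Cpt] (h : M.Fam (Mat n)) (l : Filter ℕ)
  [l.NeBot] (A : ℕ → M.Fam (Mat n)), M.Met h →
  (∀ a, M.End (A a) ∧ M.All fun e z => (h e z * A a e z).IsHermitian) →
  (∀ e ∈ M.C, ∀ (c : E n) (ρ : ℝ), closedBall c ρ ⊆ e.target →
    ∃ P : E n → Mat n, (∀ z ∈ ball c ρ, SmM P z ∧ Pde (h e) P z) ∧
      ∀ K : Set (E n), IsCompact K → K ⊆ ball c ρ → ∀ i j,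
        Tendsto (fun a => ∫ z in K, ‖(A a e z - P z) i j‖) l (𝓝 0)) →
  ∃ Q, M.End Q ∧ (M.All fun e z => (h e z * Q e z).IsHermitian ∧ Pde (h e) (Q e) z) ∧
    M.L1c h l A Q

/-! ### The torsion vanishes on the image of the limit -/

/-- The trace of the torsion is small. -/
def St_TP1 : Prop := ∀ (n : ℕ) (M : Mf n) (G h : M.Fam (Mat n)) (ε S : ℝ), M.Kae G → M.Met h →
  M.Trb h → 0 < ε → (∀ x, ε * M.tr G h x ≤ S) → M.All fun e z => ∀ k,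
    ‖(tm (h e) k z * M.qE G h ε e z).trace‖ ^ 2 ≤
      8 * (1 + S) * (M.tr h G (e.symm z) * M.yS G h ε (e.symm z)) * (h e z k k).re

/-- The tempered curvature is small. -/
def St_TP2 : Prop := ∀ (n : ℕ) (M : Mf n) (G h : M.Fam (Mat n)) (ε : ℝ), M.Kae G → M.Met h →
  M.Trb h → ε ∈ Ioc (0 : ℝ) 1 → M.All fun e z =>
    bx (h e) (M.qE G h ε e z * (h e z)⁻¹) (M.qE G h ε e z * (h e z)⁻¹) z ≤
      M.yS G h ε (e.symm z) ∧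
    2 * bx (h e) (M.qE G h ε e z * (h e z)⁻¹) (h e z)⁻¹ z ≤
      (1 + M.tr h G (e.symm z)) * M.yS G h ε (e.symm z) + ε * bx (h e) (h e z)⁻¹ (h e z)⁻¹ z

/-- The closed conditions hold for the limit. -/
def St_TLQ : Prop := ∀ (n : ℕ) (M : Mf n) [M.Cpt] (H h Q : M.Fam (Mat n)) (k : ℕ) (C : ℝ)
  (g : ℕ → M.Fam (Mat n)) (ε : ℕ → ℝ) (φ f : ℕ → M.X → ℝ) (l : Filter ℕ) [l.NeBot], M.Kae H →
  M.Met h → M.Trb h → M.Gt H h k C g ε φ f → l ≤ atTop → M.End Q →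
  (M.All fun e z => (h e z * Q e z).IsHermitian) →
  M.L1c h l (fun a => M.qE (g a) h (ε a)) Q → M.All fun e z => Cls (h e) (Q e z) z

/-- The identities obtained by differentiation. -/
def St_TCA : Prop := ∀ (n : ℕ) (h Q : E n → Mat n) (z : E n), SmM h z → SmM Q z →
  (∀ᶠ w in 𝓝 z, (h w).PosDef ∧ Pde h Q w ∧ ∀ k, (tm h k w * Q w).trace = 0) → ∀ k l,
    (∀ i j, 2 * ths h k l z i j = th h k l z i j + th h j l z i k) ∧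
    ths h k l z * (Q z * (h z)⁻¹) = Q z * (h z)⁻¹ * (ths h l k z)ᴴ ∧
    4 * (ths h k l z * Q z).trace - 4 * (th h k l z * Q z).trace +
      (Q z * (h z)⁻¹ * (tm h l z)ᴴ * h z * tm h k z).trace = 0

/-- The algebraic lemma. -/
def St_TAL : Prop := ∀ (n : ℕ) (h ξ : Mat n) (T : Fin n → Fin n → Mat n), h.PosDef →
  ξ.PosSemidef → (∀ k l i j, T k l i j = T j l i k) →
  (∀ v : E n, (∑ k, ∑ l, v k * star (v l) * (star v ⬝ᵥ (h * T k l) *ᵥ v)).re ≤ 0) →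
  (∀ k l, T k l * ξ = ξ * (T l k)ᴴ) → 0 ≤ (∑ k, ∑ l, ξ k l * (T k l * (ξ * h)).trace).re →
  (∑ k, ∑ l, h⁻¹ k l * (T k l * (ξ * h)).trace).re ≤ 0

/-- The Ricci form controls the torsion. -/
def St_TKE : Prop := ∀ (n : ℕ) (M : Mf n) (h Q : M.Fam (Mat n)), M.Met h → M.Hsc h → M.End Q →
  (M.All fun e z => Pde (h e) (Q e) z) → (M.All fun e z => Cls (h e) (Q e z) z) →
  M.All fun e z => (qx (h e) (Q e z * (h e z)⁻¹) z).re ≤ 0 ∧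
    0 ≤ (Q e z * (h e z)⁻¹ * M.ric h e z).trace.re ∧
    ((Q e z * (h e z)⁻¹ * M.ric h e z).trace.re = 0 →
      (∀ l, dMb l (Q e) z = 0) ∧ ∀ a b, tors (h e) z (Q e z *ᵥ a) b = 0)

/-- The mean value of the trace of the Ricci form is small. -/
def St_TM1 : Prop := ∀ (n : ℕ) (M : Mf n) [M.Cpt] (H h Q : M.Fam (Mat n)) (k : ℕ) (C : ℝ)
  (g : ℕ → M.Fam (Mat n)) (ε : ℕ → ℝ) (φ f : ℕ → M.X → ℝ) (l : Filter ℕ) (δ : ℝ), M.Kae H →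
  M.Met h → M.Gs H h k C g ε φ f → l ≤ atTop → M.End Q →
  M.L1c h l (fun a => M.qE (g a) h (ε a)) Q → 0 < δ →
  ∀ᶠ a in l, M.mn (g a) (M.ev fun e z => (Q e z * (h e z)⁻¹ * M.ric h e z).trace.re) ≤ δ

/-- A non-negative function with small mean values vanishes. -/
def St_TM2 : Prop := ∀ (n : ℕ) (M : Mf n) [M.Cpt] (H h Q : M.Fam (Mat n)) (k : ℕ) (C : ℝ)
  (g : ℕ → M.Fam (Mat n)) (ε : ℕ → ℝ) (φ f : ℕ → M.X → ℝ) (l : Filter ℕ) [l.NeBot], M.Kae H →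
  M.Met h → M.Gt H h k C g ε φ f → M.End Q →
  (M.All fun e z => 0 ≤ (Q e z * (h e z)⁻¹ * M.ric h e z).trace.re) →
  (∀ δ : ℝ, 0 < δ →
    ∀ᶠ a in l, M.mn (g a) (M.ev fun e z => (Q e z * (h e z)⁻¹ * M.ric h e z).trace.re) ≤ δ) →
  M.All fun e z => (Q e z * (h e z)⁻¹ * M.ric h e z).trace.re = 0

/-! ### Rows of rb9 without the hypothesis on the curvature -/

/-- The limit of the mean value of a determinant. -/
def St_TMN : Prop := ∀ (n : ℕ) (M : Mf n) [M.Cpt] (H h Q R : M.Fam (Mat n)) (k : ℕ) (C : ℝ)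
  (g : ℕ → M.Fam (Mat n)) (ε : ℕ → ℝ) (φ f : ℕ → M.X → ℝ) (l : Filter ℕ) (s c : ℝ), M.Kae H →
  M.Met h → M.Gs H h k C g ε φ f → M.End Q → M.End R →
  M.L1c h l (fun a => M.qE (g a) h (ε a)) Q →
  (M.All fun e z => (1 + s • (Q e z * R e z)).det = c) →
  Tendsto (fun a => M.mn (g a) (M.dq (g a) (g a + (s * ε a) • (h * R)))) l (𝓝 c)

/-- The rank of the limit is at least the order of vanishing of the volume. -/
def St_TKL : Prop := ∀ (n : ℕ) (M : Mf n) [M.Cpt] (H h Q P : M.Fam (Mat n)) (k k' : ℕ) (C a b : ℝ)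
  (g : ℕ → M.Fam (Mat n)) (ε : ℕ → ℝ) (φ f : ℕ → M.X → ℝ) (l : Filter ℕ) [l.NeBot], M.Kae H →
  M.Met h → M.Ord H k → (∀ δ : ℝ, 0 < δ → 0 < M.vol H δ) → M.Gs H h k C g ε φ f →
  l ≤ atTop → M.HolSA h Q → M.L1c h l (fun a => M.qE (g a) h (ε a)) Q → M.Pj h Q P k' a b →
  k ≤ k'

/-- The curvature vanishes on the image of the projection. -/
def St_TFL : Prop := ∀ (n : ℕ) (h P : E n → Mat n) (z : E n) (ξ : Mat n) (a : ℝ), SmM h z →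
  SmM P z → (∀ᶠ w in 𝓝 z, (h w).PosDef ∧ ∀ x y, tors h w (P w *ᵥ x) y = 0) →
  (∀ l, dMb l P z = 0) → (h z * P z).IsHermitian → P z * P z = P z →
  (∀ i j, th h i j z * P z = P z * th h i j z) → (∀ v, (rm h z v v v v).re ≤ 0) → 0 < a →
  (ξ - a • (P z * (h z)⁻¹)).PosSemidef → P z * ξ = ξ → (qx h ξ z).re ≤ 0 →
  ∀ i j, th h i j z * P z = 0

/-- The twisted class has positive volume. -/
def St_TB1 : Prop := ∀ (n : ℕ) (M : Mf n) [M.Cpt] (H h Q P : M.Fam (Mat n)) (k k' : ℕ) (C a b : ℝ)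
  (g : ℕ → M.Fam (Mat n)) (ε : ℕ → ℝ) (φ f : ℕ → M.X → ℝ) (l : Filter ℕ) [l.NeBot], M.Kae H →
  M.Met h → M.Gs H h k C g ε φ f → l ≤ atTop → M.HolSA h Q →
  M.L1c h l (fun a => M.qE (g a) h (ε a)) Q → M.Pj h Q P k' a b → k ≤ k' → M.Clo (h * P) →
  (M.All fun e z => M.ric h e z * P e z = 0) → 0 < ∫ x, M.dq H (h * P - M.ric h) x ∂M.mu H

/-- The flat field and the positive volume. -/
theorem fl1_of (hVOL : HS.St_VOL) (hCL : St_TCL) (hEX : St_TEX) (hIT : St_RIT) (hDE : St_RDE)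
    (hSQ : St_TSQ) (hDB : St_RDB) (hLO : St_TLO) (hGL : St_TGL) (hPA : St_RPA) (hLQ : St_TLQ)
    (hKE : St_TKE) (hM1 : St_TM1) (hM2 : St_TM2) (hPJ : St_RPJ) (hKL : St_TKL) (hFL : St_TFL)
    (hT1 : St_GT1) (hPRD : St_GPRD) (hB1 : St_TB1)
    {n : ℕ} (M : Mf n) [M.Cpt] {H h : M.Fam (Mat n)} (hn : 0 < n) (hH : M.Kae H) (hh : M.Met h)
    (hr : M.Trb h) :
    ∃ P k, M.Fl1 h P k ∧ 0 < ∫ x, M.dq H (h * P - M.ric h) x ∂M.mu H := by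
  obtain ⟨hc, hy⟩ := (hCL n M h hh).2 hr
  obtain ⟨x1, x2⟩ := hEX n M H h hn hH hh hy
  have hv : ∀ δ : ℝ, 0 < δ → 0 < M.vol H δ := fun δ hδ =>
    let ⟨u, hu⟩ := x1 δ hδ
    ((hVOL n M H hH).1 δ u hu).2.2.2.1
  obtain ⟨k, ho⟩ := (hVOL n M H hH).2 hv
  obtain ⟨g₀, u, p, h0⟩ := hIT n M H hH x2
  obtain ⟨C₀, φ₀, h1⟩ := hDE n M H k g₀ u p hH ho hv h0
  obtain ⟨C, g, ε, φ, f, ht⟩ := hSQ n M H h k C₀ g₀ φ₀ hn hH hh hy h1
  have hs := ht.toGs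
  have hl : (hyperfilter ℕ : Filter ℕ) ≤ atTop := Nat.hyperfilter_le_atTop
  obtain ⟨Q, hE, hD, hL⟩ := hGL n M h (hyperfilter ℕ) (fun a => M.qE (g a) h (ε a)) hh
    (fun j =>
      let a := (hDB n M H h hH.toMet hh).1 _ _ (hs.kae j).toMet (hs.eps j).1
      ⟨a.1, fun e he z hz => (a.2 e he z hz).1⟩)
    (hLO n M H h k C g ε φ f (hyperfilter ℕ) hH hh hr hs hl)
  have q0 := hLQ n M H h Q k C g ε φ f _ hH hh hr ht hl hE (fun e he z hz => (hD e he z hz).1) hL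
  have q1 := hKE n M h Q hh hc hE (fun e he z hz => (hD e he z hz).2) q0
  have q2 := hM2 n M H h Q k C g ε φ f (hyperfilter ℕ) hH hh ht hE
    (fun e he z hz => (q1 e he z hz).2.1) fun δ hδ =>
      hM1 n M H h Q k C g ε φ f _ δ hH hh hs hl hE hL hδ
  have q3 := fun e he z hz => (q1 e he z hz).2.2 (q2 e he z hz)
  have hQ : M.HolSA h Q :=
    ⟨hE, fun e he z hz => (q3 e he z hz).1, fun e he z hz => (hD e he z hz).1⟩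
  obtain ⟨P, k', a, b, hP⟩ := hPJ n M h Q hh hQ (fun e he z hz => (q0 e he z hz).psd)
    (hPA n M h Q hh hQ).2.2
  obtain ⟨p1, p2, -⟩ := hPA n M h P hh hP.toHolSA
  have t2 : M.All fun e z => ∀ a b, tors (h e) z (P e z *ᵥ a) b = 0 := fun e he z hz x y => by
    obtain ⟨-, -, R, hR⟩ := hP.pq e he z hz
    rw [hR, ← Matrix.mulVec_mulVec]
    exact (q3 e he z hz).2 _ _
  have p5 : M.All fun e z => ∀ a b, th (h e) a b z * P e z = 0 := fun e he z hz => by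
    have hp := hh.pos e he z hz
    refine hFL n (h e) (P e) z (Q e z * (h e z)⁻¹) a (hh.sm e he z hz) (hP.en.sm e he z hz)
      ((e.open_target.eventually_mem hz).mono fun w hw => ⟨hh.pos e he w hw, t2 e he w hw⟩)
      (hP.hol e he z hz) (hP.herm e he z hz) (hP.idem e he z hz) (p2 e he z hz) (hc e he z hz)
      hP.a0 ?_ ?_ (q1 e he z hz).1
    · have := (hP.lo e he z hz).conjTranspose_mul_mul_same (h e z)⁻¹
      rwa [hp.inv.1.eq, Matrix.mul_sub, Matrix.mul_smul,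
        Matrix.nonsing_inv_mul_cancel_left _ _ hp.det_pos.ne'.isUnit,
        Matrix.nonsing_inv_mul_cancel_left _ _ hp.det_pos.ne'.isUnit, Matrix.sub_mul,
        Matrix.smul_mul] at this
    · rw [← Matrix.mul_assoc, (hP.pq e he z hz).1]
  have f0 : M.Fl0 h P k' := ⟨hP.toHolSA, hP.le, p1, hP.idem, hP.det, p5, fun e he z hz a b =>
    (p2 e he z hz a b).symm.trans (p5 e he z hz a b)⟩
  have f1 : M.Fl1 h P k' := ⟨f0, hT1 n M H h P k' hH hh f0, t2⟩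
  obtain ⟨-, a2, -, -, a4⟩ := hPRD n M h P k' hh f1
  exact ⟨P, k', f1, hB1 n M H h Q P k k' C a b g ε φ f _ hH hh hs hl hQ hL hP
    (hKL n M H h Q P k k' C a b g ε φ f _ hH hh ho hv hs hl hQ hL hP) a2 a4⟩

theorem main_of (hBR : St_TBR) (hCL : St_TCL) (hTL : St_TTL)
    (hFL : ∀ {n : ℕ} (M : Mf n) [M.Cpt] {H h : M.Fam (Mat n)}, 0 < n → M.Kae H → M.Met h →
      M.Trb h → ∃ P k, M.Fl1 h P k ∧ 0 < ∫ x, M.dq H (h * P - M.ric h) x ∂M.mu H)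
    (n : ℕ) (X : Type) [TopologicalSpace X] [ChartedSpace (E n) X] [IsManifold 𝓘(ℂ, E n) ω X]
    [CompactSpace X] [T2Space X] [ConnectedSpace X] (g h : X → Mat n) (hg : Kaehler g)
    (hh : Hermitian h) (hc : TemperedNonpos h) :
    ∃ m : ℕ, 0 < m ∧ ∀ x : X, ∃ s ∈ Pluri n X m, s x ≠ 0 := by
  obtain ⟨M, hM, H, h', h1, h2, h3, h4⟩ := hBR n X g h hg hh hc
  refine h4 ?_
  rcases Nat.eq_zero_or_pos n with rfl | hn
  · refine ⟨1, one_pos, fun x => ⟨fun _ _ => 1, ⟨⟨fun _ _ _ _ => contDiffAt_const,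
      fun _ _ _ _ _ _ _ => by simp⟩, fun _ _ _ _ => differentiableAt_const _⟩, one_ne_zero⟩⟩
  · obtain ⟨P, k, hf, hv⟩ := hFL M hn h1 h2 h3
    exact hTL n M H h' P k hn h1 h2 ((hCL n M h' h2).2 h3).2 hf hv

end Pool.Agent.Lib.TB
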