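import Pool.Agent.Lib.TB.B_TBR
import Pool.Agent.Lib.HS68.Fun

/-! Project tb33: two classical cases of the hypothesis. -/

open scoped Classical Topology ContDiff ComplexOrder Matrix Manifold
open Set Complex Filter

noncomputable section

namespace Pool.Agent.Lib.TB

open Pool.Agent.Lib.SV (E)
open Pool.Agent.Lib.HS32 Pool.Agent.Lib.GH Pool.Agent.Lib.HS.BBR Pool.Agent.Lib.RB
open Pool.Agent.Lib.RB.R32

variable {n : ℕ} {X : Type} [TopologicalSpace X] [ChartedSpace (E n) X] {h : X → Mat n}

/-- Non-positive real bisectional curvature. -/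
theorem tempered_of_rbc (hh : Hermitian h) (hr : RbcNonpos h) : TemperedNonpos h := by
  intro x e a he ha
  refine le_trans (Finset.sum_le_sum fun i _ => Finset.sum_le_sum fun j _ => ?_) (hr x e a he ha)
  have : 0 ≤ torSq h x (e i) (e j) := (hh.pos x).posSemidef.re_dotProduct_nonneg _
  exact mul_le_mul_of_nonneg_left (by linarith) (mul_nonneg (ha i) (ha j))

/-- The fundamental form of `h` is pluriclosed. -/
def Pluriclosed (h : X → Mat n) : Prop := ∀ (x : X) (a b c d : E n),
  star d ⬝ᵥ HS.delb c (HS.del a (HS.inChart h x)) (chartAt (E n) x x) *ᵥ b -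
    star d ⬝ᵥ HS.delb c (HS.del b (HS.inChart h x)) (chartAt (E n) x x) *ᵥ a -
    star c ⬝ᵥ HS.delb d (HS.del a (HS.inChart h x)) (chartAt (E n) x x) *ᵥ b +
    star c ⬝ᵥ HS.delb d (HS.del b (HS.inChart h x)) (chartAt (E n) x x) *ᵥ a = 0

namespace T94

theorem inChart_self (h : X → Mat n) (x : X) : HS.inChart h x (chartAt (E n) x x) = h x := by
  have hx := mem_chart_source (E n) x
  have e : HS.jacM x (chartAt (E n) x x) = 1 := by
    ext i j
    have : (chartAt (E n) x ∘ (chartAt (E n) x).symm) =ᶠ[𝓝 (chartAt (E n) x x)] id :=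
      (chartAt (E n) x).eventually_right_inverse' hx
    rw [HS.jacM, Matrix.of_apply, (chartAt (E n) x).left_inv hx, this.fderiv_eq, fderiv_id]
    simp [Matrix.one_apply, Pi.single_apply]
  rw [HS.inChart, e, (chartAt (E n) x).left_inv hx]
  simp

theorem rm_split {T : E n → Mat n} {z : E n} (l : HS68.Loc T z) (a c v w : E n) :
    rm T z a c v w = star ((∑ k, c k • gam T k z) *ᵥ w) ⬝ᵥ T z *ᵥ ((∑ k, a k • gam T k z) *ᵥ v) -
      star w ⬝ᵥ HS.delb c (HS.del a T) z *ᵥ v := by
  have e : (∑ k, c k • gam T k z)ᴴ * T z * (∑ k, a k • gam T k z) - HS.delb c (HS.del a T) z =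
      ∑ k, ∑ l, (a k * star (c l)) • (T z * th T k l z) := by
    rw [delb_eq, Finset.sum_comm]
    simp only [dMb_del l.sm, l.mul_th, Finset.sum_mul, Finset.mul_sum, Finset.smul_sum,
      smul_sub, Finset.sum_sub_distrib, Matrix.smul_mul, Matrix.mul_smul, smul_smul,
      Matrix.conjTranspose_sum, Matrix.conjTranspose_smul]
    congr 1
    · exact Finset.sum_comm
    · exact Finset.sum_congr rfl fun k _ => Finset.sum_congr rfl fun l _ => by rw [mul_comm]
  rw [Matrix.star_mulVec, ← Matrix.dotProduct_mulVec, Matrix.mulVec_mulVec, Matrix.mulVec_mulVec,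
    ← dotProduct_sub, ← Matrix.sub_mulVec, e, rm]
  simp only [Matrix.sum_mulVec, dotProduct_sum, Matrix.smul_mulVec, dotProduct_smul, smul_eq_mul]

theorem k4_sym (T : E n → Mat n) (z : E n) : HS76.K4 fun x y v w =>
    rm T z x y v w + rm T z v y x w + rm T z x w v y + rm T z v w x y where
  add1 x x' y v w := by
    simp only [rm, Pi.add_apply, add_mul, mul_add, Matrix.mulVec_add, dotProduct_add,
      Finset.sum_add_distrib]
    ring
  smul1 c x y v w := by
    simp only [rm, Pi.smul_apply, smul_eq_mul, Matrix.mulVec_smul, dotProduct_smul, mul_add,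
      Finset.mul_sum, mul_assoc, mul_left_comm]
  add2 x y y' v w := by
    simp only [rm, Pi.add_apply, star_add, add_mul, mul_add, add_dotProduct,
      Finset.sum_add_distrib]
    ring
  smul2 c x y v w := by
    simp only [rm, Pi.smul_apply, smul_eq_mul, star_smul, star_mul', smul_dotProduct, mul_add,
      Finset.mul_sum, mul_assoc, mul_left_comm]
  s13 x y v w := by ring
  s24 x y v w := by ring

end T94

open T94 in
/-- Pluriclosed metrics with non-positive holomorphic sectional curvature. -/
theorem tempered_of_pluriclosed [IsManifold 𝓘(ℂ, E n) ω X] (hh : Hermitian h)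
    (hp : Pluriclosed h) (hc : ∀ x v, curvAt h x v v ≤ 0) : TemperedNonpos h := by
  intro x w a _ ha
  obtain ⟨m, -, -⟩ := fam_ok hh
  let e : (mf n X).Ch := chartAt (M := X) (E n) x
  have he : e ∈ (mf n X).C := fun y => ⟨cp_chart (X := X) x y, cp_chart (X := X) y x⟩
  have hz : e x ∈ e.target := e.map_source (mem_chart_source (M := X) (E n) x)
  have l : HS68.Loc (HS.inChart h x) (chartAt (E n) x x) := HS68.met_loc m he hz
  have hp := hp x
  have c1 : ∀ u v, curvAt h x u v = (rm (HS.inChart h x) (chartAt (E n) x x) u u v v).re :=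
    fun u v => by rw [rm_curv l.sm l.det_ne, curvAt]
  have c2 := inChart_self h x
  have c3 : ∀ u v, torSq h x u v = (star (tor (HS.inChart h x) (chartAt (E n) x x) u v) ⬝ᵥ
      HS.inChart h x (chartAt (E n) x x) *ᵥ tor (HS.inChart h x) (chartAt (E n) x x) u v).re :=
    fun u v => by rw [c2, torSq]
  have hc := hc x
  simp only [c1, c3] at hc ⊢
  generalize HS.inChart h x = T at l hp hc
  generalize chartAt (E n) x x = z at l hp hc
  have k := k4_sym T z
  have r := k.royden (fun v => by simp only [add_re]; linarith [hc v])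
    fun i => ((Real.sqrt (a i) : ℝ) : ℂ) • w i
  have sc : ∀ {g : E n → E n → E n → E n → ℂ}, HS76.K4 g → ∀ (s t : ℝ) (u v : E n),
      (g ((s : ℂ) • u) ((s : ℂ) • u) ((t : ℂ) • v) ((t : ℂ) • v)).re =
      s ^ 2 * t ^ 2 * (g u u v v).re := by
    intro g hg s t u v
    rw [hg.smul1, hg.smul2, hg.smul3, hg.smul4]
    simp only [Complex.star_def, Complex.conj_ofReal, Complex.re_ofReal_mul]
    ring
  have id1 : ∀ u v, (rm T z u u v v + rm T z v u u v + rm T z u v v u + rm T z v v u u).re =
      2 * (rm T z u u v v).re + 2 * (rm T z v v u u).re -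
        (star (tor T z u v) ⬝ᵥ T z *ᵥ tor T z u v).re := fun u v => by
    have : rm T z u u v v + rm T z v u u v + rm T z u v v u + rm T z v v u u =
        2 * rm T z u u v v + 2 * rm T z v v u u - star (tor T z u v) ⬝ᵥ T z *ᵥ tor T z u v := by
      simp only [rm_split l, T12.tor_gam, star_sub, Matrix.mulVec_sub, dotProduct_sub,
        sub_dotProduct]
      linear_combination hp u v u v
    rw [this]
    simp
  rw [re_sum] at r
  simp only [re_sum, sc k, Real.sq_sqrt (ha _)] at r
  have r0 : ∑ i, a i * a i * (rm T z (w i) (w i) (w i) (w i) + rm T z (w i) (w i) (w i) (w i) +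
      rm T z (w i) (w i) (w i) (w i) + rm T z (w i) (w i) (w i) (w i)).re ≤ 0 :=
    Finset.sum_nonpos fun i _ => mul_nonpos_of_nonneg_of_nonpos (mul_self_nonneg _)
      (by simp only [add_re]; linarith [hc (w i)])
  have r1 := r.trans r0
  have sw : ∑ i, ∑ j, a i * a j * (rm T z (w j) (w j) (w i) (w i)).re =
      ∑ i, ∑ j, a i * a j * (rm T z (w i) (w i) (w j) (w j)).re :=
    Finset.sum_comm.trans (Finset.sum_congr rfl fun i _ => Finset.sum_congr rfl fun j _ => by ring)
  simp only [id1, mul_sub, mul_add, mul_left_comm _ (2 : ℝ), Finset.sum_sub_distrib,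
    Finset.sum_add_distrib, ← Finset.mul_sum, sw] at r1
  simp only [mul_sub, Finset.sum_sub_distrib, ← mul_div_assoc, ← Finset.sum_div]
  linarith

end Pool.Agent.Lib.TB
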