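import Pool.Agent.Lib.GH.SDefs

/-! Definitions used in the statement: the torsion of the connection of Chern and the sign of the
tempered real bisectional curvature. -/

open scoped Matrix

noncomputable section

namespace Pool.Agent.Lib.TB

open Pool.Agent.Lib.SV Pool.Agent.Lib.HS Pool.Agent.Lib.GH

variable {n : ℕ} {X : Type} [TopologicalSpace X] [ChartedSpace (E n) X]

/-- The torsion `T(a, v)` of the connection of Chern of the Hermitian metric `v ↦ v^* M v`. -/
def tor (M : E n → Mat n) (z a v : E n) : E n := (M z)⁻¹ *ᵥ (del a M z *ᵥ v - del v M z *ᵥ a)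

/-- The squared length of the torsion `T(a, v)` of `h` at `x`, in the preferred chart. -/
def torSq (h : X → Mat n) (x : X) (a v : E n) : ℝ :=
  (star (tor (inChart h x) (chartAt (E n) x x) a v) ⬝ᵥ
    h x *ᵥ tor (inChart h x) (chartAt (E n) x x) a v).re

/-- The tempered real bisectional curvature of `h` (Broder and Stanfield) is non-positive: for
every unitary frame `e` at a point and all `a i ≥ 0`, the sum of
`a i * a j * (R(e i, conj e i, e j, conj e j) - |T(e i, e j)| ^ 2 / 4)` is at most zero. -/
def TemperedNonpos (h : X → Mat n) : Prop :=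
  ∀ (x : X) (e : Fin n → E n) (a : Fin n → ℝ),
    (∀ i j, star (e i) ⬝ᵥ h x *ᵥ e j = if i = j then 1 else 0) → (∀ i, 0 ≤ a i) →
    ∑ i, ∑ j, a i * a j * (curvAt h x (e i) (e j) - torSq h x (e i) (e j) / 4) ≤ 0

end Pool.Agent.Lib.TB
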